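import Pool.Agent.H11.Venn.Defs

/-!
# General lemmas on surfaces bounding convex bodies
-/

open Set Metric Bornology Topology

namespace Pool.Agent.H11.Venn

/-- Image of a compact set under a continuous injective map. -/
noncomputable def imageHomeo {X Y : Type*} [TopologicalSpace X] [TopologicalSpace Y] [T2Space Y]
    {S : Set X} (hS : IsCompact S) {φ : X → Y} (hc : ContinuousOn φ S) (hi : InjOn φ S) :
    S ≃ₜ (φ '' S) :=
  have : CompactSpace S := isCompact_iff_compactSpace.1 hS
  Continuous.homeoOfEquivCompactToT2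
    (f := (Set.BijOn.equiv φ ⟨mapsTo_image φ S, hi, surjOn_image φ S⟩))
    (by
      apply Continuous.subtype_mk
      exact hc.domRestrict)

lemma IsTopSphere.isCompact {m j : ℕ} {S : Set (E m)} (h : IsTopSphere j S) : IsCompact S := by
  obtain ⟨e⟩ := h
  have : CompactSpace (sphere (0 : E (j + 1)) 1) :=
    isCompact_iff_compactSpace.1 (isCompact_sphere _ _)
  have : CompactSpace S := e.symm.compactSpace
  exact isCompact_iff_compactSpace.2 inferInstance

lemma IsTopSphere.image {m k j : ℕ} {S : Set (E k)} (h : IsTopSphere j S) {φ : E k → E m}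
    (hc : ContinuousOn φ S) (hi : InjOn φ S) : IsTopSphere j (φ '' S) := by
  have hS := h.isCompact
  obtain ⟨e⟩ := h
  exact ⟨(imageHomeo hS hc hi).symm.trans e⟩

lemma isTopSphere_unit (j : ℕ) : IsTopSphere j (sphere (0 : E (j + 1)) 1) :=
  ⟨Homeomorph.refl _⟩

/-- The frontier of a bounded convex set with nonempty interior is a topological sphere. -/
lemma isTopSphere_frontier {j : ℕ} {s : Set (E (j + 1))} (hc : Convex ℝ s)
    (hne : (interior s).Nonempty) (hb : IsBounded s) : IsTopSphere j (frontier s) := by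
  obtain ⟨h, -, -, h3⟩ := exists_homeomorph_image_interior_closure_frontier_eq_unitBall hc hne hb
  refine ⟨(h.image (frontier s)).trans (Homeomorph.setCongr h3)⟩

lemma isPreconnected_compl_closedBall {m : ℕ} (hm : 2 ≤ m) :
    IsPreconnected ((closedBall (0 : E m) 1)ᶜ) := by
  have hr : 1 < Module.rank ℝ (E m) := by
    rw [← Module.finrank_eq_rank, finrank_euclideanSpace_fin]
    exact_mod_cast hm
  have h1 : IsPreconnected (sphere (0 : E m) 1) := isPreconnected_sphere hr 0 1
  have h2 : IsPreconnected ((sphere (0 : E m) 1) ×ˢ (Ioi (1 : ℝ))) := h1.prod isPreconnected_Ioi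
  have h3 : (closedBall (0 : E m) 1)ᶜ =
      (fun p : E m × ℝ => p.2 • p.1) '' ((sphere (0 : E m) 1) ×ˢ (Ioi (1 : ℝ))) := by
    ext x
    simp only [mem_compl_iff, mem_closedBall, dist_zero_right, not_le, mem_image, mem_prod,
      mem_sphere_iff_norm, sub_zero, mem_Ioi, Prod.exists]
    constructor
    · intro hx
      have hx0 : ‖x‖ ≠ 0 := by positivity
      refine ⟨‖x‖⁻¹ • x, ‖x‖, ⟨?_, hx⟩, ?_⟩
      · rw [norm_smul, norm_inv, norm_norm, inv_mul_cancel₀ hx0]
      · rw [smul_smul, mul_inv_cancel₀ hx0, one_smul]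
    · rintro ⟨u, r, ⟨hu, hr⟩, rfl⟩
      rw [norm_smul, hu, mul_one, Real.norm_of_nonneg (by linarith)]
      exact hr
  rw [h3]
  exact h2.image _ (by fun_prop)

lemma not_isBounded_univ {m : ℕ} (hm : 2 ≤ m) : ¬ IsBounded (univ : Set (E m)) := by
  have : Nontrivial (E m) := by
    have : 0 < Module.finrank ℝ (E m) := by
      rw [finrank_euclideanSpace_fin]; omega
    exact Module.nontrivial_of_finrank_pos this
  intro h
  obtain ⟨R, hR⟩ := h.subset_closedBall (0 : E m)
  obtain ⟨x, hx⟩ := NormedSpace.exists_lt_norm ℝ (E m) R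
  have := hR (mem_univ x)
  rw [mem_closedBall, dist_zero_right] at this
  linarith

/-- Data about an open convex body. -/
structure IsBody {m : ℕ} (B : Set (E m)) : Prop where
  isOpen : IsOpen B
  convex : Convex ℝ B
  nonempty : B.Nonempty
  bounded : IsBounded B

namespace IsBody

variable {m : ℕ} {B : Set (E m)}

lemma interior_nonempty (h : IsBody B) : (interior B).Nonempty := by
  rw [h.isOpen.interior_eq]; exact h.nonempty

lemma surface {j : ℕ} {B : Set (E (j + 1))} (h : IsBody B) : IsSurface (frontier B) :=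
  isTopSphere_frontier h.convex h.interior_nonempty h.bounded

lemma compl_frontier (h : IsBody B) : (frontier B)ᶜ = B ∪ (closure B)ᶜ := by
  ext x
  rw [frontier, h.isOpen.interior_eq]
  simp only [mem_compl_iff, mem_sdiff, not_and, not_not, mem_union]
  constructor
  · intro hx
    by_cases hc : x ∈ closure B
    · exact Or.inl (hx hc)
    · exact Or.inr hc
  · rintro (hx | hx) hc
    · exact hx
    · exact absurd hc hx

lemma isPreconnected_ext (hm : 2 ≤ m) (h : IsBody B) : IsPreconnected ((closure B)ᶜ) := by
  obtain ⟨e, -, h2, -⟩ := exists_homeomorph_image_interior_closure_frontier_eq_unitBall h.convex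
    h.interior_nonempty h.bounded
  have h3 : (closure B)ᶜ = e.symm '' ((closedBall (0 : E m) 1)ᶜ) := by
    rw [← h2, ← e.image_compl, ← image_comp, e.symm_comp_self, image_id]
  rw [h3]
  exact (isPreconnected_compl_closedBall hm).image _ e.symm.continuous.continuousOn

lemma ext_unbounded (hm : 2 ≤ m) (h : IsBody B) : ¬ IsBounded ((closure B)ᶜ) := by
  intro hb
  have h1 : IsBounded (closure B ∪ (closure B)ᶜ) := h.bounded.closure.union hb
  rw [union_compl_self] at h1
  exact not_isBounded_univ hm h1

lemma comp_inside (h : IsBody B) {x : E m} (hx : x ∈ B) :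
    IsBounded (connectedComponentIn (frontier B)ᶜ x) := by
  have hx' : x ∈ (frontier B)ᶜ := by rw [h.compl_frontier]; exact Or.inl hx
  refine h.bounded.subset ?_
  have h1 : IsPreconnected (connectedComponentIn (frontier B)ᶜ x) :=
    isPreconnected_connectedComponentIn
  refine h1.subset_left_of_subset_union h.isOpen
    (isClosed_closure (s := B)).isOpen_compl ?_ ?_ ?_
  · exact disjoint_compl_right_iff_subset.2 subset_closure
  · rw [← h.compl_frontier]; exact connectedComponentIn_subset _ _
  · exact ⟨x, mem_connectedComponentIn hx', hx⟩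

lemma comp_outside (hm : 2 ≤ m) (h : IsBody B) {x : E m} (hx : x ∈ (closure B)ᶜ) :
    ¬ IsBounded (connectedComponentIn (frontier B)ᶜ x) := by
  intro hb
  refine h.ext_unbounded hm (hb.subset ?_)
  refine (h.isPreconnected_ext hm).subset_connectedComponentIn hx ?_
  rw [h.compl_frontier]; exact subset_union_right

lemma inside_eq (hm : 2 ≤ m) (h : IsBody B) : inside (frontier B) = B := by
  ext x
  simp only [inside, mem_ofPred_eq]
  constructor
  · rintro ⟨hx, hb⟩
    rw [h.compl_frontier] at hx
    rcases hx with hx | hx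
    · exact hx
    · exact absurd hb (h.comp_outside hm hx)
  · intro hx
    refine ⟨?_, h.comp_inside hx⟩
    rw [h.compl_frontier]; exact Or.inl hx

lemma outside_eq (hm : 2 ≤ m) (h : IsBody B) : outside (frontier B) = (closure B)ᶜ := by
  ext x
  simp only [outside, mem_ofPred_eq]
  constructor
  · rintro ⟨hx, hb⟩
    rw [h.compl_frontier] at hx
    rcases hx with hx | hx
    · exact absurd (h.comp_inside hx) hb
    · exact hx
  · intro hx
    refine ⟨?_, h.comp_outside hm hx⟩
    rw [h.compl_frontier]; exact Or.inr hx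

end IsBody

lemma isBody_ball (m : ℕ) : IsBody (ball (0 : E m) 1) :=
  ⟨isOpen_ball, convex_ball _ _, ⟨0, by simp⟩, isBounded_ball⟩

lemma frontier_unit (m : ℕ) : frontier (ball (0 : E m) 1) = sphere 0 1 :=
  frontier_ball _ one_ne_zero

lemma inside_unit {m : ℕ} (hm : 2 ≤ m) : inside (sphere (0 : E m) 1) = ball 0 1 := by
  rw [← frontier_unit, (isBody_ball m).inside_eq hm]

lemma outside_unit {m : ℕ} (hm : 2 ≤ m) :
    outside (sphere (0 : E m) 1) = (closedBall 0 1)ᶜ := by
  rw [← frontier_unit, (isBody_ball m).outside_eq hm, closure_ball _ one_ne_zero]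

/-- A bounded open convex set is homeomorphic to the whole space. -/
lemma nonempty_homeo_of_convex {F : Type*} [NormedAddCommGroup F] [NormedSpace ℝ F]
    {s : Set F} (ho : IsOpen s) (hc : Convex ℝ s) (hne : s.Nonempty) (hb : IsBounded s) :
    Nonempty (s ≃ₜ F) := by
  obtain ⟨h, h1, -, -⟩ := exists_homeomorph_image_interior_closure_frontier_eq_unitBall hc
    (by rwa [ho.interior_eq]) hb
  rw [ho.interior_eq] at h1
  exact ⟨((h.image s).trans (Homeomorph.setCongr h1)).trans Homeomorph.unitBall.symm⟩

end Pool.Agent.H11.Venn
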