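import Pool.Agent.H11.Venn.Radial

/-!
# Families of frontiers of convex bodies: regions and edges
-/

open Set Metric Bornology Topology

namespace Pool.Agent.H11.Venn

lemma rank4 : (2 : ℕ) ≤ 4 := by norm_num

lemma fin2_cases : ∀ b : Fin 2, b = 0 ∨ b = 1 := by decide

section

variable {n : ℕ} {B : Fin n → Set (E 4)}

lemma side_zero (hB : ∀ i, IsBody (B i)) (i : Fin n) : side (frontier (B i)) 0 = B i := by
  rw [side, if_pos rfl, (hB i).inside_eq rank4]

lemma side_one (hB : ∀ i, IsBody (B i)) (i : Fin n) :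
    side (frontier (B i)) 1 = (closure (B i))ᶜ := by
  rw [side, if_neg (by decide), (hB i).outside_eq rank4]

lemma isOpen_side (hB : ∀ i, IsBody (B i)) (i : Fin n) (b : Fin 2) :
    IsOpen (side (frontier (B i)) b) := by
  fin_cases b
  · change IsOpen (side (frontier (B i)) 0)
    rw [side_zero hB]; exact (hB i).isOpen
  · change IsOpen (side (frontier (B i)) 1)
    rw [side_one hB]; exact isClosed_closure.isOpen_compl

lemma disjoint_side (S : Set (E 4)) {b c : Fin 2} (h : b ≠ c) :
    Disjoint (side S b) (side S c) := by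
  have h1 : Disjoint (inside S) (outside S) := by
    rw [Set.disjoint_left]
    rintro x ⟨-, hx⟩ ⟨-, hx'⟩
    exact hx' hx
  fin_cases b <;> fin_cases c
  · exact absurd rfl h
  · exact h1
  · exact h1.symm
  · exact absurd rfl h

lemma side_subset_compl (S : Set (E 4)) (b : Fin 2) : side S b ⊆ Sᶜ := by
  fin_cases b
  · exact fun x hx => hx.1
  · exact fun x hx => hx.1

lemma exists_side (S : Set (E 4)) {x : E 4} (hx : x ∉ S) : ∃ b : Fin 2, x ∈ side S b := by
  by_cases h : IsBounded (connectedComponentIn Sᶜ x)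
  · exact ⟨0, hx, h⟩
  · exact ⟨1, hx, h⟩

/-- The part of `V i` on prescribed sides of the other surfaces. -/
def piece (V : Fin n → Set (E 4)) (i : Fin n) (ε : Fin n → Fin 2) : Set (E 4) :=
  {x | x ∈ V i ∧ ∀ j, j ≠ i → x ∈ side (V j) (ε j)}

lemma piece_subset_free (V : Fin n → Set (E 4)) (i : Fin n) (ε : Fin n → Fin 2) :
    piece V i ε ⊆ free V i := by
  rintro x ⟨h1, h2⟩
  refine ⟨h1, ?_⟩
  rw [mem_iUnion₂]
  rintro ⟨j, hj, hx⟩
  exact side_subset_compl _ _ (h2 j hj) hx

lemma exists_piece {V : Fin n → Set (E 4)} {i : Fin n} {x : E 4} (hx : x ∈ free V i) :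
    ∃ ε : Fin n → Fin 2, ε i = 0 ∧ x ∈ piece V i ε := by
  classical
  have h : ∀ j, ∃ b : Fin 2, j ≠ i → x ∈ side (V j) b := by
    intro j
    by_cases hj : j = i
    · exact ⟨0, fun h => absurd hj h⟩
    · have : x ∉ V j := fun h' => hx.2 (mem_iUnion₂.2 ⟨j, hj, h'⟩)
      obtain ⟨b, hb⟩ := exists_side _ this
      exact ⟨b, fun _ => hb⟩
  choose b hb using h
  refine ⟨Function.update b i 0, by simp, hx.1, fun j hj => ?_⟩
  rw [Function.update_of_ne hj]
  exact hb j hj

lemma component_eq_piece (hB : ∀ i, IsBody (B i))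
    (hp : ∀ i ε, IsPreconnected (piece (fun i => frontier (B i)) i ε))
    {i : Fin n} {ε : Fin n → Fin 2} {x : E 4} (hx : x ∈ piece (fun i => frontier (B i)) i ε) :
    connectedComponentIn (free (fun i => frontier (B i)) i) x =
      piece (fun i => frontier (B i)) i ε := by
  set V : Fin n → Set (E 4) := fun i => frontier (B i) with hV
  apply Subset.antisymm
  · intro y hy
    have h1 : IsPreconnected (connectedComponentIn (free V i) x) :=
      isPreconnected_connectedComponentIn
    have hxF : x ∈ free V i := piece_subset_free V i ε hx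
    have hxc : x ∈ connectedComponentIn (free V i) x := mem_connectedComponentIn hxF
    refine ⟨(connectedComponentIn_subset _ _ hy).1, fun j hj => ?_⟩
    have hsub : connectedComponentIn (free V i) x ⊆ side (V j) 0 ∪ side (V j) 1 := by
      intro z hz
      have hz' := (connectedComponentIn_subset _ _ hz).2
      have : z ∉ V j := fun h' => hz' (mem_iUnion₂.2 ⟨j, hj, h'⟩)
      obtain ⟨b, hb⟩ := exists_side _ this
      fin_cases b
      · exact Or.inl hb
      · exact Or.inr hb
    have hd : Disjoint (side (V j) 0) (side (V j) 1) := disjoint_side _ (by decide)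
    have hεj := hx.2 j hj
    rcases fin2_cases (ε j) with h | h
    · rw [h] at hεj ⊢
      exact h1.subset_left_of_subset_union (isOpen_side hB j 0) (isOpen_side hB j 1) hd hsub
        ⟨x, hxc, hεj⟩ hy
    · rw [h] at hεj ⊢
      exact h1.subset_right_of_subset_union (isOpen_side hB j 0) (isOpen_side hB j 1) hd hsub
        ⟨x, hxc, hεj⟩ hy
  · exact (hp i ε).subset_connectedComponentIn hx (piece_subset_free V i ε)

/-- The number of edges is the number of nonempty pieces. -/
lemma encard_edges (hB : ∀ i, IsBody (B i))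
    (hp : ∀ i ε, IsPreconnected (piece (fun i => frontier (B i)) i ε)) :
    (edges (fun i => frontier (B i))).encard =
      {q : Fin n × (Fin n → Fin 2) | q.2 q.1 = 0 ∧
        (piece (fun i => frontier (B i)) q.1 q.2).Nonempty}.encard := by
  set V : Fin n → Set (E 4) := fun i => frontier (B i) with hV
  set Q : Set (Fin n × (Fin n → Fin 2)) := {q | q.2 q.1 = 0 ∧ (piece V q.1 q.2).Nonempty} with hQ
  have h1 : edges V = (fun q : Fin n × (Fin n → Fin 2) => piece V q.1 q.2) '' Q := by
    ext C
    constructor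
    · rintro ⟨i, x, hx, rfl⟩
      obtain ⟨ε, hε, hxp⟩ := exists_piece hx
      exact ⟨(i, ε), ⟨hε, x, hxp⟩, (component_eq_piece hB hp hxp).symm⟩
    · rintro ⟨⟨i, ε⟩, ⟨-, x, hx⟩, rfl⟩
      exact ⟨i, x, piece_subset_free V i ε hx, (component_eq_piece hB hp hx).symm⟩
  rw [h1]
  apply InjOn.encard_image
  rintro ⟨i, ε⟩ ⟨hε, x, hx⟩ ⟨i', ε'⟩ ⟨hε', -⟩ heq
  simp only at heq hx hε hε'
  have hx' : x ∈ piece V i' ε' := heq ▸ hx
  have hi : i = i' := by
    by_contra hne
    exact (piece_subset_free V i ε hx).2 (mem_iUnion₂.2 ⟨i', fun h => hne h.symm, hx'.1⟩)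
  subst hi
  have : ε = ε' := by
    funext j
    by_cases hj : j = i
    · subst hj; rw [hε, hε']
    · by_contra hne
      exact Set.disjoint_left.1 (disjoint_side (V j) hne) (hx.2 j hj) (hx'.2 j hj)
  rw [this]

end

/-- Criterion for a family of frontiers of convex bodies in `ℝ^4` to be a simple Venn diagram. -/
lemma venn_of {n : ℕ} (hn : n ≤ 4) {B : Fin n → Set (E 4)} (hB : ∀ i, IsBody (B i))
    (hreg : ∀ ε, Nonempty (region (fun i => frontier (B i)) ε ≃ₜ E 4) ∨
      Nonempty (region (fun i => frontier (B i)) ε ≃ₜ ((closedBall (0 : E 4) 1)ᶜ : Set (E 4))))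
    (hint : ∀ I : Finset (Fin n), 2 ≤ I.card →
      IsDisjointSphereUnion (4 - I.card) (⋂ i ∈ I, frontier (B i))) :
    IsVenn (fun i => frontier (B i)) ∧ IsSimple (fun i => frontier (B i)) := by
  have hint' : ∀ I : Finset (Fin n), 2 ≤ I.card →
      IsSphereUnion (4 - I.card) (⋂ i ∈ I, frontier (B i)) := by
    intro I hI
    obtain ⟨F, h1, -, h3, h4⟩ := hint I hI
    exact ⟨F, h1, h3, h4⟩
  have hball : ConnectedSpace (E 4) := inferInstance
  have hne4 : Nonempty (E 4) := ⟨0⟩
  have hcc : IsConnected ((closedBall (0 : E 4) 1)ᶜ : Set (E 4)) := by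
    refine ⟨?_, isPreconnected_compl_closedBall rank4⟩
    by_contra h
    rw [not_nonempty_iff_eq_empty, compl_empty_iff] at h
    exact not_isBounded_univ rank4 (h ▸ isBounded_closedBall)
  have hconn : ∀ ε, IsConnected (region (fun i => frontier (B i)) ε) := by
    intro ε
    rw [isConnected_iff_connectedSpace]
    rcases hreg ε with ⟨⟨e⟩⟩ | ⟨⟨e⟩⟩
    · exact e.symm.surjective.connectedSpace e.symm.continuous
    · have : ConnectedSpace ((closedBall (0 : E 4) 1)ᶜ : Set (E 4)) :=
        isConnected_iff_connectedSpace.1 hcc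
      exact e.symm.surjective.connectedSpace e.symm.continuous
  refine ⟨⟨fun i => (hB i).surface, fun ε => (hconn ε).nonempty, hconn, ?_, ?_⟩, ?_⟩
  · intro ε
    refine ⟨sphere 0 1, isTopSphere_unit 3, ?_⟩
    rcases hreg ε with ⟨⟨e⟩⟩ | ⟨⟨e⟩⟩
    · left
      rw [inside_unit rank4]
      exact ⟨e.trans Homeomorph.unitBall⟩
    · right
      rw [outside_unit rank4]
      exact ⟨e⟩
  · intro i j hij
    have h2 : ({i, j} : Finset (Fin n)).card = 2 := Finset.card_pair hij
    have := hint' {i, j} (by rw [h2])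
    rw [h2] at this
    simpa using this
  · intro I hI
    refine ⟨fun _ => hint' I hI, fun h => ?_⟩
    have : I.card ≤ n := by simpa using Finset.card_le_univ I
    omega

end Pool.Agent.H11.Venn
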