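import Pool.Agent.H11.Venn.Round3

/-!
# The cylindrical diagram: bodies and sides
-/

open Set Metric Bornology Topology

namespace Pool.Agent.H11.Venn

/-- projection to the coordinates `0, 2, 3` -/
noncomputable def proj3 : E 4 →ₗ[ℝ] E 3 where
  toFun p := WithLp.toLp 2 ![p 0, p 2, p 3]
  map_add' p q := by
    ext j; fin_cases j <;> simp
  map_smul' c p := by
    ext j; fin_cases j <;> simp

/-- the distance from the axis -/
noncomputable def rho (p : E 4) : ℝ := ‖proj3 p‖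

lemma rho_nonneg (p : E 4) : 0 ≤ rho p := norm_nonneg _

lemma rho_sq (p : E 4) : rho p ^ 2 = p 0 ^ 2 + p 2 ^ 2 + p 3 ^ 2 := by
  rw [rho, EuclideanSpace.norm_sq_eq, Fin.sum_univ_three]
  simp [proj3]

lemma rho_eq {p : E 4} {r : ℝ} (hr : 0 ≤ r) (h : r ^ 2 = p 0 ^ 2 + p 2 ^ 2 + p 3 ^ 2) :
    rho p = r := by
  rw [← rho_sq] at h
  exact ((sq_eq_sq₀ hr (rho_nonneg p)).1 h).symm

lemma continuous_rho : Continuous rho := by
  unfold rho
  exact continuous_norm.comp proj3.continuous_of_finiteDimensional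

lemma convexOn_rho : ConvexOn ℝ univ rho := by
  have h := (convexOn_norm (E := E 3) convex_univ).comp_linearMap proj3
  rw [preimage_univ] at h
  exact h

lemma norm_sq4 (p : E 4) : ‖p‖ ^ 2 = p 1 ^ 2 + rho p ^ 2 := by
  rw [rho_sq, EuclideanSpace.norm_sq_eq, Fin.sum_univ_four]
  simp only [Real.norm_eq_abs, sq_abs]
  ring

lemma abs_le_rho (p : E 4) : |p 0| ≤ rho p := by
  apply abs_le_of_sq_le_sq _ (rho_nonneg p)
  rw [rho_sq]
  nlinarith [sq_nonneg (p 2), sq_nonneg (p 3)]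

/-- An open cylinder. -/
def Cyl (a b r : ℝ) : Set (E 4) := {p | a < p 1 ∧ p 1 < b ∧ rho p < r}

lemma convexOn_coord (i : Fin 4) (s c : ℝ) : ConvexOn ℝ univ (fun p : E 4 => s * p i + c) := by
  refine ⟨convex_univ, fun x _ y _ a b _ _ hab => le_of_eq ?_⟩
  simp only [PiLp.add_apply, PiLp.smul_apply, smul_eq_mul]
  have : b = 1 - a := by linarith
  subst this
  ring

lemma isBounded_of {S : Set (E 4)} {R : ℝ} (h : ∀ p ∈ S, |p 1| ≤ R ∧ rho p ≤ R) :
    IsBounded S := by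
  rw [isBounded_iff_forall_norm_le]
  refine ⟨2 * R, fun p hp => ?_⟩
  obtain ⟨h1, h2⟩ := h p hp
  have h3 := norm_sq4 p
  have h4 := rho_nonneg p
  have h5 := abs_nonneg (p 1)
  have h6 : p 1 ^ 2 = |p 1| ^ 2 := (sq_abs _).symm
  by_contra h7
  push Not at h7
  nlinarith

lemma cyl_body {a b r : ℝ} (hab : a < b) (hr : 0 < r) : IsBody (Cyl a b r) ∧
    closure (Cyl a b r) = {p | a ≤ p 1 ∧ p 1 ≤ b ∧ rho p ≤ r} := by
  have h := isBody_of_convex (m := 4) (ι := Fin 3)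
    ![fun p => (-1) * p 1 + a, fun p => 1 * p 1 + (-b), fun p => rho p + (-r)] ?_ ?_ ?_ ?_
  · have e1 : {p : E 4 | ∀ i : Fin 3, (![fun p => (-1) * p 1 + a, fun p => 1 * p 1 + (-b),
        fun p => rho p + (-r)] : Fin 3 → E 4 → ℝ) i p < 0} = Cyl a b r := by
      ext p
      simp only [mem_ofPred_eq, Cyl, Fin.forall_fin_succ]
      simp
    have e2 : {p : E 4 | ∀ i : Fin 3, (![fun p => (-1) * p 1 + a, fun p => 1 * p 1 + (-b),
        fun p => rho p + (-r)] : Fin 3 → E 4 → ℝ) i p ≤ 0} =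
        {p | a ≤ p 1 ∧ p 1 ≤ b ∧ rho p ≤ r} := by
      ext p
      simp only [mem_ofPred_eq, Fin.forall_fin_succ]
      simp
    rw [e1, e2] at h
    exact h
  · intro i
    fin_cases i
    · exact convexOn_coord 1 _ _
    · exact convexOn_coord 1 _ _
    · exact convexOn_rho.add (convexOn_const _ convex_univ)
  · intro i
    have := continuous_rho
    fin_cases i
    · change Continuous fun p : E 4 => (-1) * p 1 + a
      fun_prop
    · change Continuous fun p : E 4 => 1 * p 1 + (-b)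
      fun_prop
    · change Continuous fun p : E 4 => rho p + (-r)
      fun_prop
  · refine ⟨WithLp.toLp 2 ![0, (a + b) / 2, 0, 0], ?_⟩
    have h0 : rho (WithLp.toLp 2 ![0, (a + b) / 2, 0, 0]) = 0 := by
      apply rho_eq le_rfl
      simp
    simp only [mem_ofPred_eq, Fin.forall_fin_succ]
    refine ⟨?_, ?_, ?_, ?_⟩
    · change (-1) * ((a + b) / 2) + a < 0
      linarith
    · change 1 * ((a + b) / 2) + (-b) < 0
      linarith
    · change rho (WithLp.toLp 2 ![0, (a + b) / 2, 0, 0]) + (-r) < 0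
      rw [h0]; linarith
    · exact fun i => i.elim0
  · apply isBounded_of (R := max (max |a| |b|) r)
    intro p hp
    have h1 := hp 0
    have h2 := hp 1
    have h3 := hp 2
    change (-1) * p 1 + a < 0 at h1
    change 1 * p 1 + (-b) < 0 at h2
    change rho p + (-r) < 0 at h3
    refine ⟨?_, ?_⟩
    · apply le_trans _ (le_max_left _ _)
      apply abs_le_max_abs_abs <;> linarith
    · exact le_trans (by linarith) (le_max_right _ _)

lemma tx_body : IsBody {p : E 4 | p 0 < 0 ∧ p ∈ Cyl (-6) 6 6} ∧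
    closure {p : E 4 | p 0 < 0 ∧ p ∈ Cyl (-6) 6 6} =
      {p | p 0 ≤ 0 ∧ -6 ≤ p 1 ∧ p 1 ≤ 6 ∧ rho p ≤ 6} := by
  have h := isBody_of_convex (m := 4) (ι := Fin 4)
    ![fun p => 1 * p 0 + 0, fun p => (-1) * p 1 + (-6), fun p => 1 * p 1 + (-6),
      fun p => rho p + (-6)] ?_ ?_ ?_ ?_
  · have e1 : {p : E 4 | ∀ i : Fin 4, (![fun p => 1 * p 0 + 0, fun p => (-1) * p 1 + (-6),
        fun p => 1 * p 1 + (-6), fun p => rho p + (-6)] : Fin 4 → E 4 → ℝ) i p < 0} =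
        {p : E 4 | p 0 < 0 ∧ p ∈ Cyl (-6) 6 6} := by
      ext p
      simp only [mem_ofPred_eq, Cyl, Fin.forall_fin_succ]
      simp
      intro _ _ _
      constructor <;> intro _ <;> linarith
    have e2 : {p : E 4 | ∀ i : Fin 4, (![fun p => 1 * p 0 + 0, fun p => (-1) * p 1 + (-6),
        fun p => 1 * p 1 + (-6), fun p => rho p + (-6)] : Fin 4 → E 4 → ℝ) i p ≤ 0} =
        {p | p 0 ≤ 0 ∧ -6 ≤ p 1 ∧ p 1 ≤ 6 ∧ rho p ≤ 6} := by
      ext p
      simp only [mem_ofPred_eq, Fin.forall_fin_succ]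
      simp
      intro _ _ _
      constructor <;> intro _ <;> linarith
    rw [e1, e2] at h
    exact h
  · intro i
    fin_cases i
    · exact convexOn_coord 0 _ _
    · exact convexOn_coord 1 _ _
    · exact convexOn_coord 1 _ _
    · exact convexOn_rho.add (convexOn_const _ convex_univ)
  · intro i
    have := continuous_rho
    fin_cases i
    · change Continuous fun p : E 4 => 1 * p 0 + 0
      fun_prop
    · change Continuous fun p : E 4 => (-1) * p 1 + (-6)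
      fun_prop
    · change Continuous fun p : E 4 => 1 * p 1 + (-6)
      fun_prop
    · change Continuous fun p : E 4 => rho p + (-6)
      fun_prop
  · refine ⟨WithLp.toLp 2 ![-1, 0, 0, 0], ?_⟩
    have h0 : rho (WithLp.toLp 2 ![-1, 0, 0, 0]) = 1 := by
      apply rho_eq zero_le_one
      simp
    simp only [mem_ofPred_eq, Fin.forall_fin_succ]
    refine ⟨?_, ?_, ?_, ?_, ?_⟩
    · change 1 * (-1 : ℝ) + 0 < 0
      norm_num
    · change (-1) * (0 : ℝ) + (-6) < 0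
      norm_num
    · change 1 * (0 : ℝ) + (-6) < 0
      norm_num
    · change rho (WithLp.toLp 2 ![-1, 0, 0, 0]) + (-6) < 0
      rw [h0]; norm_num
    · exact fun i => i.elim0
  · apply isBounded_of (R := 6)
    intro p hp
    have h1 := hp 1
    have h2 := hp 2
    have h3 := hp 3
    change (-1) * p 1 + (-6) < 0 at h1
    change 1 * p 1 + (-6) < 0 at h2
    change rho p + (-6) < 0 at h3
    refine ⟨?_, by linarith⟩
    rw [abs_le]; constructor <;> linarith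

/-- The four bodies. -/
def CB : Fin 4 → Set (E 4) :=
  ![{p : E 4 | p 0 < 0 ∧ p ∈ Cyl (-6) 6 6}, Cyl (-5) 0 4, Cyl (-2) 2 2, Cyl (-1) 1 3]

lemma CB_isBody (i : Fin 4) : IsBody (CB i) := by
  fin_cases i
  · exact tx_body.1
  · exact (cyl_body (by norm_num) (by norm_num)).1
  · exact (cyl_body (by norm_num) (by norm_num)).1
  · exact (cyl_body (by norm_num) (by norm_num)).1

/-- The four surfaces. -/
def CV (i : Fin 4) : Set (E 4) := frontier (CB i)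

lemma mem_CV0 {p : E 4} : p ∈ CV 0 ↔ (p 0 ≤ 0 ∧ -6 ≤ p 1 ∧ p 1 ≤ 6 ∧ rho p ≤ 6) ∧
    ¬ (p 0 < 0 ∧ -6 < p 1 ∧ p 1 < 6 ∧ rho p < 6) := by
  rw [CV, frontier, (CB_isBody 0).isOpen.interior_eq]
  change p ∈ closure {p : E 4 | p 0 < 0 ∧ p ∈ Cyl (-6) 6 6} ∧ ¬ _ ↔ _
  rw [tx_body.2]
  rfl

lemma mem_frontier_Cyl {a b r : ℝ} (hab : a < b) (hr : 0 < r) {p : E 4} :
    p ∈ frontier (Cyl a b r) ↔ (a ≤ p 1 ∧ p 1 ≤ b ∧ rho p ≤ r) ∧
      ¬ (a < p 1 ∧ p 1 < b ∧ rho p < r) := by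
  rw [frontier, (cyl_body hab hr).1.isOpen.interior_eq, (cyl_body hab hr).2]
  rfl

lemma mem_CV1 {p : E 4} : p ∈ CV 1 ↔ (-5 ≤ p 1 ∧ p 1 ≤ 0 ∧ rho p ≤ 4) ∧
      ¬ (-5 < p 1 ∧ p 1 < 0 ∧ rho p < 4) :=
  mem_frontier_Cyl (by norm_num) (by norm_num)

lemma mem_CV2 {p : E 4} : p ∈ CV 2 ↔ (-2 ≤ p 1 ∧ p 1 ≤ 2 ∧ rho p ≤ 2) ∧
      ¬ (-2 < p 1 ∧ p 1 < 2 ∧ rho p < 2) :=
  mem_frontier_Cyl (by norm_num) (by norm_num)

lemma mem_CV3 {p : E 4} : p ∈ CV 3 ↔ (-1 ≤ p 1 ∧ p 1 ≤ 1 ∧ rho p ≤ 3) ∧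
      ¬ (-1 < p 1 ∧ p 1 < 1 ∧ rho p < 3) :=
  mem_frontier_Cyl (by norm_num) (by norm_num)

/-- Planar description of a side of a cylinder. -/
def PS (a b r : ℝ) (t : Fin 2) : Set (ℝ × ℝ) :=
  {w | (t = 0 → a < w.1 ∧ w.1 < b ∧ w.2 < r) ∧ (t = 1 → ¬ (a ≤ w.1 ∧ w.1 ≤ b ∧ w.2 ≤ r))}

lemma mem_side_of {B C : Set (E 4)} (hB : IsBody B) (hC : closure B = C) {t : Fin 2} {p : E 4} :
    p ∈ side (frontier B) t ↔ (t = 0 → p ∈ B) ∧ (t = 1 → p ∉ C) := by
  rcases fin2_cases t with rfl | rfl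
  · rw [side, if_pos rfl, hB.inside_eq rank4]
    simp
  · rw [side, if_neg (by decide), hB.outside_eq rank4, hC]
    simp

lemma mem_side_Cyl {a b r : ℝ} (hab : a < b) (hr : 0 < r) {t : Fin 2} {p : E 4} :
    p ∈ side (frontier (Cyl a b r)) t ↔ (p 1, rho p) ∈ PS a b r t := by
  rw [mem_side_of (cyl_body hab hr).1 (cyl_body hab hr).2]
  rfl

lemma mem_side1 {t : Fin 2} {p : E 4} : p ∈ side (CV 1) t ↔ (p 1, rho p) ∈ PS (-5) 0 4 t :=
  mem_side_Cyl (by norm_num) (by norm_num)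

lemma mem_side2 {t : Fin 2} {p : E 4} : p ∈ side (CV 2) t ↔ (p 1, rho p) ∈ PS (-2) 2 2 t :=
  mem_side_Cyl (by norm_num) (by norm_num)

lemma mem_side3 {t : Fin 2} {p : E 4} : p ∈ side (CV 3) t ↔ (p 1, rho p) ∈ PS (-1) 1 3 t :=
  mem_side_Cyl (by norm_num) (by norm_num)

lemma mem_side0 {t : Fin 2} {p : E 4} : p ∈ side (CV 0) t ↔
    (t = 0 → p 0 < 0 ∧ -6 < p 1 ∧ p 1 < 6 ∧ rho p < 6) ∧
    (t = 1 → ¬ (p 0 ≤ 0 ∧ -6 ≤ p 1 ∧ p 1 ≤ 6 ∧ rho p ≤ 6)) := by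
  have h := mem_side_of tx_body.1 tx_body.2 (t := t) (p := p)
  exact h

end Pool.Agent.H11.Venn
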