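import Pool.Agent.H11.Venn.Cyl1

/-!
# The cylindrical diagram: lifting planar sets
-/

open Set Metric Bornology Topology

namespace Pool.Agent.H11.Venn

/-- The set of points with `s * p 0 > 0` whose planar coordinates lie in `A`. -/
def lift (s : ℝ) (A : Set (ℝ × ℝ)) : Set (E 4) := {p | 0 < s * p 0 ∧ (p 1, rho p) ∈ A}

/-- The set of points with `p 0 = 0` whose planar coordinates lie in `A`. -/
def flat (A : Set (ℝ × ℝ)) : Set (E 4) := {p | p 0 = 0 ∧ (p 1, rho p) ∈ A}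

/-- parametrisation -/
noncomputable def par (s : ℝ) (w : (ℝ × ℝ) × (ℝ × ℝ)) : E 4 :=
  WithLp.toLp 2 ![s * w.2.2 / Real.sqrt (1 + w.1.1 ^ 2 + w.1.2 ^ 2), w.2.1,
    w.1.1 * (s * w.2.2 / Real.sqrt (1 + w.1.1 ^ 2 + w.1.2 ^ 2)),
    w.1.2 * (s * w.2.2 / Real.sqrt (1 + w.1.1 ^ 2 + w.1.2 ^ 2))]

lemma sq_pos' (w : (ℝ × ℝ) × (ℝ × ℝ)) : 0 < 1 + w.1.1 ^ 2 + w.1.2 ^ 2 := by positivity

lemma continuous_par (s : ℝ) : Continuous (par s) := by
  have h : ∀ w : (ℝ × ℝ) × (ℝ × ℝ), Real.sqrt (1 + w.1.1 ^ 2 + w.1.2 ^ 2) ≠ 0 :=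
    fun w => (Real.sqrt_pos.2 (sq_pos' w)).ne'
  have hx : Continuous fun w : (ℝ × ℝ) × (ℝ × ℝ) =>
      s * w.2.2 / Real.sqrt (1 + w.1.1 ^ 2 + w.1.2 ^ 2) := by
    refine Continuous.div (by fun_prop) (by fun_prop) h
  unfold par
  refine (PiLp.continuous_toLp 2 _).comp ?_
  refine continuous_pi fun i => ?_
  fin_cases i
  · exact hx
  · change Continuous fun w : (ℝ × ℝ) × (ℝ × ℝ) => w.2.1
    fun_prop
  · exact (by fun_prop : Continuous fun w : (ℝ × ℝ) × (ℝ × ℝ) => w.1.1).mul hx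
  · exact (by fun_prop : Continuous fun w : (ℝ × ℝ) × (ℝ × ℝ) => w.1.2).mul hx

lemma par_rho {s : ℝ} (hs : s ^ 2 = 1) {w : (ℝ × ℝ) × (ℝ × ℝ)} (hw : 0 ≤ w.2.2) :
    rho (par s w) = w.2.2 := by
  apply rho_eq hw
  have h1 := Real.sq_sqrt (sq_pos' w).le
  have h2 := Real.sqrt_pos.2 (sq_pos' w)
  set q := Real.sqrt (1 + w.1.1 ^ 2 + w.1.2 ^ 2) with hq
  change w.2.2 ^ 2 = (s * w.2.2 / q) ^ 2 + (w.1.1 * (s * w.2.2 / q)) ^ 2 +
    (w.1.2 * (s * w.2.2 / q)) ^ 2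
  field_simp
  have h3 : (s * w.2.2) ^ 2 = w.2.2 ^ 2 := by rw [mul_pow, hs, one_mul]
  linear_combination (w.2.2 ^ 2) * h1 - (1 + w.1.1 ^ 2 + w.1.2 ^ 2) * w.2.2 ^ 2 * hs

lemma homeo_lift {s : ℝ} (hs : s ^ 2 = 1) (A : Set (ℝ × ℝ)) :
    Nonempty (lift s A ≃ₜ ((univ : Set (ℝ × ℝ)) ×ˢ {w | w ∈ A ∧ 0 < w.2} :
      Set ((ℝ × ℝ) × (ℝ × ℝ)))) := by
  have hrho := continuous_rho
  refine ⟨homeoOn (fun p => ((p 2 / p 0, p 3 / p 0), (p 1, rho p))) (par s) ?_ ?_ ?_ ?_ ?_ ?_⟩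
  · rintro p ⟨h1, h2⟩
    refine ⟨mem_univ _, h2, ?_⟩
    have h3 : p 0 ≠ 0 := by rintro h; rw [h, mul_zero] at h1; exact lt_irrefl _ h1
    have h4 := abs_le_rho p
    have h5 := abs_pos.2 h3
    exact lt_of_lt_of_le h5 h4
  · rintro w ⟨-, h1, h2⟩
    have h3 := Real.sqrt_pos.2 (sq_pos' w)
    refine ⟨?_, ?_⟩
    · change 0 < s * (s * w.2.2 / Real.sqrt (1 + w.1.1 ^ 2 + w.1.2 ^ 2))
      have : s * (s * w.2.2 / Real.sqrt (1 + w.1.1 ^ 2 + w.1.2 ^ 2)) =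
        s ^ 2 * w.2.2 / Real.sqrt (1 + w.1.1 ^ 2 + w.1.2 ^ 2) := by ring
      rw [this, hs, one_mul]
      exact div_pos h2 h3
    · rw [par_rho hs h2.le]
      exact h1
  · rintro p ⟨h1, h2⟩
    have h3 : p 0 ≠ 0 := by rintro h; rw [h, mul_zero] at h1; exact lt_irrefl _ h1
    have h4 : Real.sqrt (1 + (p 2 / p 0) ^ 2 + (p 3 / p 0) ^ 2) = s * rho p / p 0 := by
      have h5 : 1 + (p 2 / p 0) ^ 2 + (p 3 / p 0) ^ 2 = (s * rho p / p 0) ^ 2 := by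
        have h9 : (s * rho p / p 0) ^ 2 = (p 0 ^ 2 + p 2 ^ 2 + p 3 ^ 2) / p 0 ^ 2 := by
          rw [div_pow, mul_pow, hs, rho_sq, one_mul]
        rw [h9]
        field_simp
      have h6 : 0 ≤ s * rho p / p 0 := by
        have : s * rho p / p 0 = (s * p 0) * rho p / p 0 ^ 2 := by
          field_simp
        rw [this]
        have := rho_nonneg p
        positivity
      rw [h5, Real.sqrt_sq h6]
    have h6 : s ≠ 0 := by rintro rfl; norm_num at hs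
    have h7 : rho p ≠ 0 := by
      have := abs_le_rho p
      have := abs_pos.2 h3
      linarith
    have h8 : s * rho p / Real.sqrt (1 + (p 2 / p 0) ^ 2 + (p 3 / p 0) ^ 2) = p 0 := by
      rw [h4]
      field_simp
    ext i
    fin_cases i
    · exact h8
    · rfl
    · change p 2 / p 0 * (s * rho p / Real.sqrt (1 + (p 2 / p 0) ^ 2 + (p 3 / p 0) ^ 2)) = p 2
      rw [h8]
      field_simp
    · change p 3 / p 0 * (s * rho p / Real.sqrt (1 + (p 2 / p 0) ^ 2 + (p 3 / p 0) ^ 2)) = p 3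
      rw [h8]
      field_simp
  · rintro w ⟨-, h1, h2⟩
    have h3 := Real.sqrt_pos.2 (sq_pos' w)
    have h6 : s ≠ 0 := by rintro rfl; norm_num at hs
    have h4 : s * w.2.2 / Real.sqrt (1 + w.1.1 ^ 2 + w.1.2 ^ 2) ≠ 0 :=
      (div_ne_zero (mul_ne_zero h6 h2.ne') h3.ne')
    have e0 : (par s w) 0 = s * w.2.2 / Real.sqrt (1 + w.1.1 ^ 2 + w.1.2 ^ 2) := rfl
    have e1 : (par s w) 1 = w.2.1 := rfl
    have e2 : (par s w) 2 = w.1.1 * (s * w.2.2 / Real.sqrt (1 + w.1.1 ^ 2 + w.1.2 ^ 2)) := rfl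
    have e3 : (par s w) 3 = w.1.2 * (s * w.2.2 / Real.sqrt (1 + w.1.1 ^ 2 + w.1.2 ^ 2)) := rfl
    simp only [par_rho hs h2.le, e0, e1, e2, e3]
    rw [mul_div_cancel_right₀ _ h4, mul_div_cancel_right₀ _ h4]
  · have hne : ∀ p ∈ lift s A, p 0 ≠ 0 := by
      rintro p ⟨h1, h2⟩ h
      rw [h, mul_zero] at h1; exact lt_irrefl _ h1
    have c : ∀ i : Fin 4, Continuous fun p : E 4 => p i := fun i => by fun_prop
    exact (((c 2).continuousOn.div (c 0).continuousOn hne).prodMk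
      ((c 3).continuousOn.div (c 0).continuousOn hne)).prodMk
      ((c 1).continuousOn.prodMk hrho.continuousOn)
  · exact (continuous_par s).continuousOn

/-- Lift of a planar cell. -/
lemma homeo_lift_of {s : ℝ} (hs : s ^ 2 = 1) {A : Set (ℝ × ℝ)}
    (h : Nonempty ({w : ℝ × ℝ | w ∈ A ∧ 0 < w.2} ≃ₜ (ℝ × ℝ))) : Nonempty (lift s A ≃ₜ E 4) := by
  obtain ⟨e1⟩ := homeo_lift hs A
  obtain ⟨e2⟩ := h
  have hfr : Module.finrank ℝ ((ℝ × ℝ) × (ℝ × ℝ)) = Module.finrank ℝ (E 4) := by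
    rw [finrank_euclideanSpace_fin]
    simp [Module.finrank_prod]
  let e3 : ((ℝ × ℝ) × (ℝ × ℝ)) ≃L[ℝ] E 4 := ContinuousLinearEquiv.ofFinrankEq hfr
  let e4 : ((univ : Set (ℝ × ℝ)) ×ˢ {w | w ∈ A ∧ 0 < w.2} : Set ((ℝ × ℝ) × (ℝ × ℝ))) ≃ₜ
      (↥(univ : Set (ℝ × ℝ))) × {w : ℝ × ℝ | w ∈ A ∧ 0 < w.2} := Homeomorph.Set.prod _ _
  exact ⟨((e1.trans e4).trans ((Homeomorph.Set.univ _).prodCongr e2)).trans e3.toHomeomorph⟩

lemma isPreconnected_lift {s : ℝ} (hs : s ^ 2 = 1) {A : Set (ℝ × ℝ)}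
    (h : IsPreconnected {w : ℝ × ℝ | w ∈ A ∧ 0 < w.2}) : IsPreconnected (lift s A) := by
  obtain ⟨e1⟩ := homeo_lift hs A
  have h1 : IsPreconnected ((univ : Set (ℝ × ℝ)) ×ˢ {w : ℝ × ℝ | w ∈ A ∧ 0 < w.2} :
      Set ((ℝ × ℝ) × (ℝ × ℝ))) := isPreconnected_univ.prod h
  have h2 : PreconnectedSpace ((univ : Set (ℝ × ℝ)) ×ˢ {w : ℝ × ℝ | w ∈ A ∧ 0 < w.2} :
      Set ((ℝ × ℝ) × (ℝ × ℝ))) := Subtype.preconnectedSpace h1
  have h3 : lift s A = range (fun x => ((e1.symm x : lift s A) : E 4)) := by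
    ext p
    constructor
    · intro hp
      exact ⟨e1 ⟨p, hp⟩, by simp⟩
    · rintro ⟨x, rfl⟩
      exact (e1.symm x).2
  rw [h3]
  exact isPreconnected_range (continuous_subtype_val.comp e1.symm.continuous)

lemma lift_nonempty {s : ℝ} (hs : s ^ 2 = 1) {A : Set (ℝ × ℝ)} {w : ℝ × ℝ} (hw : w ∈ A)
    (hw2 : 0 < w.2) : (lift s A).Nonempty := by
  obtain ⟨e1⟩ := homeo_lift hs A
  exact ⟨_, (e1.symm ⟨(0, w), mem_univ _, hw, hw2⟩).2⟩

lemma lift_empty {s : ℝ} {A : Set (ℝ × ℝ)} (h : ∀ w ∈ A, ¬ 0 < w.2) : lift s A = ∅ := by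
  rw [eq_empty_iff_forall_notMem]
  rintro p ⟨h1, h2⟩
  apply h _ h2
  have h3 : p 0 ≠ 0 := by rintro h; rw [h, mul_zero] at h1; exact lt_irrefl _ h1
  have h4 := abs_le_rho p
  have h5 := abs_pos.2 h3
  exact lt_of_lt_of_le h5 h4

/-- parametrisation of the flat part -/
noncomputable def parf (w : E 2 × (ℝ × ℝ)) : E 4 :=
  WithLp.toLp 2 ![0, w.2.1, w.2.2 * w.1 0, w.2.2 * w.1 1]

lemma continuous_parf : Continuous parf := by
  unfold parf
  refine (PiLp.continuous_toLp 2 _).comp ?_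
  refine continuous_pi fun i => ?_
  fin_cases i
  · exact continuous_const
  · change Continuous fun w : E 2 × (ℝ × ℝ) => w.2.1
    fun_prop
  · change Continuous fun w : E 2 × (ℝ × ℝ) => w.2.2 * w.1 0
    fun_prop
  · change Continuous fun w : E 2 × (ℝ × ℝ) => w.2.2 * w.1 1
    fun_prop

lemma flat_eq (A : Set (ℝ × ℝ)) :
    flat A = parf '' ((sphere (0 : E 2) 1) ×ˢ {w : ℝ × ℝ | w ∈ A ∧ 0 ≤ w.2}) := by
  ext p
  constructor
  · rintro ⟨h1, h2⟩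
    have h3 := rho_sq p
    rw [h1] at h3
    rcases (rho_nonneg p).eq_or_lt with h4 | h4
    · refine ⟨(EuclideanSpace.single 0 1, (p 1, rho p)), ⟨?_, h2, rho_nonneg p⟩, ?_⟩
      · simp
      · rw [← h4] at h3 ⊢
        have h5 : p 2 = 0 := by nlinarith [sq_nonneg (p 2), sq_nonneg (p 3)]
        have h6 : p 3 = 0 := by nlinarith [sq_nonneg (p 2), sq_nonneg (p 3)]
        ext i
        fin_cases i
        · exact h1.symm
        · rfl
        · change (0 : ℝ) * _ = p 2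
          rw [h5, zero_mul]
        · change (0 : ℝ) * _ = p 3
          rw [h6, zero_mul]
    · refine ⟨(WithLp.toLp 2 ![p 2 / rho p, p 3 / rho p], (p 1, rho p)),
        ⟨?_, h2, rho_nonneg p⟩, ?_⟩
      · rw [mem_sphere_zero_iff_norm]
        have h7 : ‖(WithLp.toLp 2 ![p 2 / rho p, p 3 / rho p] : E 2)‖ ^ 2 = 1 := by
          rw [EuclideanSpace.norm_sq_eq, Fin.sum_univ_two]
          simp only [Real.norm_eq_abs, sq_abs]
          change (p 2 / rho p) ^ 2 + (p 3 / rho p) ^ 2 = 1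
          field_simp
          rw [h3]; ring
        have h8 : ‖(WithLp.toLp 2 ![p 2 / rho p, p 3 / rho p] : E 2)‖ ^ 2 = 1 ^ 2 := by
          rw [h7]; norm_num
        exact (sq_eq_sq₀ (norm_nonneg _) zero_le_one).1 h8
      · ext i
        fin_cases i
        · exact h1.symm
        · rfl
        · change rho p * (p 2 / rho p) = p 2
          field_simp
        · change rho p * (p 3 / rho p) = p 3
          field_simp
  · rintro ⟨⟨u, w⟩, ⟨hu, hw, hw2⟩, rfl⟩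
    simp only at hu hw hw2
    rw [mem_sphere_zero_iff_norm] at hu
    have h1 : (u 0) ^ 2 + (u 1) ^ 2 = 1 := by
      have := EuclideanSpace.norm_sq_eq u
      rw [hu, Fin.sum_univ_two] at this
      simp only [Real.norm_eq_abs, sq_abs] at this
      linarith
    have h2 : rho (parf (u, w)) = w.2 := by
      apply rho_eq hw2
      change w.2 ^ 2 = (0 : ℝ) ^ 2 + (w.2 * u 0) ^ 2 + (w.2 * u 1) ^ 2
      linear_combination - (w.2 ^ 2) * h1
    refine ⟨rfl, ?_⟩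
    rw [h2]
    exact hw

lemma isPreconnected_flat {A : Set (ℝ × ℝ)}
    (h : IsPreconnected {w : ℝ × ℝ | w ∈ A ∧ 0 ≤ w.2}) : IsPreconnected (flat A) := by
  have hr : 1 < Module.rank ℝ (E 2) := by
    rw [← Module.finrank_eq_rank, finrank_euclideanSpace_fin]
    norm_num
  rw [flat_eq]
  exact ((isPreconnected_sphere hr 0 1).prod h).image _ continuous_parf.continuousOn

lemma flat_nonempty {A : Set (ℝ × ℝ)} {w : ℝ × ℝ} (hw : w ∈ A) (hw2 : 0 ≤ w.2) :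
    (flat A).Nonempty := by
  rw [flat_eq]
  have h1 : (EuclideanSpace.single 0 1 : E 2) ∈ sphere (0 : E 2) 1 := by simp
  exact ⟨_, mem_image_of_mem _ (mk_mem_prod h1 (⟨hw, hw2⟩ : w ∈ {w : ℝ × ℝ | w ∈ A ∧ 0 ≤ w.2}))⟩

end Pool.Agent.H11.Venn
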