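import Pool.Agent.H11.Venn.Cyl2

/-!
# The cylindrical diagram: planar sets
-/

open Set Metric Bornology Topology

namespace Pool.Agent.H11.Venn

/-- The planar region with pattern `a b c` with respect to the three cylinders. -/
def D (a b c : Fin 2) : Set (ℝ × ℝ) := PS (-5) 0 4 a ∩ PS (-2) 2 2 b ∩ PS (-1) 1 3 c

lemma mem_D {a b c : Fin 2} {w : ℝ × ℝ} : w ∈ D a b c ↔
    ((a = 0 → -5 < w.1 ∧ w.1 < 0 ∧ w.2 < 4) ∧ (a = 1 → ¬ (-5 ≤ w.1 ∧ w.1 ≤ 0 ∧ w.2 ≤ 4))) ∧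
    ((b = 0 → -2 < w.1 ∧ w.1 < 2 ∧ w.2 < 2) ∧ (b = 1 → ¬ (-2 ≤ w.1 ∧ w.1 ≤ 2 ∧ w.2 ≤ 2))) ∧
    ((c = 0 → -1 < w.1 ∧ w.1 < 1 ∧ w.2 < 3) ∧ (c = 1 → ¬ (-1 ≤ w.1 ∧ w.1 ≤ 1 ∧ w.2 ≤ 3))) := by
  unfold D PS
  simp only [mem_inter_iff, mem_ofPred_eq]
  tauto

lemma D_subset {a b c : Fin 2} (h : ¬ (a = 1 ∧ b = 1 ∧ c = 1)) {w : ℝ × ℝ} (hw : w ∈ D a b c) :
    -6 < w.1 ∧ w.1 < 6 ∧ w.2 < 6 := by
  rw [mem_D] at hw
  rcases fin2_cases a with rfl | rfl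
  · obtain ⟨h1, h2, h3⟩ := hw.1.1 rfl
    exact ⟨by linarith, by linarith, by linarith⟩
  rcases fin2_cases b with rfl | rfl
  · obtain ⟨h1, h2, h3⟩ := hw.2.1.1 rfl
    exact ⟨by linarith, by linarith, by linarith⟩
  rcases fin2_cases c with rfl | rfl
  · obtain ⟨h1, h2, h3⟩ := hw.2.2.1 rfl
    exact ⟨by linarith, by linarith, by linarith⟩
  exact absurd ⟨rfl, rfl, rfl⟩ h

lemma D000 {w : ℝ × ℝ} : w ∈ D 0 0 0 ↔ -1 < w.1 ∧ w.1 < 0 ∧ w.2 < 2 := by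
  rw [mem_D]
  simp only [true_imp_iff, zero_ne_one, false_imp_iff, and_true]
  constructor
  · rintro ⟨⟨h1, h2, h3⟩, ⟨h4, h5, h6⟩, h7, h8, h9⟩
    exact ⟨h7, h2, h6⟩
  · rintro ⟨h1, h2, h3⟩
    refine ⟨⟨?_, ?_, ?_⟩, ⟨?_, ?_, ?_⟩, ?_, ?_, ?_⟩ <;> linarith

lemma D001 {w : ℝ × ℝ} : w ∈ D 0 0 1 ↔ -2 < w.1 ∧ w.1 < -1 ∧ w.2 < 2 := by
  rw [mem_D]
  simp only [true_imp_iff, zero_ne_one, one_ne_zero, false_imp_iff, and_true, true_and]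
  constructor
  · rintro ⟨⟨h1, h2, h3⟩, ⟨h4, h5, h6⟩, h7⟩
    refine ⟨h4, ?_, h6⟩
    by_contra h
    exact h7 ⟨by linarith, by linarith, by linarith⟩
  · rintro ⟨h1, h2, h3⟩
    refine ⟨⟨?_, ?_, ?_⟩, ⟨?_, ?_, ?_⟩, ?_⟩
    any_goals linarith
    rintro ⟨h4, h5, h6⟩
    linarith

lemma D010 {w : ℝ × ℝ} : w ∈ D 0 1 0 ↔ -1 < w.1 ∧ w.1 < 0 ∧ 2 < w.2 ∧ w.2 < 3 := by
  rw [mem_D]
  simp only [true_imp_iff, zero_ne_one, one_ne_zero, false_imp_iff, and_true, true_and]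
  constructor
  · rintro ⟨⟨h1, h2, h3⟩, h4, h5, h6, h7⟩
    refine ⟨h5, h2, ?_, h7⟩
    by_contra h
    exact h4 ⟨by linarith, by linarith, by linarith⟩
  · rintro ⟨h1, h2, h3, h4⟩
    refine ⟨⟨?_, ?_, ?_⟩, ?_, ?_, ?_, ?_⟩
    any_goals linarith
    rintro ⟨h4, h5, h6⟩
    linarith

lemma D011 {w : ℝ × ℝ} : w ∈ D 0 1 1 ↔ (-5 < w.1 ∧ w.1 < 0 ∧ w.2 < 4) ∧
    (w.1 < -2 ∨ 2 < w.2) ∧ (w.1 < -1 ∨ 3 < w.2) := by
  rw [mem_D]
  simp only [true_imp_iff, zero_ne_one, one_ne_zero, false_imp_iff, and_true, true_and]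
  constructor
  · rintro ⟨⟨h1, h2, h3⟩, h4, h5⟩
    refine ⟨⟨h1, h2, h3⟩, ?_, ?_⟩
    · by_contra h
      push Not at h
      exact h4 ⟨by linarith, by linarith, by linarith⟩
    · by_contra h
      push Not at h
      exact h5 ⟨by linarith, by linarith, by linarith⟩
  · rintro ⟨⟨h1, h2, h3⟩, h4, h5⟩
    refine ⟨⟨h1, h2, h3⟩, ?_, ?_⟩
    · rintro ⟨h6, h7, h8⟩
      rcases h4 with h | h <;> linarith
    · rintro ⟨h6, h7, h8⟩
      rcases h5 with h | h <;> linarith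

lemma D100 {w : ℝ × ℝ} : w ∈ D 1 0 0 ↔ 0 < w.1 ∧ w.1 < 1 ∧ w.2 < 2 := by
  rw [mem_D]
  simp only [true_imp_iff, zero_ne_one, one_ne_zero, false_imp_iff, and_true, true_and]
  constructor
  · rintro ⟨h7, ⟨h1, h2, h3⟩, ⟨h4, h5, h6⟩⟩
    refine ⟨?_, h5, h3⟩
    by_contra h
    exact h7 ⟨by linarith, by linarith, by linarith⟩
  · rintro ⟨h1, h2, h3⟩
    refine ⟨?_, ⟨?_, ?_, ?_⟩, ?_, ?_, ?_⟩
    any_goals linarith
    rintro ⟨h4, h5, h6⟩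
    linarith

lemma D101 {w : ℝ × ℝ} : w ∈ D 1 0 1 ↔ 1 < w.1 ∧ w.1 < 2 ∧ w.2 < 2 := by
  rw [mem_D]
  simp only [true_imp_iff, zero_ne_one, one_ne_zero, false_imp_iff, and_true, true_and]
  constructor
  · rintro ⟨h7, ⟨h1, h2, h3⟩, h4⟩
    refine ⟨?_, h2, h3⟩
    by_contra h
    have : 0 < w.1 := by
      by_contra h'
      exact h7 ⟨by linarith, by linarith, by linarith⟩
    exact h4 ⟨by linarith, by linarith, by linarith⟩
  · rintro ⟨h1, h2, h3⟩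
    refine ⟨?_, ⟨?_, ?_, ?_⟩, ?_⟩
    any_goals linarith
    all_goals
      rintro ⟨h4, h5, h6⟩
      linarith

lemma D110 {w : ℝ × ℝ} : w ∈ D 1 1 0 ↔ 0 < w.1 ∧ w.1 < 1 ∧ 2 < w.2 ∧ w.2 < 3 := by
  rw [mem_D]
  simp only [true_imp_iff, zero_ne_one, one_ne_zero, false_imp_iff, and_true, true_and]
  constructor
  · rintro ⟨h1, h2, h3, h4, h5⟩
    have h6 : 2 < w.2 := by
      by_contra h'
      exact h2 ⟨by linarith, by linarith, by linarith⟩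
    refine ⟨?_, h4, h6, h5⟩
    by_contra h
    exact h1 ⟨by linarith, by linarith, by linarith⟩
  · rintro ⟨h1, h2, h3, h4⟩
    refine ⟨?_, ?_, ?_, ?_, ?_⟩
    any_goals linarith
    all_goals
      rintro ⟨h4, h5, h6⟩
      linarith

/-- An open rectangle is homeomorphic to the plane. -/
lemma homeo_rect {A : Set (ℝ × ℝ)} (a b c d : ℝ) (hab : a < b) (hcd : c < d)
    (h : A = Ioo a b ×ˢ Ioo c d) : Nonempty (A ≃ₜ (ℝ × ℝ)) := by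
  rw [h]
  exact nonempty_homeo_of_convex (isOpen_Ioo.prod isOpen_Ioo)
    ((convex_Ioo a b).prod (convex_Ioo c d)) ((nonempty_Ioo.2 hab).prod (nonempty_Ioo.2 hcd))
    ((isBounded_Ioo a b).prod (isBounded_Ioo c d))

/-- lower boundary of the staircase -/
noncomputable def sA (δ : ℝ) : ℝ := max (max |δ| (min (4 - δ) (4 + δ))) (min (2 - δ) (6 + δ))

/-- upper boundary of the staircase -/
noncomputable def sB (δ : ℝ) : ℝ := min (10 - δ) (8 + δ)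

lemma stair_iff {w : ℝ × ℝ} : (w ∈ D 0 1 1 ∧ 0 < w.2) ↔
    sA (-w.1 - w.2) < -w.1 + w.2 ∧ -w.1 + w.2 < sB (-w.1 - w.2) := by
  rw [D011]
  unfold sA sB
  simp only [max_lt_iff, lt_min_iff, min_lt_iff, abs_lt]
  constructor
  · rintro ⟨⟨⟨h1, h2, h3⟩, h4, h5⟩, h6⟩
    refine ⟨⟨⟨⟨by linarith, by linarith⟩, ?_⟩, ?_⟩, by linarith, by linarith⟩
    · rcases h4 with h | h
      · left; linarith
      · right; linarith
    · rcases h5 with h | h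
      · left; linarith
      · right; linarith
  · rintro ⟨⟨⟨⟨h1, h2⟩, h3⟩, h4⟩, h5, h6⟩
    refine ⟨⟨⟨by linarith, by linarith, by linarith⟩, ?_, ?_⟩, by linarith⟩
    · rcases h3 with h | h
      · left; linarith
      · right; linarith
    · rcases h4 with h | h
      · left; linarith
      · right; linarith

lemma sA_lt_sB {δ : ℝ} (h : δ ∈ Ioo (-4 : ℝ) 5) : sA δ < sB δ := by
  obtain ⟨h1, h2⟩ := h
  unfold sA sB
  simp only [max_lt_iff, lt_min_iff, min_lt_iff, abs_lt]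
  refine ⟨⟨⟨⟨by linarith, by linarith⟩, ?_⟩, ?_⟩, ⟨⟨by linarith, by linarith⟩, ?_⟩, ?_⟩
  · left; linarith
  · left; linarith
  · right; linarith
  · right; linarith

lemma mem_of_sA_lt_sB {δ : ℝ} (h : sA δ < sB δ) : δ ∈ Ioo (-4 : ℝ) 5 := by
  unfold sA sB at h
  simp only [max_lt_iff, lt_min_iff, abs_lt] at h
  obtain ⟨⟨⟨⟨h1, h2⟩, h3⟩, h4⟩, ⟨⟨h5, h6⟩, h7⟩, h8⟩ := h
  constructor <;> linarith

lemma continuous_sA : Continuous sA := by unfold sA; fun_prop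

lemma continuous_sB : Continuous sB := by unfold sB; fun_prop

lemma homeo_stair : Nonempty ({w : ℝ × ℝ | w ∈ D 0 1 1 ∧ 0 < w.2} ≃ₜ (ℝ × ℝ)) := by
  obtain ⟨e2⟩ := homeo_rect (A := Ioo (-4 : ℝ) 5 ×ˢ Ioo (0 : ℝ) 1) (-4) 5 0 1 (by norm_num)
    (by norm_num) rfl
  have cA := continuous_sA
  have cB := continuous_sB
  refine ⟨Homeomorph.trans (homeoOn (fun w => (-w.1 - w.2,
      (-w.1 + w.2 - sA (-w.1 - w.2)) / (sB (-w.1 - w.2) - sA (-w.1 - w.2))))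
    (fun v => (-(sA v.1 + v.2 * (sB v.1 - sA v.1) + v.1) / 2,
      (sA v.1 + v.2 * (sB v.1 - sA v.1) - v.1) / 2)) ?_ ?_ ?_ ?_ ?_ ?_) e2⟩
  · intro w hw
    have h := stair_iff.1 hw
    have hδ := mem_of_sA_lt_sB (h.1.trans h.2)
    have h1 : 0 < sB (-w.1 - w.2) - sA (-w.1 - w.2) := by linarith [h.1, h.2]
    refine ⟨hδ, ?_, ?_⟩
    · exact div_pos (by linarith [h.1]) h1
    · change _ / _ < (1 : ℝ)
      rw [div_lt_one h1]
      linarith [h.2]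
  · rintro v ⟨hv1, hv2⟩
    have h1 := sA_lt_sB hv1
    obtain ⟨h2, h3⟩ := hv2
    apply stair_iff.2
    have e1 : -(-(sA v.1 + v.2 * (sB v.1 - sA v.1) + v.1) / 2) -
      (sA v.1 + v.2 * (sB v.1 - sA v.1) - v.1) / 2 = v.1 := by ring
    have e2 : -(-(sA v.1 + v.2 * (sB v.1 - sA v.1) + v.1) / 2) +
      (sA v.1 + v.2 * (sB v.1 - sA v.1) - v.1) / 2 = sA v.1 + v.2 * (sB v.1 - sA v.1) := by ring
    simp only
    rw [e1, e2]
    constructor <;> nlinarith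
  · intro w hw
    have h := stair_iff.1 hw
    have h1 : sB (-w.1 - w.2) - sA (-w.1 - w.2) ≠ 0 := by
      have : 0 < sB (-w.1 - w.2) - sA (-w.1 - w.2) := by linarith [h.1, h.2]
      exact this.ne'
    simp only
    rw [div_mul_cancel₀ _ h1]
    ext
    · simp only; ring
    · simp only; ring
  · rintro v ⟨hv1, hv2⟩
    have h1 := sA_lt_sB hv1
    have e1 : -(-(sA v.1 + v.2 * (sB v.1 - sA v.1) + v.1) / 2) -
      (sA v.1 + v.2 * (sB v.1 - sA v.1) - v.1) / 2 = v.1 := by ring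
    have e2 : -(-(sA v.1 + v.2 * (sB v.1 - sA v.1) + v.1) / 2) +
      (sA v.1 + v.2 * (sB v.1 - sA v.1) - v.1) / 2 = sA v.1 + v.2 * (sB v.1 - sA v.1) := by ring
    simp only
    rw [e1, e2]
    have h3 : sB v.1 - sA v.1 ≠ 0 := by linarith
    ext
    · rfl
    · simp only
      rw [add_sub_cancel_left, mul_div_cancel_right₀ _ h3]
  · have h : ∀ w ∈ {w : ℝ × ℝ | w ∈ D 0 1 1 ∧ 0 < w.2},
        sB (-w.1 - w.2) - sA (-w.1 - w.2) ≠ 0 := by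
      intro w hw
      have h := stair_iff.1 hw
      have : 0 < sB (-w.1 - w.2) - sA (-w.1 - w.2) := by linarith [h.1, h.2]
      exact this.ne'
    refine ContinuousOn.prodMk (by fun_prop) (ContinuousOn.div (by fun_prop) (by fun_prop) h)
  · fun_prop

/-- All the planar cells are homeomorphic to the plane. -/
lemma homeo_D {a b c : Fin 2} (h : ¬ (a = 1 ∧ b = 1 ∧ c = 1)) :
    Nonempty ({w : ℝ × ℝ | w ∈ D a b c ∧ 0 < w.2} ≃ₜ (ℝ × ℝ)) := by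
  rcases fin2_cases a with rfl | rfl <;> rcases fin2_cases b with rfl | rfl <;>
    rcases fin2_cases c with rfl | rfl
  · refine homeo_rect (-1) 0 0 2 (by norm_num) (by norm_num) ?_
    ext w
    simp only [mem_ofPred_eq, D000, mem_prod, mem_Ioo]
    tauto
  · refine homeo_rect (-2) (-1) 0 2 (by norm_num) (by norm_num) ?_
    ext w
    simp only [mem_ofPred_eq, D001, mem_prod, mem_Ioo]
    tauto
  · refine homeo_rect (-1) 0 2 3 (by norm_num) (by norm_num) ?_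
    ext w
    simp only [mem_ofPred_eq, D010, mem_prod, mem_Ioo]
    constructor
    · rintro ⟨⟨h1, h2, h3, h4⟩, h5⟩; exact ⟨⟨h1, h2⟩, h3, h4⟩
    · rintro ⟨⟨h1, h2⟩, h3, h4⟩; exact ⟨⟨h1, h2, h3, h4⟩, by linarith⟩
  · exact homeo_stair
  · refine homeo_rect 0 1 0 2 (by norm_num) (by norm_num) ?_
    ext w
    simp only [mem_ofPred_eq, D100, mem_prod, mem_Ioo]
    tauto
  · refine homeo_rect 1 2 0 2 (by norm_num) (by norm_num) ?_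
    ext w
    simp only [mem_ofPred_eq, D101, mem_prod, mem_Ioo]
    tauto
  · refine homeo_rect 0 1 2 3 (by norm_num) (by norm_num) ?_
    ext w
    simp only [mem_ofPred_eq, D110, mem_prod, mem_Ioo]
    constructor
    · rintro ⟨⟨h1, h2, h3, h4⟩, h5⟩; exact ⟨⟨h1, h2⟩, h3, h4⟩
    · rintro ⟨⟨h1, h2⟩, h3, h4⟩; exact ⟨⟨h1, h2, h3, h4⟩, by linarith⟩
  · exact absurd ⟨rfl, rfl, rfl⟩ h

lemma pre1 {A : Set (ℝ × ℝ)} {s : Set ℝ} {t : Set ℝ} (hs : IsPreconnected s)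
    (ht : IsPreconnected t) (h : A = s ×ˢ t) : IsPreconnected A := by
  rw [h]; exact hs.prod ht

lemma pre2 {A : Set (ℝ × ℝ)} {s s' t t' : Set ℝ} (hs : IsPreconnected s) (ht : IsPreconnected t)
    (hs' : IsPreconnected s') (ht' : IsPreconnected t') (x y : ℝ) (hx : x ∈ s ∧ x ∈ s')
    (hy : y ∈ t ∧ y ∈ t') (h : A = s ×ˢ t ∪ s' ×ˢ t') : IsPreconnected A := by
  rw [h]
  exact IsPreconnected.union (x, y) ⟨hx.1, hy.1⟩ ⟨hx.2, hy.2⟩ (hs.prod ht) (hs'.prod ht')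

lemma pre3 {A : Set (ℝ × ℝ)} {s s' s'' t t' t'' : Set ℝ} (hs : IsPreconnected s)
    (ht : IsPreconnected t) (hs' : IsPreconnected s') (ht' : IsPreconnected t')
    (hs'' : IsPreconnected s'') (ht'' : IsPreconnected t'') (x y x' y' : ℝ)
    (hx : x ∈ s ∧ x ∈ s') (hy : y ∈ t ∧ y ∈ t') (hx' : x' ∈ s' ∧ x' ∈ s'')
    (hy' : y' ∈ t' ∧ y' ∈ t'')
    (h : A = s ×ˢ t ∪ (s' ×ˢ t' ∪ s'' ×ˢ t'')) : IsPreconnected A := by
  rw [h]
  exact IsPreconnected.union (x, y) ⟨hx.1, hy.1⟩ (Or.inl ⟨hx.2, hy.2⟩) (hs.prod ht)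
    (IsPreconnected.union (x', y') ⟨hx'.1, hy'.1⟩ ⟨hx'.2, hy'.2⟩ (hs'.prod ht') (hs''.prod ht''))

end Pool.Agent.H11.Venn
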