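import Pool.Agent.H11.Venn.Cyl3

/-!
# The cylindrical diagram: preconnected planar sets
-/

open Set Metric Bornology Topology

namespace Pool.Agent.H11.Venn

/-- Planar description of the frontier of a cylinder. -/
def PF (a b r : ℝ) : Set (ℝ × ℝ) :=
  {w | (a ≤ w.1 ∧ w.1 ≤ b ∧ w.2 ≤ r) ∧ ¬ (a < w.1 ∧ w.1 < b ∧ w.2 < r)}

/-- pieces of the first cylinder -/
def P1 (b c : Fin 2) : Set (ℝ × ℝ) := PF (-5) 0 4 ∩ PS (-2) 2 2 b ∩ PS (-1) 1 3 c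

/-- pieces of the second cylinder -/
def P2 (a c : Fin 2) : Set (ℝ × ℝ) := PS (-5) 0 4 a ∩ PF (-2) 2 2 ∩ PS (-1) 1 3 c

/-- pieces of the third cylinder -/
def P3 (a b : Fin 2) : Set (ℝ × ℝ) := PS (-5) 0 4 a ∩ PS (-2) 2 2 b ∩ PF (-1) 1 3

lemma PS_zero {a b r : ℝ} : PS a b r 0 = {w | a < w.1 ∧ w.1 < b ∧ w.2 < r} := by
  simp [PS]

lemma PS_one {a b r : ℝ} : PS a b r 1 = {w | ¬ (a ≤ w.1 ∧ w.1 ≤ b ∧ w.2 ≤ r)} := by
  simp [PS]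

lemma P1_00 : {w : ℝ × ℝ | w ∈ P1 0 0 ∧ 0 < w.2} = {0} ×ˢ Ioo 0 2 := by
  ext ⟨y, r⟩
  simp only [P1, P2, P3, D, PF, PS_zero, PS_one, mem_inter_iff, mem_ofPred_eq, mem_prod,
    mem_singleton_iff, mem_Ioo, mem_Ioc, mem_Icc, mem_Ico, mem_union]
  grind

lemma P1_00_pre : IsPreconnected {w : ℝ × ℝ | w ∈ P1 0 0 ∧ 0 < w.2} := by
  exact pre1 isPreconnected_singleton isPreconnected_Ioo P1_00

lemma P1_10 : {w : ℝ × ℝ | w ∈ P1 1 0 ∧ 0 < w.2} = {0} ×ˢ Ioo 2 3 := by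
  ext ⟨y, r⟩
  simp only [P1, P2, P3, D, PF, PS_zero, PS_one, mem_inter_iff, mem_ofPred_eq, mem_prod,
    mem_singleton_iff, mem_Ioo, mem_Ioc, mem_Icc, mem_Ico, mem_union]
  grind

lemma P1_10_pre : IsPreconnected {w : ℝ × ℝ | w ∈ P1 1 0 ∧ 0 < w.2} := by
  exact pre1 isPreconnected_singleton isPreconnected_Ioo P1_10

lemma P1_11 : {w : ℝ × ℝ | w ∈ P1 1 1 ∧ 0 < w.2} = {0} ×ˢ Ioc 3 4 ∪ (Icc (-5) 0 ×ˢ {4} ∪ {-5} ×ˢ Ioc 0 4) := by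
  ext ⟨y, r⟩
  simp only [P1, P2, P3, D, PF, PS_zero, PS_one, mem_inter_iff, mem_ofPred_eq, mem_prod,
    mem_singleton_iff, mem_Ioo, mem_Ioc, mem_Icc, mem_Ico, mem_union]
  grind

lemma P1_11_pre : IsPreconnected {w : ℝ × ℝ | w ∈ P1 1 1 ∧ 0 < w.2} := by
  exact pre3 isPreconnected_singleton isPreconnected_Ioc isPreconnected_Icc isPreconnected_singleton isPreconnected_singleton isPreconnected_Ioc
    0 4 (-5) 4 (by constructor <;> norm_num) (by constructor <;> norm_num)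
    (by constructor <;> norm_num) (by constructor <;> norm_num) P1_11

lemma P2_00 : {w : ℝ × ℝ | w ∈ P2 0 0 ∧ 0 < w.2} = Ioo (-1) 0 ×ˢ {2} := by
  ext ⟨y, r⟩
  simp only [P1, P2, P3, D, PF, PS_zero, PS_one, mem_inter_iff, mem_ofPred_eq, mem_prod,
    mem_singleton_iff, mem_Ioo, mem_Ioc, mem_Icc, mem_Ico, mem_union]
  grind

lemma P2_00_pre : IsPreconnected {w : ℝ × ℝ | w ∈ P2 0 0 ∧ 0 < w.2} := by
  exact pre1 isPreconnected_Ioo isPreconnected_singleton P2_00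

lemma P2_01 : {w : ℝ × ℝ | w ∈ P2 0 1 ∧ 0 < w.2} = Ico (-2) (-1) ×ˢ {2} ∪ {-2} ×ˢ Ioc 0 2 := by
  ext ⟨y, r⟩
  simp only [P1, P2, P3, D, PF, PS_zero, PS_one, mem_inter_iff, mem_ofPred_eq, mem_prod,
    mem_singleton_iff, mem_Ioo, mem_Ioc, mem_Icc, mem_Ico, mem_union]
  grind

lemma P2_01_pre : IsPreconnected {w : ℝ × ℝ | w ∈ P2 0 1 ∧ 0 < w.2} := by
  exact pre2 isPreconnected_Ico isPreconnected_singleton isPreconnected_singleton isPreconnected_Ioc (-2) 2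
    (by constructor <;> norm_num) (by constructor <;> norm_num) P2_01

lemma P2_10 : {w : ℝ × ℝ | w ∈ P2 1 0 ∧ 0 < w.2} = Ioo 0 1 ×ˢ {2} := by
  ext ⟨y, r⟩
  simp only [P1, P2, P3, D, PF, PS_zero, PS_one, mem_inter_iff, mem_ofPred_eq, mem_prod,
    mem_singleton_iff, mem_Ioo, mem_Ioc, mem_Icc, mem_Ico, mem_union]
  grind

lemma P2_10_pre : IsPreconnected {w : ℝ × ℝ | w ∈ P2 1 0 ∧ 0 < w.2} := by
  exact pre1 isPreconnected_Ioo isPreconnected_singleton P2_10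

lemma P2_11 : {w : ℝ × ℝ | w ∈ P2 1 1 ∧ 0 < w.2} = Ioc 1 2 ×ˢ {2} ∪ {2} ×ˢ Ioc 0 2 := by
  ext ⟨y, r⟩
  simp only [P1, P2, P3, D, PF, PS_zero, PS_one, mem_inter_iff, mem_ofPred_eq, mem_prod,
    mem_singleton_iff, mem_Ioo, mem_Ioc, mem_Icc, mem_Ico, mem_union]
  grind

lemma P2_11_pre : IsPreconnected {w : ℝ × ℝ | w ∈ P2 1 1 ∧ 0 < w.2} := by
  exact pre2 isPreconnected_Ioc isPreconnected_singleton isPreconnected_singleton isPreconnected_Ioc 2 2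
    (by constructor <;> norm_num) (by constructor <;> norm_num) P2_11

lemma P3_00 : {w : ℝ × ℝ | w ∈ P3 0 0 ∧ 0 < w.2} = {-1} ×ˢ Ioo 0 2 := by
  ext ⟨y, r⟩
  simp only [P1, P2, P3, D, PF, PS_zero, PS_one, mem_inter_iff, mem_ofPred_eq, mem_prod,
    mem_singleton_iff, mem_Ioo, mem_Ioc, mem_Icc, mem_Ico, mem_union]
  grind

lemma P3_00_pre : IsPreconnected {w : ℝ × ℝ | w ∈ P3 0 0 ∧ 0 < w.2} := by
  exact pre1 isPreconnected_singleton isPreconnected_Ioo P3_00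

lemma P3_01 : {w : ℝ × ℝ | w ∈ P3 0 1 ∧ 0 < w.2} = {-1} ×ˢ Ioc 2 3 ∪ Ico (-1) 0 ×ˢ {3} := by
  ext ⟨y, r⟩
  simp only [P1, P2, P3, D, PF, PS_zero, PS_one, mem_inter_iff, mem_ofPred_eq, mem_prod,
    mem_singleton_iff, mem_Ioo, mem_Ioc, mem_Icc, mem_Ico, mem_union]
  grind

lemma P3_01_pre : IsPreconnected {w : ℝ × ℝ | w ∈ P3 0 1 ∧ 0 < w.2} := by
  exact pre2 isPreconnected_singleton isPreconnected_Ioc isPreconnected_Ico isPreconnected_singleton (-1) 3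
    (by constructor <;> norm_num) (by constructor <;> norm_num) P3_01

lemma P3_10 : {w : ℝ × ℝ | w ∈ P3 1 0 ∧ 0 < w.2} = {1} ×ˢ Ioo 0 2 := by
  ext ⟨y, r⟩
  simp only [P1, P2, P3, D, PF, PS_zero, PS_one, mem_inter_iff, mem_ofPred_eq, mem_prod,
    mem_singleton_iff, mem_Ioo, mem_Ioc, mem_Icc, mem_Ico, mem_union]
  grind

lemma P3_10_pre : IsPreconnected {w : ℝ × ℝ | w ∈ P3 1 0 ∧ 0 < w.2} := by
  exact pre1 isPreconnected_singleton isPreconnected_Ioo P3_10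

lemma P3_11 : {w : ℝ × ℝ | w ∈ P3 1 1 ∧ 0 < w.2} = {1} ×ˢ Ioc 2 3 ∪ Ioc 0 1 ×ˢ {3} := by
  ext ⟨y, r⟩
  simp only [P1, P2, P3, D, PF, PS_zero, PS_one, mem_inter_iff, mem_ofPred_eq, mem_prod,
    mem_singleton_iff, mem_Ioo, mem_Ioc, mem_Icc, mem_Ico, mem_union]
  grind

lemma P3_11_pre : IsPreconnected {w : ℝ × ℝ | w ∈ P3 1 1 ∧ 0 < w.2} := by
  exact pre2 isPreconnected_singleton isPreconnected_Ioc isPreconnected_Ioc isPreconnected_singleton 1 3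
    (by constructor <;> norm_num) (by constructor <;> norm_num) P3_11

lemma P1_01 : {w : ℝ × ℝ | w ∈ P1 0 1 ∧ 0 < w.2} = ∅ := by
  ext ⟨y, r⟩
  simp only [P1, P2, P3, D, PF, PS_zero, PS_one, mem_inter_iff, mem_ofPred_eq, mem_prod,
    mem_singleton_iff, mem_Ioo, mem_Ioc, mem_Icc, mem_Ico, mem_union, mem_empty_iff_false]
  grind

lemma P1_01_pre : IsPreconnected {w : ℝ × ℝ | w ∈ P1 0 1 ∧ 0 < w.2} := by
  rw [P1_01]; exact isPreconnected_empty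

lemma DD_000 : {w : ℝ × ℝ | w ∈ D 0 0 0 ∧ 0 ≤ w.2} = Ioo (-1) 0 ×ˢ Ico 0 2 := by
  ext ⟨y, r⟩
  simp only [P1, P2, P3, D, PF, PS_zero, PS_one, mem_inter_iff, mem_ofPred_eq, mem_prod,
    mem_singleton_iff, mem_Ioo, mem_Ioc, mem_Icc, mem_Ico, mem_union]
  grind

lemma DD_000_pre : IsPreconnected {w : ℝ × ℝ | w ∈ D 0 0 0 ∧ 0 ≤ w.2} := by
  exact pre1 isPreconnected_Ioo isPreconnected_Ico DD_000

lemma DD_001 : {w : ℝ × ℝ | w ∈ D 0 0 1 ∧ 0 ≤ w.2} = Ioo (-2) (-1) ×ˢ Ico 0 2 := by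
  ext ⟨y, r⟩
  simp only [P1, P2, P3, D, PF, PS_zero, PS_one, mem_inter_iff, mem_ofPred_eq, mem_prod,
    mem_singleton_iff, mem_Ioo, mem_Ioc, mem_Icc, mem_Ico, mem_union]
  grind

lemma DD_001_pre : IsPreconnected {w : ℝ × ℝ | w ∈ D 0 0 1 ∧ 0 ≤ w.2} := by
  exact pre1 isPreconnected_Ioo isPreconnected_Ico DD_001

lemma DD_010 : {w : ℝ × ℝ | w ∈ D 0 1 0 ∧ 0 ≤ w.2} = Ioo (-1) 0 ×ˢ Ioo 2 3 := by
  ext ⟨y, r⟩
  simp only [P1, P2, P3, D, PF, PS_zero, PS_one, mem_inter_iff, mem_ofPred_eq, mem_prod,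
    mem_singleton_iff, mem_Ioo, mem_Ioc, mem_Icc, mem_Ico, mem_union]
  grind

lemma DD_010_pre : IsPreconnected {w : ℝ × ℝ | w ∈ D 0 1 0 ∧ 0 ≤ w.2} := by
  exact pre1 isPreconnected_Ioo isPreconnected_Ioo DD_010

lemma DD_011 : {w : ℝ × ℝ | w ∈ D 0 1 1 ∧ 0 ≤ w.2} = Ioo (-5) (-2) ×ˢ Ico 0 4 ∪ (Ioo (-5) (-1) ×ˢ Ioo 2 4 ∪ Ioo (-5) 0 ×ˢ Ioo 3 4) := by
  ext ⟨y, r⟩
  simp only [P1, P2, P3, D, PF, PS_zero, PS_one, mem_inter_iff, mem_ofPred_eq, mem_prod,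
    mem_singleton_iff, mem_Ioo, mem_Ioc, mem_Icc, mem_Ico, mem_union]
  grind

lemma DD_011_pre : IsPreconnected {w : ℝ × ℝ | w ∈ D 0 1 1 ∧ 0 ≤ w.2} := by
  exact pre3 isPreconnected_Ioo isPreconnected_Ico isPreconnected_Ioo isPreconnected_Ioo isPreconnected_Ioo isPreconnected_Ioo
    (-3) 3 (-3) (7 / 2) (by constructor <;> norm_num) (by constructor <;> norm_num)
    (by constructor <;> norm_num) (by constructor <;> norm_num) DD_011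

lemma DD_100 : {w : ℝ × ℝ | w ∈ D 1 0 0 ∧ 0 ≤ w.2} = Ioo 0 1 ×ˢ Ico 0 2 := by
  ext ⟨y, r⟩
  simp only [P1, P2, P3, D, PF, PS_zero, PS_one, mem_inter_iff, mem_ofPred_eq, mem_prod,
    mem_singleton_iff, mem_Ioo, mem_Ioc, mem_Icc, mem_Ico, mem_union]
  grind

lemma DD_100_pre : IsPreconnected {w : ℝ × ℝ | w ∈ D 1 0 0 ∧ 0 ≤ w.2} := by
  exact pre1 isPreconnected_Ioo isPreconnected_Ico DD_100

lemma DD_101 : {w : ℝ × ℝ | w ∈ D 1 0 1 ∧ 0 ≤ w.2} = Ioo 1 2 ×ˢ Ico 0 2 := by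
  ext ⟨y, r⟩
  simp only [P1, P2, P3, D, PF, PS_zero, PS_one, mem_inter_iff, mem_ofPred_eq, mem_prod,
    mem_singleton_iff, mem_Ioo, mem_Ioc, mem_Icc, mem_Ico, mem_union]
  grind

lemma DD_101_pre : IsPreconnected {w : ℝ × ℝ | w ∈ D 1 0 1 ∧ 0 ≤ w.2} := by
  exact pre1 isPreconnected_Ioo isPreconnected_Ico DD_101

lemma DD_110 : {w : ℝ × ℝ | w ∈ D 1 1 0 ∧ 0 ≤ w.2} = Ioo 0 1 ×ˢ Ioo 2 3 := by
  ext ⟨y, r⟩
  simp only [P1, P2, P3, D, PF, PS_zero, PS_one, mem_inter_iff, mem_ofPred_eq, mem_prod,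
    mem_singleton_iff, mem_Ioo, mem_Ioc, mem_Icc, mem_Ico, mem_union]
  grind

lemma DD_110_pre : IsPreconnected {w : ℝ × ℝ | w ∈ D 1 1 0 ∧ 0 ≤ w.2} := by
  exact pre1 isPreconnected_Ioo isPreconnected_Ioo DD_110

lemma P1_pre (b c : Fin 2) : IsPreconnected {w : ℝ × ℝ | w ∈ P1 b c ∧ 0 < w.2} := by
  rcases fin2_cases b with rfl | rfl <;> rcases fin2_cases c with rfl | rfl
  · exact P1_00_pre
  · exact P1_01_pre
  · exact P1_10_pre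
  · exact P1_11_pre

lemma P2_pre (b c : Fin 2) : IsPreconnected {w : ℝ × ℝ | w ∈ P2 b c ∧ 0 < w.2} := by
  rcases fin2_cases b with rfl | rfl <;> rcases fin2_cases c with rfl | rfl
  · exact P2_00_pre
  · exact P2_01_pre
  · exact P2_10_pre
  · exact P2_11_pre

lemma P3_pre (b c : Fin 2) : IsPreconnected {w : ℝ × ℝ | w ∈ P3 b c ∧ 0 < w.2} := by
  rcases fin2_cases b with rfl | rfl <;> rcases fin2_cases c with rfl | rfl
  · exact P3_00_pre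
  · exact P3_01_pre
  · exact P3_10_pre
  · exact P3_11_pre

lemma D_pre {a b c : Fin 2} (h : ¬ (a = 1 ∧ b = 1 ∧ c = 1)) :
    IsPreconnected {w : ℝ × ℝ | w ∈ D a b c ∧ 0 ≤ w.2} := by
  rcases fin2_cases a with rfl | rfl <;> rcases fin2_cases b with rfl | rfl <;>
    rcases fin2_cases c with rfl | rfl
  · exact DD_000_pre
  · exact DD_001_pre
  · exact DD_010_pre
  · exact DD_011_pre
  · exact DD_100_pre
  · exact DD_101_pre
  · exact DD_110_pre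
  · exact absurd ⟨rfl, rfl, rfl⟩ h

lemma P1_ne {b c : Fin 2} (h : ¬ (b = 0 ∧ c = 1)) :
    {w : ℝ × ℝ | w ∈ P1 b c ∧ 0 < w.2}.Nonempty := by
  rcases fin2_cases b with rfl | rfl <;> rcases fin2_cases c with rfl | rfl
  · rw [P1_00]; exact ⟨(0, 1), by constructor <;> norm_num⟩
  · exact absurd ⟨rfl, rfl⟩ h
  · rw [P1_10]; exact ⟨(0, 5 / 2), by constructor <;> norm_num⟩
  · rw [P1_11]; exact ⟨(0, 4), Or.inl (by constructor <;> norm_num)⟩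

lemma P2_ne (b c : Fin 2) : {w : ℝ × ℝ | w ∈ P2 b c ∧ 0 < w.2}.Nonempty := by
  rcases fin2_cases b with rfl | rfl <;> rcases fin2_cases c with rfl | rfl
  · rw [P2_00]; exact ⟨(-1 / 2, 2), by constructor <;> norm_num⟩
  · rw [P2_01]; exact ⟨(-2, 2), Or.inl (by constructor <;> norm_num)⟩
  · rw [P2_10]; exact ⟨(1 / 2, 2), by constructor <;> norm_num⟩
  · rw [P2_11]; exact ⟨(2, 2), Or.inl (by constructor <;> norm_num)⟩

lemma P3_ne (b c : Fin 2) : {w : ℝ × ℝ | w ∈ P3 b c ∧ 0 < w.2}.Nonempty := by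
  rcases fin2_cases b with rfl | rfl <;> rcases fin2_cases c with rfl | rfl
  · rw [P3_00]; exact ⟨(-1, 1), by constructor <;> norm_num⟩
  · rw [P3_01]; exact ⟨(-1, 3), Or.inl (by constructor <;> norm_num)⟩
  · rw [P3_10]; exact ⟨(1, 1), by constructor <;> norm_num⟩
  · rw [P3_11]; exact ⟨(1, 3), Or.inl (by constructor <;> norm_num)⟩

lemma D_ne {a b c : Fin 2} (h : ¬ (a = 1 ∧ b = 1 ∧ c = 1)) :
    {w : ℝ × ℝ | w ∈ D a b c ∧ 0 ≤ w.2}.Nonempty := by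
  rcases fin2_cases a with rfl | rfl <;> rcases fin2_cases b with rfl | rfl <;>
    rcases fin2_cases c with rfl | rfl
  · rw [DD_000]; exact ⟨(-1 / 2, 1), by constructor <;> norm_num⟩
  · rw [DD_001]; exact ⟨(-3 / 2, 1), by constructor <;> norm_num⟩
  · rw [DD_010]; exact ⟨(-1 / 2, 5 / 2), by constructor <;> norm_num⟩
  · rw [DD_011]; exact ⟨(-3, 1), Or.inl (by constructor <;> norm_num)⟩
  · rw [DD_100]; exact ⟨(1 / 2, 1), by constructor <;> norm_num⟩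
  · rw [DD_101]; exact ⟨(3 / 2, 1), by constructor <;> norm_num⟩
  · rw [DD_110]; exact ⟨(1 / 2, 5 / 2), by constructor <;> norm_num⟩
  · exact absurd ⟨rfl, rfl, rfl⟩ h

end Pool.Agent.H11.Venn
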