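import Pool.Agent.H11.Venn.Cyl4

/-!
# The cylindrical diagram: regions and pieces
-/

open Set Metric Bornology Topology

namespace Pool.Agent.H11.Venn

/-- the sign of `p 0` attached to a side of the first surface -/
noncomputable def sgn (b : Fin 2) : ℝ := if b = 0 then -1 else 1

lemma sgn_sq (b : Fin 2) : sgn b ^ 2 = 1 := by
  unfold sgn; split_ifs <;> norm_num

lemma side0_iff {b : Fin 2} {p : E 4} (h : -6 < p 1 ∧ p 1 < 6 ∧ rho p < 6) :
    p ∈ side (CV 0) b ↔ 0 < sgn b * p 0 := by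
  rw [mem_side0]
  rcases fin2_cases b with rfl | rfl
  · have : sgn 0 = -1 := by simp [sgn]
    rw [this]
    constructor
    · rintro ⟨h1, -⟩
      have := (h1 rfl).1
      linarith
    · intro h1
      exact ⟨fun _ => ⟨by linarith, h⟩, fun h2 => absurd h2 (by decide)⟩
  · have : sgn 1 = 1 := by simp [sgn]
    rw [this]
    constructor
    · rintro ⟨-, h1⟩
      have h2 := h1 rfl
      by_contra h3
      exact h2 ⟨by linarith, by linarith, by linarith, by linarith⟩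
    · intro h1
      refine ⟨fun h2 => absurd h2 (by decide), fun _ h2 => ?_⟩
      linarith [h2.1]

lemma mem_region_CV {ε : Fin 4 → Fin 2} {p : E 4} : p ∈ region CV ε ↔
    p ∈ side (CV 0) (ε 0) ∧ (p 1, rho p) ∈ D (ε 1) (ε 2) (ε 3) := by
  rw [region, mem_iInter, Fin.forall_fin_succ, Fin.forall_fin_succ, Fin.forall_fin_succ,
    Fin.forall_fin_succ]
  change p ∈ side (CV 0) (ε 0) ∧ p ∈ side (CV 1) (ε 1) ∧ p ∈ side (CV 2) (ε 2) ∧
    p ∈ side (CV 3) (ε 3) ∧ _ ↔ _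
  rw [mem_side1, mem_side2, mem_side3]
  unfold D
  simp only [mem_inter_iff]
  constructor
  · rintro ⟨h0, h1, h2, h3, -⟩
    exact ⟨h0, ⟨h1, h2⟩, h3⟩
  · rintro ⟨h0, ⟨h1, h2⟩, h3⟩
    exact ⟨h0, h1, h2, h3, fun i => i.elim0⟩

lemma region_eq_lift {ε : Fin 4 → Fin 2} (h : ¬ (ε 1 = 1 ∧ ε 2 = 1 ∧ ε 3 = 1)) :
    region CV ε = lift (sgn (ε 0)) (D (ε 1) (ε 2) (ε 3)) := by
  ext p
  rw [mem_region_CV]
  unfold lift
  simp only [mem_ofPred_eq]
  constructor
  · rintro ⟨h1, h2⟩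
    exact ⟨(side0_iff (D_subset h h2)).1 h1, h2⟩
  · rintro ⟨h1, h2⟩
    exact ⟨(side0_iff (D_subset h h2)).2 h1, h2⟩

/-- translation -/
lemma homeo_trans (c : E 4) (S : Set (E 4)) : Nonempty (S ≃ₜ {q : E 4 | c + q ∈ S}) := by
  refine ⟨homeoOn (fun p => p - c) (fun q => c + q) ?_ ?_ ?_ ?_ (by fun_prop) (by fun_prop)⟩
  · intro p hp
    change c + (p - c) ∈ S
    rw [add_sub_cancel]; exact hp
  · intro q hq; exact hq
  · intro p _; simp
  · intro q _; simp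

/-- the unit vector -/
noncomputable def e0 : E 4 := EuclideanSpace.single 0 1

lemma homeo_half : Nonempty ({q : E 4 | q 0 < 0} ≃ₜ E 4) := by
  have e : Nonempty ({q : E 4 | q 0 < 0} ≃ₜ (univ : Set (E 4))) := by
    refine ⟨homeoOn (fun q => q + (Real.log (-q 0) - q 0) • e0)
      (fun v => v + (-Real.exp (v 0) - v 0) • e0) ?_ ?_ ?_ ?_ ?_ ?_⟩
    · intro q _; exact mem_univ _
    · intro v _
      have := Real.exp_pos (v 0)
      change (v + (-Real.exp (v 0) - v 0) • e0) 0 < 0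
      simp [e0]
      exact this
    · intro q hq
      have hq' : 0 < - q 0 := by
        have : q 0 < 0 := hq
        linarith
      have h1 : (q + (Real.log (-q 0) - q 0) • e0) 0 = Real.log (- q 0) := by
        simp [e0]
      simp only [h1]
      rw [Real.exp_log hq', add_assoc, ← add_smul]
      have h2 : Real.log (-q 0) - q 0 + (- -q 0 - Real.log (-q 0)) = 0 := by ring
      rw [h2, zero_smul, add_zero]
    · intro v _
      have h1 : (v + (-Real.exp (v 0) - v 0) • e0) 0 = - Real.exp (v 0) := by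
        simp [e0]
      simp only [h1]
      rw [neg_neg, Real.log_exp, add_assoc, ← add_smul]
      have h2 : -Real.exp (v 0) - v 0 + (v 0 - -Real.exp (v 0)) = 0 := by ring
      rw [h2, zero_smul, add_zero]
    · have c0 : Continuous fun q : E 4 => q 0 := by fun_prop
      refine continuousOn_id.add (ContinuousOn.smul (ContinuousOn.sub
        (ContinuousOn.log c0.neg.continuousOn ?_) c0.continuousOn) continuousOn_const)
      intro q hq
      have : q 0 < 0 := hq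
      exact (by linarith : 0 < - q 0).ne'
    · fun_prop
  obtain ⟨e⟩ := e
  exact ⟨e.trans (Homeomorph.Set.univ _)⟩

/-- The centre of the radial homeomorphisms. -/
noncomputable def O1 : E 4 := WithLp.toLp 2 ![0, -1 / 2, 0, 0]

/-- The other centre of radial homeomorphisms. -/
noncomputable def O2 : E 4 := WithLp.toLp 2 ![-1, -1 / 2, 0, 0]

lemma rho_O1 : rho O1 = 0 := by
  apply rho_eq le_rfl
  simp [O1]

lemma rho_O2 : rho O2 = 1 := by
  apply rho_eq zero_le_one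
  simp [O2]

lemma O1_mem {a b r : ℝ} (ha : a < -1 / 2) (hb : -1 / 2 < b) (hr : 0 < r) :
    O1 ∈ Cyl a b r := by
  refine ⟨ha, hb, ?_⟩
  rw [rho_O1]; exact hr

lemma O2_mem {a b r : ℝ} (ha : a < -1 / 2) (hb : -1 / 2 < b) (hr : 1 < r) :
    O2 ∈ Cyl a b r := by
  refine ⟨ha, hb, ?_⟩
  rw [rho_O2]; exact hr

lemma D111 {p : E 4} : (p 1, rho p) ∈ D 1 1 1 ↔ p ∉ closure (Cyl (-5) 0 4) ∧
    p ∉ closure (Cyl (-2) 2 2) ∧ p ∉ closure (Cyl (-1) 1 3) := by
  rw [(cyl_body (by norm_num : (-5 : ℝ) < 0) (by norm_num : (0 : ℝ) < 4)).2,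
    (cyl_body (by norm_num : (-2 : ℝ) < 2) (by norm_num : (0 : ℝ) < 2)).2,
    (cyl_body (by norm_num : (-1 : ℝ) < 1) (by norm_num : (0 : ℝ) < 3)).2]
  unfold D
  simp only [PS_one, mem_inter_iff, mem_ofPred_eq]
  tauto

/-- The gauges about `O1`. -/
lemma gauges : ∃ Gp Gm : E 4 → ℝ, NormLike Gp ∧ NormLike Gm ∧ (∀ q, q ≠ 0 → Gp q < Gm q) ∧
    (∀ q, O1 + q ∈ Cyl (-6) 6 6 ↔ Gp q < 1) ∧ (∀ q, O1 + q ∈ closure (Cyl (-6) 6 6) ↔ Gp q ≤ 1) ∧
    (∀ q, ((O1 + q) 1, rho (O1 + q)) ∈ D 1 1 1 ↔ 1 < Gm q) := by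
  obtain ⟨g0, n0, a0, b0⟩ := (cyl_body (by norm_num : (-6 : ℝ) < 6)
    (by norm_num : (0 : ℝ) < 6)).1.exists_normLike
    (O1_mem (by norm_num) (by norm_num) (by norm_num))
  obtain ⟨g1, n1, a1, b1⟩ := (cyl_body (by norm_num : (-5 : ℝ) < 0)
    (by norm_num : (0 : ℝ) < 4)).1.exists_normLike
    (O1_mem (by norm_num) (by norm_num) (by norm_num))
  obtain ⟨g2, n2, a2, b2⟩ := (cyl_body (by norm_num : (-2 : ℝ) < 2)
    (by norm_num : (0 : ℝ) < 2)).1.exists_normLike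
    (O1_mem (by norm_num) (by norm_num) (by norm_num))
  obtain ⟨g3, n3, a3, b3⟩ := (cyl_body (by norm_num : (-1 : ℝ) < 1)
    (by norm_num : (0 : ℝ) < 3)).1.exists_normLike
    (O1_mem (by norm_num) (by norm_num) (by norm_num))
  have key : ∀ (a b r : ℝ) (g : E 4 → ℝ), a < b → 0 < r → NormLike g →
      (∀ q, O1 + q ∈ closure (Cyl a b r) ↔ g q ≤ 1) → -6 < a → b < 6 → r < 6 →
      ∀ q, q ≠ 0 → g0 q < g q := by
    intro a b r g hab hr ng hg h1 h2 h3 q hq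
    have hgq := ng.pos q hq
    have h4 : g ((g q)⁻¹ • q) ≤ 1 := by
      rw [ng.hom _ _ (inv_nonneg.2 hgq.le), inv_mul_cancel₀ hgq.ne']
    rw [← hg, (cyl_body hab hr).2] at h4
    obtain ⟨h5, h6, h7⟩ := h4
    have h8 : g0 ((g q)⁻¹ • q) < 1 := by
      rw [← a0]
      exact ⟨by linarith, by linarith, by linarith⟩
    rw [n0.hom _ _ (inv_nonneg.2 hgq.le)] at h8
    rwa [inv_mul_lt_one₀ hgq] at h8
  refine ⟨g0, _, n0, (n1.min n2).min n3, ?_, a0, b0, ?_⟩
  · intro q hq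
    refine lt_min (lt_min ?_ ?_) ?_
    · exact key _ _ _ g1 (by norm_num) (by norm_num) n1 b1 (by norm_num) (by norm_num)
        (by norm_num) q hq
    · exact key _ _ _ g2 (by norm_num) (by norm_num) n2 b2 (by norm_num) (by norm_num)
        (by norm_num) q hq
    · exact key _ _ _ g3 (by norm_num) (by norm_num) n3 b3 (by norm_num) (by norm_num)
        (by norm_num) q hq
  · intro q
    rw [D111, b1, b2, b3]
    simp only [not_le, lt_min_iff]
    tauto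

lemma region_shell {ε : Fin 4 → Fin 2} (h : ε 1 = 1 ∧ ε 2 = 1 ∧ ε 3 = 1) (h0 : ε 0 = 0) :
    Nonempty (region CV ε ≃ₜ E 4) := by
  obtain ⟨Gp, Gm, np, nm, hlt, h1, h2, h3⟩ := gauges
  obtain ⟨e1⟩ := homeo_trans O1 (region CV ε)
  have hset : {q : E 4 | O1 + q ∈ region CV ε} =
      {q : E 4 | q ∈ {q : E 4 | q 0 < 0} ∧ Gp q < 1 ∧ 1 < Gm q} := by
    ext q
    simp only [mem_ofPred_eq]
    rw [mem_region_CV, mem_side0, h.1, h.2.1, h.2.2, h0, h3 q, ← h1 q]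
    have h4 : (O1 + q) 0 = q 0 := by simp [O1]
    rw [h4]
    constructor
    · rintro ⟨⟨h5, -⟩, h6⟩
      obtain ⟨h7, h8⟩ := h5 rfl
      exact ⟨h7, h8, h6⟩
    · rintro ⟨h5, h6, h7⟩
      exact ⟨⟨fun _ => ⟨h5, h6⟩, fun h => absurd h (by decide)⟩, h7⟩
  obtain ⟨e2⟩ := homeo_shell np nm (K := {q : E 4 | q 0 < 0}) (by
    intro p hp t ht
    change (t • p) 0 < 0
    have : p 0 < 0 := hp
    simp only [PiLp.smul_apply, smul_eq_mul]
    exact mul_neg_of_pos_of_neg ht this)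
  have hset2 : {p : E 4 | p ∈ {q : E 4 | q 0 < 0} ∧ Gp p < Gm p} = {q : E 4 | q 0 < 0} := by
    ext q
    constructor
    · exact fun h => h.1
    · intro h
      refine ⟨h, hlt q ?_⟩
      rintro rfl
      exact lt_irrefl (0 : ℝ) h
  rw [hset] at e1
  rw [hset2] at e2
  obtain ⟨e3⟩ := homeo_half
  exact ⟨(e1.trans e2).trans e3⟩

lemma region_ext {ε : Fin 4 → Fin 2} (h : ε 1 = 1 ∧ ε 2 = 1 ∧ ε 3 = 1) (h0 : ε 0 = 1) :
    Nonempty (region CV ε ≃ₜ ((closedBall (0 : E 4) 1)ᶜ : Set (E 4))) := by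
  obtain ⟨g0, n0, a0, b0⟩ := tx_body.1.exists_normLike (c := O2) (by
    refine ⟨?_, O2_mem (by norm_num) (by norm_num) (by norm_num)⟩
    change (-1 : ℝ) < 0
    norm_num)
  obtain ⟨g1, n1, a1, b1⟩ := (cyl_body (by norm_num : (-5 : ℝ) < 0)
    (by norm_num : (0 : ℝ) < 4)).1.exists_normLike
    (O2_mem (by norm_num) (by norm_num) (by norm_num))
  obtain ⟨g2, n2, a2, b2⟩ := (cyl_body (by norm_num : (-2 : ℝ) < 2)
    (by norm_num : (0 : ℝ) < 2)).1.exists_normLike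
    (O2_mem (by norm_num) (by norm_num) (by norm_num))
  obtain ⟨g3, n3, a3, b3⟩ := (cyl_body (by norm_num : (-1 : ℝ) < 1)
    (by norm_num : (0 : ℝ) < 3)).1.exists_normLike
    (O2_mem (by norm_num) (by norm_num) (by norm_num))
  obtain ⟨e1⟩ := homeo_trans O2 (region CV ε)
  have hset : {q : E 4 | O2 + q ∈ region CV ε} =
      {q : E 4 | 1 < min (min (g0 q) (g1 q)) (min (g2 q) (g3 q))} := by
    ext q
    simp only [mem_ofPred_eq]
    rw [mem_region_CV, mem_side0, h.1, h.2.1, h.2.2, h0, D111, b1, b2, b3]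
    have h4 := b0 q
    rw [tx_body.2] at h4
    simp only [mem_ofPred_eq] at h4
    rw [h4]
    simp only [lt_min_iff, not_le]
    constructor
    · rintro ⟨⟨-, h5⟩, h6, h7, h8⟩
      exact ⟨⟨h5 trivial, h6⟩, h7, h8⟩
    · rintro ⟨⟨h5, h6⟩, h7, h8⟩
      exact ⟨⟨fun h => absurd h (by decide), fun _ => h5⟩, h6, h7, h8⟩
  rw [hset] at e1
  obtain ⟨e2⟩ := homeo_exterior ((n0.min n1).min (n2.min n3))
  exact ⟨e1.trans e2⟩

lemma region_CV_homeo (ε : Fin 4 → Fin 2) : Nonempty (region CV ε ≃ₜ E 4) ∨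
    Nonempty (region CV ε ≃ₜ ((closedBall (0 : E 4) 1)ᶜ : Set (E 4))) := by
  by_cases h : ε 1 = 1 ∧ ε 2 = 1 ∧ ε 3 = 1
  · rcases fin2_cases (ε 0) with h0 | h0
    · exact Or.inl (region_shell h h0)
    · exact Or.inr (region_ext h h0)
  · left
    rw [region_eq_lift h]
    exact homeo_lift_of (sgn_sq _) (homeo_D h)

end Pool.Agent.H11.Venn
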