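import Pool.Agent.H11.Venn.Cyl5

/-!
# The cylindrical diagram: pieces of the surfaces
-/

open Set Metric Bornology Topology

namespace Pool.Agent.H11.Venn

lemma piece0_flat {ε : Fin 4 → Fin 2} (h : ¬ (ε 1 = 1 ∧ ε 2 = 1 ∧ ε 3 = 1)) :
    piece CV 0 ε = flat (D (ε 1) (ε 2) (ε 3)) := by
  ext p
  unfold piece flat
  simp only [mem_ofPred_eq]
  constructor
  · rintro ⟨h1, h2⟩
    have hD : (p 1, rho p) ∈ D (ε 1) (ε 2) (ε 3) :=
      ⟨⟨mem_side1.1 (h2 1 (by decide)), mem_side2.1 (h2 2 (by decide))⟩,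
        mem_side3.1 (h2 3 (by decide))⟩
    refine ⟨?_, hD⟩
    obtain ⟨h3, h4, h5⟩ := D_subset h hD
    rw [mem_CV0] at h1
    obtain ⟨h6, h7⟩ := h1
    by_contra h8
    exact h7 ⟨lt_of_le_of_ne h6.1 h8, h3, h4, h5⟩
  · rintro ⟨h1, h2⟩
    obtain ⟨h3, h4, h5⟩ := D_subset h h2
    refine ⟨?_, ?_⟩
    · rw [mem_CV0]
      simp only at h3 h4 h5
      refine ⟨⟨h1.le, h3.le, h4.le, h5.le⟩, fun h6 => ?_⟩
      rw [h1] at h6
      exact lt_irrefl _ h6.1
    · intro j hj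
      fin_cases j
      · exact absurd rfl hj
      · exact mem_side1.2 h2.1.1
      · exact mem_side2.2 h2.1.2
      · exact mem_side3.2 h2.2

lemma piece1_lift (ε : Fin 4 → Fin 2) : piece CV 1 ε = lift (sgn (ε 0)) (P1 (ε 2) (ε 3)) := by
  ext p
  unfold piece lift
  simp only [mem_ofPred_eq]
  constructor
  · rintro ⟨h1, h2⟩
    rw [mem_CV1] at h1
    have hsm : -6 < p 1 ∧ p 1 < 6 ∧ rho p < 6 := by
      obtain ⟨⟨h3, h4, h5⟩, -⟩ := h1
      exact ⟨by linarith, by linarith, by linarith⟩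
    exact ⟨(side0_iff hsm).1 (h2 0 (by decide)), ⟨h1, mem_side2.1 (h2 2 (by decide))⟩,
      mem_side3.1 (h2 3 (by decide))⟩
  · rintro ⟨h1, ⟨h2, h3⟩, h4⟩
    have h5 : (-5 ≤ p 1 ∧ p 1 ≤ 0 ∧ rho p ≤ 4) ∧ ¬ (-5 < p 1 ∧ p 1 < 0 ∧ rho p < 4) := h2
    have hsm : -6 < p 1 ∧ p 1 < 6 ∧ rho p < 6 := by
      obtain ⟨⟨h3, h4, h5⟩, -⟩ := h5
      exact ⟨by linarith, by linarith, by linarith⟩
    refine ⟨mem_CV1.2 h2, fun j hj => ?_⟩
    fin_cases j
    · exact (side0_iff hsm).2 h1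
    · exact absurd rfl hj
    · exact mem_side2.2 h3
    · exact mem_side3.2 h4

lemma piece2_lift (ε : Fin 4 → Fin 2) : piece CV 2 ε = lift (sgn (ε 0)) (P2 (ε 1) (ε 3)) := by
  ext p
  unfold piece lift
  simp only [mem_ofPred_eq]
  constructor
  · rintro ⟨h1, h2⟩
    rw [mem_CV2] at h1
    have hsm : -6 < p 1 ∧ p 1 < 6 ∧ rho p < 6 := by
      obtain ⟨⟨h3, h4, h5⟩, -⟩ := h1
      exact ⟨by linarith, by linarith, by linarith⟩
    exact ⟨(side0_iff hsm).1 (h2 0 (by decide)), ⟨mem_side1.1 (h2 1 (by decide)), h1⟩,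
      mem_side3.1 (h2 3 (by decide))⟩
  · rintro ⟨h1, ⟨h2, h3⟩, h4⟩
    have h5 : (-2 ≤ p 1 ∧ p 1 ≤ 2 ∧ rho p ≤ 2) ∧ ¬ (-2 < p 1 ∧ p 1 < 2 ∧ rho p < 2) := h3
    have hsm : -6 < p 1 ∧ p 1 < 6 ∧ rho p < 6 := by
      obtain ⟨⟨h3, h4, h5⟩, -⟩ := h5
      exact ⟨by linarith, by linarith, by linarith⟩
    refine ⟨mem_CV2.2 h3, fun j hj => ?_⟩
    fin_cases j
    · exact (side0_iff hsm).2 h1
    · exact mem_side1.2 h2
    · exact absurd rfl hj
    · exact mem_side3.2 h4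

lemma piece3_lift (ε : Fin 4 → Fin 2) : piece CV 3 ε = lift (sgn (ε 0)) (P3 (ε 1) (ε 2)) := by
  ext p
  unfold piece lift
  simp only [mem_ofPred_eq]
  constructor
  · rintro ⟨h1, h2⟩
    rw [mem_CV3] at h1
    have hsm : -6 < p 1 ∧ p 1 < 6 ∧ rho p < 6 := by
      obtain ⟨⟨h3, h4, h5⟩, -⟩ := h1
      exact ⟨by linarith, by linarith, by linarith⟩
    exact ⟨(side0_iff hsm).1 (h2 0 (by decide)), ⟨mem_side1.1 (h2 1 (by decide)),
      mem_side2.1 (h2 2 (by decide))⟩, h1⟩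
  · rintro ⟨h1, ⟨h2, h3⟩, h4⟩
    have h5 : (-1 ≤ p 1 ∧ p 1 ≤ 1 ∧ rho p ≤ 3) ∧ ¬ (-1 < p 1 ∧ p 1 < 1 ∧ rho p < 3) := h4
    have hsm : -6 < p 1 ∧ p 1 < 6 ∧ rho p < 6 := by
      obtain ⟨⟨h3, h4, h5⟩, -⟩ := h5
      exact ⟨by linarith, by linarith, by linarith⟩
    refine ⟨mem_CV3.2 h4, fun j hj => ?_⟩
    fin_cases j
    · exact (side0_iff hsm).2 h1
    · exact mem_side1.2 h2
    · exact mem_side2.2 h3
    · exact absurd rfl hj

lemma half_preconnected : IsPreconnected {q : E 4 | q 0 ≤ 0 ∧ q ≠ 0} := by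
  apply isPreconnected_of_forall (-e0)
  rintro y ⟨hy0, hy⟩
  refine ⟨segment ℝ y (-e0), ?_, right_mem_segment _ _ _, left_mem_segment _ _ _,
    (convex_segment _ _).isPreconnected⟩
  rintro z ⟨a, b, ha, hb, hab, rfl⟩
  have h1 : (a • y + b • (-e0)) 0 = a * y 0 - b := by
    simp [e0]
    ring
  rcases hb.eq_or_lt with rfl | hb'
  · have : a = 1 := by linarith
    subst this
    simp only [one_smul, zero_smul, add_zero]
    exact ⟨hy0, hy⟩
  · have h2 : (a • y + b • (-e0)) 0 < 0 := by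
      rw [h1]
      nlinarith
    refine ⟨h2.le, fun h3 => ?_⟩
    rw [h3] at h2
    exact lt_irrefl (0 : ℝ) h2

lemma piece0_outer {ε : Fin 4 → Fin 2} (h : ε 1 = 1 ∧ ε 2 = 1 ∧ ε 3 = 1) :
    IsPreconnected (piece CV 0 ε) ∧ (piece CV 0 ε).Nonempty := by
  obtain ⟨Gp, Gm, np, nm, hlt, h1, h2, h3⟩ := gauges
  have hset : piece CV 0 ε = (fun q : E 4 => O1 + q) ''
      {q : E 4 | q 0 ≤ 0 ∧ Gp q ≤ 1 ∧ (q 0 = 0 ∨ Gp q = 1) ∧ 1 < Gm q} := by
    have key : ∀ q : E 4, O1 + q ∈ piece CV 0 ε ↔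
        (q 0 ≤ 0 ∧ Gp q ≤ 1 ∧ (q 0 = 0 ∨ Gp q = 1) ∧ 1 < Gm q) := by
      intro q
      have h4 : (O1 + q) 0 = q 0 := by simp [O1]
      have h5 := h2 q
      rw [(cyl_body (by norm_num : (-6 : ℝ) < 6) (by norm_num : (0 : ℝ) < 6)).2] at h5
      have h6 := h1 q
      have h7 : O1 + q ∈ CV 0 ↔ (q 0 ≤ 0 ∧ Gp q ≤ 1) ∧ ¬ (q 0 < 0 ∧ Gp q < 1) := by
        rw [mem_CV0, h4, ← h5, ← h6]
        rfl
      have h8 : (∀ j, j ≠ 0 → O1 + q ∈ side (CV j) (ε j)) ↔ 1 < Gm q := by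
        rw [← h3 q]
        constructor
        · intro h9
          have := h9 1 (by decide)
          rw [h.1, mem_side1] at this
          refine ⟨⟨this, ?_⟩, ?_⟩
          · have := h9 2 (by decide)
            rwa [h.2.1, mem_side2] at this
          · have := h9 3 (by decide)
            rwa [h.2.2, mem_side3] at this
        · rintro ⟨⟨h10, h11⟩, h12⟩ j hj
          fin_cases j
          · exact absurd rfl hj
          · change O1 + q ∈ side (CV 1) (ε 1)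
            rw [h.1, mem_side1]; exact h10
          · change O1 + q ∈ side (CV 2) (ε 2)
            rw [h.2.1, mem_side2]; exact h11
          · change O1 + q ∈ side (CV 3) (ε 3)
            rw [h.2.2, mem_side3]; exact h12
      unfold piece
      simp only [mem_ofPred_eq]
      rw [h7, h8]
      constructor
      · rintro ⟨⟨⟨h9, h10⟩, h11⟩, h12⟩
        refine ⟨h9, h10, ?_, h12⟩
        by_contra h13
        push Not at h13
        exact h11 ⟨lt_of_le_of_ne h9 h13.1, lt_of_le_of_ne h10 h13.2⟩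
      · rintro ⟨h9, h10, h11, h12⟩
        refine ⟨⟨⟨h9, h10⟩, ?_⟩, h12⟩
        rintro ⟨h13, h14⟩
        rcases h11 with h15 | h15
        · exact h13.ne h15
        · exact h14.ne h15
    ext p
    constructor
    · intro hp
      refine ⟨p - O1, ?_, by simp⟩
      have : O1 + (p - O1) ∈ piece CV 0 ε := by simpa using hp
      exact (key _).1 this
    · rintro ⟨q, hq, rfl⟩
      exact (key q).2 hq
  set P : Set (E 4) := {q : E 4 | q 0 ≤ 0 ∧ Gp q ≤ 1 ∧ (q 0 = 0 ∨ Gp q = 1) ∧ 1 < Gm q} with hP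
  set F : Set (E 4) := {q : E 4 | q 0 ≤ 0 ∧ Gp q = 1} with hF
  have hne : ∀ q : E 4, Gp q = 1 → q ≠ 0 := fun q hq => np.ne_zero (by rw [hq]; exact one_pos)
  have hFP : F ⊆ P := by
    rintro q ⟨h4, h5⟩
    exact ⟨h4, h5.le, Or.inr h5, by rw [← h5]; exact hlt q (hne q h5)⟩
  have hFpre : IsPreconnected F := by
    have : F = (fun q : E 4 => (Gp q)⁻¹ • q) '' {q : E 4 | q 0 ≤ 0 ∧ q ≠ 0} := by
      ext q
      constructor
      · rintro ⟨h4, h5⟩
        exact ⟨q, ⟨h4, hne q h5⟩, by simp [h5]⟩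
      · rintro ⟨q, ⟨h4, h5⟩, rfl⟩
        have h6 := np.pos q h5
        refine ⟨?_, ?_⟩
        · simp only [PiLp.smul_apply, smul_eq_mul]
          exact mul_nonpos_of_nonneg_of_nonpos (inv_nonneg.2 h6.le) h4
        · simp only
          rw [np.hom _ _ (inv_nonneg.2 h6.le), inv_mul_cancel₀ h6.ne']
    rw [this]
    refine half_preconnected.image _ (ContinuousOn.smul (ContinuousOn.inv₀
      np.cont.continuousOn ?_) continuousOn_id)
    rintro q ⟨-, hq⟩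
    exact (np.pos q hq).ne'
  have hFne : ((Gp (-e0))⁻¹ • (-e0)) ∈ F := by
    have h5 : (-e0 : E 4) ≠ 0 := by
      intro h
      have := congrArg (fun v : E 4 => v 0) h
      simp [e0] at this
    have h6 := np.pos _ h5
    refine ⟨?_, ?_⟩
    · simp only [PiLp.smul_apply, smul_eq_mul]
      refine mul_nonpos_of_nonneg_of_nonpos (inv_nonneg.2 h6.le) ?_
      simp [e0]
    · rw [np.hom _ _ (inv_nonneg.2 h6.le), inv_mul_cancel₀ h6.ne']
  have hPpre : IsPreconnected P := by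
    apply isPreconnected_of_forall ((Gp (-e0))⁻¹ • (-e0))
    rintro y ⟨hy1, hy2, hy3, hy4⟩
    rcases hy3 with hy3 | hy3
    · have hy : y ≠ 0 := nm.ne_zero (by linarith)
      have hg := np.pos y hy
      have hinv : 1 ≤ (Gp y)⁻¹ := (one_le_inv₀ hg).2 hy2
      refine ⟨F ∪ (fun s : ℝ => s • y) '' Icc 1 (Gp y)⁻¹, ?_, Or.inl hFne,
        Or.inr ⟨1, ⟨le_rfl, hinv⟩, one_smul _ _⟩, ?_⟩
      · apply union_subset hFP
        rintro z ⟨s, ⟨hs1, hs2⟩, rfl⟩
        have hs0 : 0 ≤ s := by linarith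
        have e1 : (s • y) 0 = 0 := by
          simp only [PiLp.smul_apply, smul_eq_mul, hy3, mul_zero]
        refine ⟨e1.le, ?_, Or.inl e1, ?_⟩
        · simp only
          rw [np.hom _ _ hs0]
          calc s * Gp y ≤ (Gp y)⁻¹ * Gp y := mul_le_mul_of_nonneg_right hs2 hg.le
            _ = 1 := inv_mul_cancel₀ hg.ne'
        · simp only
          rw [nm.hom _ _ hs0]
          nlinarith
      · refine IsPreconnected.union ((Gp y)⁻¹ • y) ?_ ⟨(Gp y)⁻¹, ⟨hinv, le_rfl⟩, rfl⟩ hFpre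
          (isPreconnected_Icc.image _ (by fun_prop))
        refine ⟨?_, ?_⟩
        · simp only [PiLp.smul_apply, smul_eq_mul, hy3, mul_zero, le_refl]
        · rw [np.hom _ _ (inv_nonneg.2 hg.le), inv_mul_cancel₀ hg.ne']
    · exact ⟨F, hFP, hFne, ⟨hy1, hy3⟩, hFpre⟩
  rw [hset]
  exact ⟨hPpre.image _ (by fun_prop), Set.Nonempty.image _ ⟨_, hFP hFne⟩⟩

lemma isPreconnected_piece_CV (i : Fin 4) (ε : Fin 4 → Fin 2) :
    IsPreconnected (piece CV i ε) := by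
  fin_cases i
  · by_cases h : ε 1 = 1 ∧ ε 2 = 1 ∧ ε 3 = 1
    · exact (piece0_outer h).1
    · change IsPreconnected (piece CV 0 ε)
      rw [piece0_flat h]
      exact isPreconnected_flat (D_pre h)
  · change IsPreconnected (piece CV 1 ε)
    rw [piece1_lift]
    exact isPreconnected_lift (sgn_sq _) (P1_pre _ _)
  · change IsPreconnected (piece CV 2 ε)
    rw [piece2_lift]
    exact isPreconnected_lift (sgn_sq _) (P2_pre _ _)
  · change IsPreconnected (piece CV 3 ε)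
    rw [piece3_lift]
    exact isPreconnected_lift (sgn_sq _) (P3_pre _ _)

lemma piece_CV_nonempty (i : Fin 4) (ε : Fin 4 → Fin 2) :
    (piece CV i ε).Nonempty ↔ ¬ (i = 1 ∧ ε 2 = 0 ∧ ε 3 = 1) := by
  constructor
  · rintro hne ⟨rfl, h2, h3⟩
    rw [piece1_lift, h2, h3, lift_empty] at hne
    · exact not_nonempty_empty hne
    · intro w hw hw2
      have : w ∈ {w : ℝ × ℝ | w ∈ P1 0 1 ∧ 0 < w.2} := ⟨hw, hw2⟩
      rw [P1_01] at this
      exact this
  · intro hi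
    fin_cases i
    · change (piece CV 0 ε).Nonempty
      by_cases h : ε 1 = 1 ∧ ε 2 = 1 ∧ ε 3 = 1
      · exact (piece0_outer h).2
      · rw [piece0_flat h]
        obtain ⟨w, hw1, hw2⟩ := D_ne h
        exact flat_nonempty hw1 hw2
    · change (piece CV 1 ε).Nonempty
      rw [piece1_lift]
      obtain ⟨w, hw1, hw2⟩ := P1_ne (b := ε 2) (c := ε 3) (fun h => hi ⟨rfl, h⟩)
      exact lift_nonempty (sgn_sq _) hw1 hw2
    · change (piece CV 2 ε).Nonempty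
      rw [piece2_lift]
      obtain ⟨w, hw1, hw2⟩ := P2_ne (ε 1) (ε 3)
      exact lift_nonempty (sgn_sq _) hw1 hw2
    · change (piece CV 3 ε).Nonempty
      rw [piece3_lift]
      obtain ⟨w, hw1, hw2⟩ := P3_ne (ε 1) (ε 2)
      exact lift_nonempty (sgn_sq _) hw1 hw2

lemma encard_edges_CV : (edges CV).encard = 30 := by
  have h := encard_edges CB_isBody isPreconnected_piece_CV
  have h1 : (edges CV).encard = _ := h
  rw [h1]
  have h2 : {q : Fin 4 × (Fin 4 → Fin 2) | q.2 q.1 = 0 ∧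
        (piece (fun i => frontier (CB i)) q.1 q.2).Nonempty} =
      ((Finset.univ.filter fun q : Fin 4 × (Fin 4 → Fin 2) =>
          q.2 q.1 = 0 ∧ ¬ (q.1 = 1 ∧ q.2 2 = 0 ∧ q.2 3 = 1) :
        Finset (Fin 4 × (Fin 4 → Fin 2))) : Set (Fin 4 × (Fin 4 → Fin 2))) := by
    ext q
    simp only [mem_ofPred_eq, Finset.coe_filter, Finset.mem_univ, true_and]
    exact and_congr_right fun _ => piece_CV_nonempty _ _
  rw [h2, Set.encard_coe_eq_coe_finsetCard]
  have : (Finset.univ.filter fun q : Fin 4 × (Fin 4 → Fin 2) =>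
      q.2 q.1 = 0 ∧ ¬ (q.1 = 1 ∧ q.2 2 = 0 ∧ q.2 3 = 1)).card = 30 := by
    decide +kernel
  rw [this]
  rfl

end Pool.Agent.H11.Venn
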