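import Pool.Agent.H11.Venn.Cyl6

/-!
# The cylindrical diagram: intersections
-/

open Set Metric Bornology Topology

namespace Pool.Agent.H11.Venn

/-- inclusion of the hyperplane `p 0 = 0` -/
noncomputable def inc3 : E 3 →ₗ[ℝ] E 4 where
  toFun q := WithLp.toLp 2 ![0, q 0, q 1, q 2]
  map_add' p q := by
    ext j; fin_cases j <;> simp
  map_smul' c p := by
    ext j; fin_cases j <;> simp

lemma inc3_inj : Function.Injective inc3 := by
  intro p q h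
  have h1 := congrArg (fun v : E 4 => v 1) h
  have h2 := congrArg (fun v : E 4 => v 2) h
  have h3 := congrArg (fun v : E 4 => v 3) h
  ext j
  fin_cases j
  · exact h1
  · exact h2
  · exact h3

lemma rho_inc3 (q : E 3) : rho (inc3 q) ^ 2 = q 1 ^ 2 + q 2 ^ 2 := by
  rw [rho_sq]
  change (0 : ℝ) ^ 2 + (q 1) ^ 2 + (q 2) ^ 2 = _
  ring

lemma body3 {a b r : ℝ} (hab : a < b) (hr : 0 < r) :
    IsBody {q : E 3 | a < q 0 ∧ q 0 < b ∧ rho (inc3 q) < r} ∧
    closure {q : E 3 | a < q 0 ∧ q 0 < b ∧ rho (inc3 q) < r} =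
      {q | a ≤ q 0 ∧ q 0 ≤ b ∧ rho (inc3 q) ≤ r} := by
  have hcc : ∀ s c : ℝ, ConvexOn ℝ univ (fun p : E 3 => s * p 0 + c) := by
    intro s c
    refine ⟨convex_univ, fun x _ y _ a b _ _ hab => le_of_eq ?_⟩
    simp only [PiLp.add_apply, PiLp.smul_apply, smul_eq_mul]
    have : b = 1 - a := by linarith
    subst this
    ring
  have h := isBody_of_convex (m := 3) (ι := Fin 3)
    ![fun p => (-1) * p 0 + a, fun p => 1 * p 0 + (-b), fun p => rho (inc3 p) + (-r)] ?_ ?_ ?_ ?_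
  · have e1 : {p : E 3 | ∀ i : Fin 3, (![fun p => (-1) * p 0 + a, fun p => 1 * p 0 + (-b),
        fun p => rho (inc3 p) + (-r)] : Fin 3 → E 3 → ℝ) i p < 0} =
        {q : E 3 | a < q 0 ∧ q 0 < b ∧ rho (inc3 q) < r} := by
      ext p
      simp only [mem_ofPred_eq, Fin.forall_fin_succ]
      simp
    have e2 : {p : E 3 | ∀ i : Fin 3, (![fun p => (-1) * p 0 + a, fun p => 1 * p 0 + (-b),
        fun p => rho (inc3 p) + (-r)] : Fin 3 → E 3 → ℝ) i p ≤ 0} =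
        {q | a ≤ q 0 ∧ q 0 ≤ b ∧ rho (inc3 q) ≤ r} := by
      ext p
      simp only [mem_ofPred_eq, Fin.forall_fin_succ]
      simp
    rw [e1, e2] at h
    exact h
  · intro i
    fin_cases i
    · exact hcc _ _
    · exact hcc _ _
    · have h1 := convexOn_rho.comp_linearMap inc3
      rw [preimage_univ] at h1
      exact h1.add (convexOn_const _ convex_univ)
  · intro i
    have h1 := continuous_rho.comp inc3.continuous_of_finiteDimensional
    fin_cases i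
    · change Continuous fun p : E 3 => (-1) * p 0 + a
      fun_prop
    · change Continuous fun p : E 3 => 1 * p 0 + (-b)
      fun_prop
    · change Continuous fun p : E 3 => rho (inc3 p) + (-r)
      exact h1.add continuous_const
  · refine ⟨WithLp.toLp 2 ![(a + b) / 2, 0, 0], ?_⟩
    have h0 : rho (inc3 (WithLp.toLp 2 ![(a + b) / 2, 0, 0])) = 0 := by
      apply rho_eq le_rfl
      change (0 : ℝ) ^ 2 = 0 ^ 2 + 0 ^ 2 + 0 ^ 2
      norm_num
    simp only [mem_ofPred_eq, Fin.forall_fin_succ]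
    refine ⟨?_, ?_, ?_, ?_⟩
    · change (-1) * ((a + b) / 2) + a < 0
      linarith
    · change 1 * ((a + b) / 2) + (-b) < 0
      linarith
    · change rho (inc3 (WithLp.toLp 2 ![(a + b) / 2, 0, 0])) + (-r) < 0
      rw [h0]; linarith
    · exact fun i => i.elim0
  · rw [isBounded_iff_forall_norm_le]
    refine ⟨2 * max (max |a| |b|) r, fun p hp => ?_⟩
    have h1 := hp 0
    have h2 := hp 1
    have h3 := hp 2
    change (-1) * p 0 + a < 0 at h1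
    change 1 * p 0 + (-b) < 0 at h2
    change rho (inc3 p) + (-r) < 0 at h3
    set R := max (max |a| |b|) r with hR
    have h4 : |p 0| ≤ R := by
      apply le_trans _ (le_max_left _ _)
      apply abs_le_max_abs_abs <;> linarith
    have h5 : rho (inc3 p) ≤ R := le_trans (by linarith) (le_max_right _ _)
    have h6 := rho_nonneg (inc3 p)
    have h7 := rho_inc3 p
    have h8 : ‖p‖ ^ 2 = |p 0| ^ 2 + rho (inc3 p) ^ 2 := by
      rw [h7, EuclideanSpace.norm_sq_eq, Fin.sum_univ_three]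
      simp only [Real.norm_eq_abs, sq_abs]
      ring
    have h9 := abs_nonneg (p 0)
    by_contra h10
    push Not at h10
    nlinarith

lemma mem_frontier_body3 {a b r : ℝ} (hab : a < b) (hr : 0 < r) {q : E 3} :
    q ∈ frontier {q : E 3 | a < q 0 ∧ q 0 < b ∧ rho (inc3 q) < r} ↔
      (a ≤ q 0 ∧ q 0 ≤ b ∧ rho (inc3 q) ≤ r) ∧ ¬ (a < q 0 ∧ q 0 < b ∧ rho (inc3 q) < r) := by
  rw [frontier, (body3 hab hr).1.isOpen.interior_eq, (body3 hab hr).2]
  rfl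

lemma sphere_slice {a b r : ℝ} (hab : a < b) (hr : 0 < r) :
    IsTopSphere 2 {p : E 4 | p 0 = 0 ∧ p ∈ frontier (Cyl a b r)} := by
  have h1 : IsTopSphere 2 (frontier {q : E 3 | a < q 0 ∧ q 0 < b ∧ rho (inc3 q) < r}) :=
    IsBody.surface (j := 2) (body3 hab hr).1
  have h2 : {p : E 4 | p 0 = 0 ∧ p ∈ frontier (Cyl a b r)} =
      inc3 '' (frontier {q : E 3 | a < q 0 ∧ q 0 < b ∧ rho (inc3 q) < r}) := by
    ext p
    simp only [mem_ofPred_eq, mem_frontier_Cyl hab hr, mem_image, mem_frontier_body3 hab hr]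
    constructor
    · rintro ⟨h3, h4, h5⟩
      have h6 : inc3 (WithLp.toLp 2 ![p 1, p 2, p 3]) = p := by
        ext j
        fin_cases j
        · exact h3.symm
        · rfl
        · rfl
        · rfl
      refine ⟨WithLp.toLp 2 ![p 1, p 2, p 3], ⟨?_, ?_⟩, h6⟩
      · change a ≤ p 1 ∧ p 1 ≤ b ∧ rho (inc3 (WithLp.toLp 2 ![p 1, p 2, p 3])) ≤ r
        rw [h6]; exact h4
      · change ¬ (a < p 1 ∧ p 1 < b ∧ rho (inc3 (WithLp.toLp 2 ![p 1, p 2, p 3])) < r)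
        rw [h6]; exact h5
    · rintro ⟨q, ⟨h3, h4⟩, rfl⟩
      exact ⟨rfl, h3, h4⟩
  rw [h2]
  exact h1.image inc3.continuous_of_finiteDimensional.continuousOn inc3_inj.injOn

/-- parametrisation of a round sphere around the axis -/
noncomputable def em3 (c r : ℝ) (u : E 3) : E 4 := WithLp.toLp 2 ![r * u 0, c, r * u 1, r * u 2]

lemma sphere_axis (c : ℝ) {r : ℝ} (hr : 0 < r) : IsTopSphere 2 {p : E 4 | p 1 = c ∧ rho p = r} := by
  have h2 : {p : E 4 | p 1 = c ∧ rho p = r} = em3 c r '' (sphere (0 : E 3) 1) := by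
    ext p
    constructor
    · rintro ⟨h1, h2⟩
      refine ⟨WithLp.toLp 2 ![p 0 / r, p 2 / r, p 3 / r], ?_, ?_⟩
      · rw [mem_sphere_zero_iff_norm]
        have h7 : ‖(WithLp.toLp 2 ![p 0 / r, p 2 / r, p 3 / r] : E 3)‖ ^ 2 = 1 ^ 2 := by
          rw [EuclideanSpace.norm_sq_eq, Fin.sum_univ_three]
          simp only [Real.norm_eq_abs, sq_abs]
          change (p 0 / r) ^ 2 + (p 2 / r) ^ 2 + (p 3 / r) ^ 2 = 1 ^ 2
          have h3 := rho_sq p
          rw [h2] at h3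
          field_simp
          linarith
        exact (sq_eq_sq₀ (norm_nonneg _) zero_le_one).1 h7
      · ext j
        fin_cases j
        · change r * (p 0 / r) = p 0
          field_simp
        · exact h1.symm
        · change r * (p 2 / r) = p 2
          field_simp
        · change r * (p 3 / r) = p 3
          field_simp
    · rintro ⟨u, hu, rfl⟩
      refine ⟨rfl, rho_eq hr.le ?_⟩
      rw [mem_sphere_zero_iff_norm] at hu
      have := EuclideanSpace.norm_sq_eq u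
      rw [hu, Fin.sum_univ_three] at this
      simp only [Real.norm_eq_abs, sq_abs] at this
      change r ^ 2 = (r * u 0) ^ 2 + (r * u 1) ^ 2 + (r * u 2) ^ 2
      linear_combination (r ^ 2) * this
  rw [h2]
  refine (isTopSphere_unit 2).image ?_ ?_
  · apply Continuous.continuousOn
    unfold em3
    refine (PiLp.continuous_toLp 2 _).comp ?_
    refine continuous_pi fun i => ?_
    fin_cases i
    · change Continuous fun u : E 3 => r * u 0
      fun_prop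
    · exact continuous_const
    · change Continuous fun u : E 3 => r * u 1
      fun_prop
    · change Continuous fun u : E 3 => r * u 2
      fun_prop
  · intro u _ v _ h
    have h0 : r * u 0 = r * v 0 := congrArg (fun v : E 4 => v 0) h
    have h1 : r * u 1 = r * v 1 := congrArg (fun v : E 4 => v 2) h
    have h2 : r * u 2 = r * v 2 := congrArg (fun v : E 4 => v 3) h
    ext j
    fin_cases j
    · exact mul_left_cancel₀ hr.ne' h0
    · exact mul_left_cancel₀ hr.ne' h1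
    · exact mul_left_cancel₀ hr.ne' h2

lemma circle_axis (c : ℝ) {r : ℝ} (hr : 0 < r) :
    IsTopSphere 1 {p : E 4 | p 0 = 0 ∧ p 1 = c ∧ rho p = r} := by
  have h2 : {p : E 4 | p 0 = 0 ∧ p 1 = c ∧ rho p = r} =
      (fun u => parf (u, (c, r))) '' (sphere (0 : E 2) 1) := by
    have h3 : {p : E 4 | p 0 = 0 ∧ p 1 = c ∧ rho p = r} = flat {(c, r)} := by
      ext p
      simp only [flat, mem_ofPred_eq, mem_singleton_iff, Prod.mk.injEq]
    rw [h3, flat_eq]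
    ext p
    constructor
    · rintro ⟨⟨u, w⟩, ⟨hu, hw, -⟩, rfl⟩
      simp only [mem_singleton_iff] at hw
      subst hw
      exact ⟨u, hu, rfl⟩
    · rintro ⟨u, hu, rfl⟩
      exact ⟨(u, (c, r)), ⟨hu, rfl, hr.le⟩, rfl⟩
  rw [h2]
  refine (isTopSphere_unit 1).image ?_ ?_
  · exact (continuous_parf.comp (by fun_prop)).continuousOn
  · intro u _ v _ h
    have h1 : r * u 0 = r * v 0 := congrArg (fun v : E 4 => v 2) h
    have h2 : r * u 1 = r * v 1 := congrArg (fun v : E 4 => v 3) h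
    ext j
    fin_cases j
    · exact mul_left_cancel₀ hr.ne' h1
    · exact mul_left_cancel₀ hr.ne' h2

lemma CV0_iff {p : E 4} (h : -6 < p 1 ∧ p 1 < 6 ∧ rho p < 6) : p ∈ CV 0 ↔ p 0 = 0 := by
  rw [mem_CV0]
  obtain ⟨h3, h4, h5⟩ := h
  constructor
  · rintro ⟨h6, h7⟩
    by_contra h8
    exact h7 ⟨lt_of_le_of_ne h6.1 h8, h3, h4, h5⟩
  · intro h1
    refine ⟨⟨h1.le, h3.le, h4.le, h5.le⟩, fun h6 => ?_⟩
    rw [h1] at h6
    exact lt_irrefl _ h6.1

lemma small1 {p : E 4} (h : p ∈ CV 1) : -6 < p 1 ∧ p 1 < 6 ∧ rho p < 6 := by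
  obtain ⟨⟨h3, h4, h5⟩, -⟩ := mem_CV1.1 h
  exact ⟨by linarith, by linarith, by linarith⟩

lemma small2 {p : E 4} (h : p ∈ CV 2) : -6 < p 1 ∧ p 1 < 6 ∧ rho p < 6 := by
  obtain ⟨⟨h3, h4, h5⟩, -⟩ := mem_CV2.1 h
  exact ⟨by linarith, by linarith, by linarith⟩

lemma small3 {p : E 4} (h : p ∈ CV 3) : -6 < p 1 ∧ p 1 < 6 ∧ rho p < 6 := by
  obtain ⟨⟨h3, h4, h5⟩, -⟩ := mem_CV3.1 h
  exact ⟨by linarith, by linarith, by linarith⟩

lemma CV12 : CV 1 ∩ CV 2 = {p : E 4 | p 1 = 0 ∧ rho p = 2} := by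
  ext p
  simp only [mem_inter_iff, mem_CV1, mem_CV2, mem_ofPred_eq]
  grind

lemma CV13 : CV 1 ∩ CV 3 = {p : E 4 | p 1 = 0 ∧ rho p = 3} := by
  ext p
  simp only [mem_inter_iff, mem_CV1, mem_CV3, mem_ofPred_eq]
  grind

lemma CV23 : CV 2 ∩ CV 3 = {p : E 4 | p 1 = -1 ∧ rho p = 2} ∪ {p : E 4 | p 1 = 1 ∧ rho p = 2} := by
  ext p
  simp only [mem_inter_iff, mem_CV2, mem_CV3, mem_ofPred_eq, mem_union]
  grind

lemma CV01 : CV 0 ∩ CV 1 = {p : E 4 | p 0 = 0 ∧ p ∈ frontier (Cyl (-5) 0 4)} := by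
  ext p
  constructor
  · rintro ⟨h1, h2⟩
    exact ⟨(CV0_iff (small1 h2)).1 h1, h2⟩
  · rintro ⟨h1, h2⟩
    exact ⟨(CV0_iff (small1 h2)).2 h1, h2⟩

lemma CV02 : CV 0 ∩ CV 2 = {p : E 4 | p 0 = 0 ∧ p ∈ frontier (Cyl (-2) 2 2)} := by
  ext p
  constructor
  · rintro ⟨h1, h2⟩
    exact ⟨(CV0_iff (small2 h2)).1 h1, h2⟩
  · rintro ⟨h1, h2⟩
    exact ⟨(CV0_iff (small2 h2)).2 h1, h2⟩

lemma CV03 : CV 0 ∩ CV 3 = {p : E 4 | p 0 = 0 ∧ p ∈ frontier (Cyl (-1) 1 3)} := by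
  ext p
  constructor
  · rintro ⟨h1, h2⟩
    exact ⟨(CV0_iff (small3 h2)).1 h1, h2⟩
  · rintro ⟨h1, h2⟩
    exact ⟨(CV0_iff (small3 h2)).2 h1, h2⟩

lemma CV012 : CV 0 ∩ (CV 1 ∩ CV 2) = {p : E 4 | p 0 = 0 ∧ p 1 = 0 ∧ rho p = 2} := by
  ext p
  constructor
  · rintro ⟨h1, h2⟩
    refine ⟨(CV0_iff (small1 h2.1)).1 h1, ?_⟩
    rw [CV12] at h2; exact h2
  · rintro ⟨h1, h2⟩
    have h3 : p ∈ CV 1 ∩ CV 2 := by rw [CV12]; exact h2
    exact ⟨(CV0_iff (small1 h3.1)).2 h1, h3⟩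

lemma CV013 : CV 0 ∩ (CV 1 ∩ CV 3) = {p : E 4 | p 0 = 0 ∧ p 1 = 0 ∧ rho p = 3} := by
  ext p
  constructor
  · rintro ⟨h1, h2⟩
    refine ⟨(CV0_iff (small1 h2.1)).1 h1, ?_⟩
    rw [CV13] at h2; exact h2
  · rintro ⟨h1, h2⟩
    have h3 : p ∈ CV 1 ∩ CV 3 := by rw [CV13]; exact h2
    exact ⟨(CV0_iff (small1 h3.1)).2 h1, h3⟩

lemma CV023 : CV 0 ∩ (CV 2 ∩ CV 3) = {p : E 4 | p 0 = 0 ∧ p 1 = -1 ∧ rho p = 2} ∪
    {p : E 4 | p 0 = 0 ∧ p 1 = 1 ∧ rho p = 2} := by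
  ext p
  constructor
  · rintro ⟨h1, h2⟩
    have h3 := (CV0_iff (small2 h2.1)).1 h1
    rw [CV23] at h2
    rcases h2 with h2 | h2
    · exact Or.inl ⟨h3, h2⟩
    · exact Or.inr ⟨h3, h2⟩
  · rintro (⟨h1, h2⟩ | ⟨h1, h2⟩)
    · have h3 : p ∈ CV 2 ∩ CV 3 := by rw [CV23]; exact Or.inl h2
      exact ⟨(CV0_iff (small2 h3.1)).2 h1, h3⟩
    · have h3 : p ∈ CV 2 ∩ CV 3 := by rw [CV23]; exact Or.inr h2
      exact ⟨(CV0_iff (small2 h3.1)).2 h1, h3⟩

lemma CV123 : CV 1 ∩ (CV 2 ∩ CV 3) = ∅ := by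
  rw [eq_empty_iff_forall_notMem]
  rintro p ⟨h1, h2⟩
  have h3 : p ∈ CV 1 ∩ CV 2 := ⟨h1, h2.1⟩
  rw [CV12] at h3
  rw [CV23] at h2
  obtain ⟨h4, -⟩ := h3
  rcases h2 with ⟨h2, -⟩ | ⟨h2, -⟩
  · rw [h4] at h2; norm_num at h2
  · rw [h4] at h2; norm_num at h2

lemma finsets4 : ∀ I : Finset (Fin 4), 2 ≤ I.card → I = {0, 1} ∨ I = {0, 2} ∨ I = {0, 3} ∨
    I = {1, 2} ∨ I = {1, 3} ∨ I = {2, 3} ∨ I = {0, 1, 2} ∨ I = {0, 1, 3} ∨ I = {0, 2, 3} ∨
    I = {1, 2, 3} ∨ I = {0, 1, 2, 3} := by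
  decide

lemma inter_CV (I : Finset (Fin 4)) (hI : 2 ≤ I.card) :
    IsDisjointSphereUnion (4 - I.card) (⋂ i ∈ I, CV i) := by
  have h10 : (0 : ℝ) < 1 := one_pos
  rcases finsets4 I hI with rfl | rfl | rfl | rfl | rfl | rfl | rfl | rfl | rfl | rfl | rfl
  · have e1 : (⋂ i ∈ ({0, 1} : Finset (Fin 4)), CV i) = CV 0 ∩ CV 1 := by simp
    rw [e1, CV01]
    exact (sphere_slice (by norm_num) (by norm_num)).union
  · have e1 : (⋂ i ∈ ({0, 2} : Finset (Fin 4)), CV i) = CV 0 ∩ CV 2 := by simp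
    rw [e1, CV02]
    exact (sphere_slice (by norm_num) (by norm_num)).union
  · have e1 : (⋂ i ∈ ({0, 3} : Finset (Fin 4)), CV i) = CV 0 ∩ CV 3 := by simp
    rw [e1, CV03]
    exact (sphere_slice (by norm_num) (by norm_num)).union
  · have e1 : (⋂ i ∈ ({1, 2} : Finset (Fin 4)), CV i) = CV 1 ∩ CV 2 := by simp
    rw [e1, CV12]
    exact (sphere_axis _ (by norm_num)).union
  · have e1 : (⋂ i ∈ ({1, 3} : Finset (Fin 4)), CV i) = CV 1 ∩ CV 3 := by simp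
    rw [e1, CV13]
    exact (sphere_axis _ (by norm_num)).union
  · have e1 : (⋂ i ∈ ({2, 3} : Finset (Fin 4)), CV i) = CV 2 ∩ CV 3 := by simp
    rw [e1, CV23]
    refine isDisjointSphereUnion_two (sphere_axis (-1) (r := 2) (by norm_num))
      (sphere_axis 1 (r := 2) (by norm_num)) ?_ rfl
    rw [Set.disjoint_left]
    rintro p ⟨h1, -⟩ ⟨h2, -⟩
    rw [h1] at h2; norm_num at h2
  · have e1 : (⋂ i ∈ ({0, 1, 2} : Finset (Fin 4)), CV i) = CV 0 ∩ (CV 1 ∩ CV 2) := by simp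
    rw [e1, CV012]
    exact (circle_axis _ (by norm_num)).union
  · have e1 : (⋂ i ∈ ({0, 1, 3} : Finset (Fin 4)), CV i) = CV 0 ∩ (CV 1 ∩ CV 3) := by simp
    rw [e1, CV013]
    exact (circle_axis _ (by norm_num)).union
  · have e1 : (⋂ i ∈ ({0, 2, 3} : Finset (Fin 4)), CV i) = CV 0 ∩ (CV 2 ∩ CV 3) := by simp
    rw [e1, CV023]
    refine isDisjointSphereUnion_two (circle_axis (-1) (r := 2) (by norm_num))
      (circle_axis 1 (r := 2) (by norm_num)) ?_ rfl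
    rw [Set.disjoint_left]
    rintro p ⟨-, h1, -⟩ ⟨-, h2, -⟩
    rw [h1] at h2; norm_num at h2
  · have e1 : (⋂ i ∈ ({1, 2, 3} : Finset (Fin 4)), CV i) = CV 1 ∩ (CV 2 ∩ CV 3) := by simp
    rw [e1, CV123]
    exact isDisjointSphereUnion_empty _
  · have e1 : (⋂ i ∈ ({0, 1, 2, 3} : Finset (Fin 4)), CV i) =
        CV 0 ∩ (CV 1 ∩ (CV 2 ∩ CV 3)) := by simp
    rw [e1, CV123, inter_empty]
    exact isDisjointSphereUnion_empty _

lemma venn_CV : IsVenn CV ∧ IsSimple CV :=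
  venn_of le_rfl CB_isBody region_CV_homeo inter_CV

end Pool.Agent.H11.Venn
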