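import Mathlib

/-!
# Venn diagrams of `m`-surfaces: definitions
-/

open Set Metric Bornology

namespace Pool.Agent.H11.Venn

/-- The Euclidean space `ℝ^m`. -/
abbrev E (m : ℕ) : Type := EuclideanSpace ℝ (Fin m)

/-- `S ⊆ ℝ^m` is a topological `j`-sphere: it is homeomorphic to the unit sphere of `ℝ^(j+1)`. -/
def IsTopSphere {m : ℕ} (j : ℕ) (S : Set (E m)) : Prop :=
  Nonempty (S ≃ₜ sphere (0 : E (j + 1)) 1)

/-- `S ⊆ ℝ^m` is an `m`-surface: a topological `(m-1)`-sphere. -/
def IsSurface {m : ℕ} (S : Set (E m)) : Prop := IsTopSphere (m - 1) S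

/-- The interior `S^0` of an `m`-surface: the points of the complement of `S` whose connected
component in the complement is bounded. -/
def inside {m : ℕ} (S : Set (E m)) : Set (E m) :=
  {x | x ∈ Sᶜ ∧ IsBounded (connectedComponentIn Sᶜ x)}

/-- The exterior `S^1` of an `m`-surface: the points of the complement of `S` whose connected
component in the complement is unbounded. -/
def outside {m : ℕ} (S : Set (E m)) : Set (E m) :=
  {x | x ∈ Sᶜ ∧ ¬ IsBounded (connectedComponentIn Sᶜ x)}

/-- `S^0` is the interior and `S^1` the exterior of `S`. -/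
def side {m : ℕ} (S : Set (E m)) (b : Fin 2) : Set (E m) :=
  if b = 0 then inside S else outside S

/-- The region `S_1^{ε_1} ∩ ... ∩ S_n^{ε_n}` of a family of surfaces. -/
def region {m n : ℕ} (V : Fin n → Set (E m)) (ε : Fin n → Fin 2) : Set (E m) :=
  ⋂ i, side (V i) (ε i)

/-- `A` is a union of finitely many topological `j`-spheres. -/
def IsSphereUnion {m : ℕ} (j : ℕ) (A : Set (E m)) : Prop :=
  ∃ F : Set (Set (E m)), F.Finite ∧ (∀ S ∈ F, IsTopSphere j S) ∧ ⋃₀ F = A

/-- `A` is a union of finitely many pairwise disjoint topological `j`-spheres. -/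
def IsDisjointSphereUnion {m : ℕ} (j : ℕ) (A : Set (E m)) : Prop :=
  ∃ F : Set (Set (E m)), F.Finite ∧ F.PairwiseDisjoint id ∧ (∀ S ∈ F, IsTopSphere j S) ∧
    ⋃₀ F = A

/-- `V = {V 0, ..., V (n-1)}` is an `m`-dimensional `n`-Venn diagram: every `V i` is an
`m`-surface, each of the `2^n` regions is nonempty, connected and homeomorphic to the interior or
to the exterior of some `m`-surface, and the pairwise intersections of the surfaces are unions of
finitely many topological `(m-2)`-spheres. -/
structure IsVenn {m n : ℕ} (V : Fin n → Set (E m)) : Prop where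
  surface : ∀ i, IsSurface (V i)
  region_nonempty : ∀ ε, (region V ε).Nonempty
  region_connected : ∀ ε, IsConnected (region V ε)
  region_homeo : ∀ ε, ∃ S : Set (E m), IsSurface S ∧
    (Nonempty (region V ε ≃ₜ inside S) ∨ Nonempty (region V ε ≃ₜ outside S))
  inter : ∀ i j, i ≠ j → IsSphereUnion (m - 2) (V i ∩ V j)

/-- `V` is simple: for every `k ≥ 2`, the intersection of `k` surfaces with distinct indices is a
union of finitely many topological `(m-k)`-spheres, and it is empty when `k > m`. -/
def IsSimple {m n : ℕ} (V : Fin n → Set (E m)) : Prop :=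
  ∀ I : Finset (Fin n), 2 ≤ I.card →
    (I.card ≤ m → IsSphereUnion (m - I.card) (⋂ i ∈ I, V i)) ∧
    (m < I.card → (⋂ i ∈ I, V i) = ∅)

/-- The part of the surface `V i` which lies on no other surface of `V`. -/
def free {m n : ℕ} (V : Fin n → Set (E m)) (i : Fin n) : Set (E m) :=
  V i \ ⋃ j ∈ {j : Fin n | j ≠ i}, V j

/-- The edges of `V`: the connected components of the sets `V i \ ⋃_{j ≠ i} V j`. -/
def edges {m n : ℕ} (V : Fin n → Set (E m)) : Set (Set (E m)) :=
  {C | ∃ i : Fin n, ∃ x ∈ free V i, C = connectedComponentIn (free V i) x}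

end Pool.Agent.H11.Venn
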