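import Pool.Agent.H11.Venn.Cyl7

/-!
# Final lemmas
-/

open Set Metric Bornology Topology

namespace Pool.Agent.H11.Venn

lemma same_component {n : ℕ} {B : Fin n → Set (E 4)} (hB : ∀ i, IsBody (B i))
    (hp : ∀ i ε, IsPreconnected (piece (fun i => frontier (B i)) i ε)) (i : Fin n) (x y : E 4)
    (hx : x ∈ free (fun i => frontier (B i)) i) (hy : y ∈ free (fun i => frontier (B i)) i)
    (h : ∀ j, j ≠ i → ∀ b, x ∈ side (frontier (B j)) b → y ∈ side (frontier (B j)) b) :
    connectedComponentIn (free (fun i => frontier (B i)) i) x =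
      connectedComponentIn (free (fun i => frontier (B i)) i) y := by
  obtain ⟨ε, -, hxp⟩ := exists_piece hx
  have hyp : y ∈ piece (fun i => frontier (B i)) i ε :=
    ⟨hy.1, fun j hj => h j hj _ (hxp.2 j hj)⟩
  rw [component_eq_piece hB hp hxp, component_eq_piece hB hp hyp]

end Pool.Agent.H11.Venn
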