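import Pool.Agent.H11.Venn.Basic

/-!
# Radial homeomorphisms
-/

open Set Metric Bornology Topology

namespace Pool.Agent.H11.Venn

/-- A homeomorphism between subsets from two mutually inverse maps. -/
def homeoOn {X Y : Type*} [TopologicalSpace X] [TopologicalSpace Y] {S : Set X} {T : Set Y}
    (f : X → Y) (g : Y → X) (hf : MapsTo f S T) (hg : MapsTo g T S)
    (hgf : ∀ x ∈ S, g (f x) = x) (hfg : ∀ y ∈ T, f (g y) = y)
    (cf : ContinuousOn f S) (cg : ContinuousOn g T) : S ≃ₜ T where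
  toFun := fun x => ⟨f x, hf x.2⟩
  invFun := fun y => ⟨g y, hg y.2⟩
  left_inv := fun x => Subtype.ext (hgf x x.2)
  right_inv := fun y => Subtype.ext (hfg y y.2)
  continuous_toFun := by
    apply Continuous.subtype_mk
    exact continuousOn_iff_continuous_domRestrict.1 cf
  continuous_invFun := by
    apply Continuous.subtype_mk
    exact continuousOn_iff_continuous_domRestrict.1 cg

/-- A continuous positively homogeneous function which is positive away from `0`. -/
structure NormLike {m : ℕ} (g : E m → ℝ) : Prop where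
  cont : Continuous g
  hom : ∀ (t : ℝ) (p : E m), 0 ≤ t → g (t • p) = t * g p
  pos : ∀ p : E m, p ≠ 0 → 0 < g p

namespace NormLike

variable {m : ℕ} {g g₁ g₂ : E m → ℝ}

lemma zero (h : NormLike g) : g 0 = 0 := by
  have := h.hom 0 0 le_rfl
  simpa using this

lemma nonneg (h : NormLike g) (p : E m) : 0 ≤ g p := by
  rcases eq_or_ne p 0 with rfl | hp
  · rw [h.zero]
  · exact (h.pos p hp).le

lemma ne_zero (h : NormLike g) {p : E m} (hp : 0 < g p) : p ≠ 0 := by
  rintro rfl
  rw [h.zero] at hp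
  exact lt_irrefl _ hp

lemma min (h₁ : NormLike g₁) (h₂ : NormLike g₂) : NormLike (fun p => Min.min (g₁ p) (g₂ p)) where
  cont := h₁.cont.min h₂.cont
  hom t p ht := by
    simp only [h₁.hom t p ht, h₂.hom t p ht]
    rw [mul_min_of_nonneg _ _ ht]
  pos p hp := lt_min (h₁.pos p hp) (h₂.pos p hp)

lemma norm : NormLike (fun p : E m => ‖p‖) where
  cont := continuous_norm
  hom t p ht := by rw [norm_smul, Real.norm_of_nonneg ht]
  pos p hp := norm_pos_iff.2 hp

end NormLike

/-- The gauge of a body with respect to one of its points. -/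
lemma IsBody.exists_normLike {m : ℕ} {B : Set (E m)} (h : IsBody B) {c : E m} (hc : c ∈ B) :
    ∃ g : E m → ℝ, NormLike g ∧ (∀ p, c + p ∈ B ↔ g p < 1) ∧
      (∀ p, c + p ∈ closure B ↔ g p ≤ 1) := by
  set f : E m → E m := fun p => c + p with hf
  have hfh : IsHomeomorph f := (Homeomorph.addLeft c).isHomeomorph
  set s : Set (E m) := f ⁻¹' B with hs
  have hs_open : IsOpen s := h.isOpen.preimage hfh.continuous
  have h0 : (0 : E m) ∈ s := by simpa [hs, hf] using hc
  have hs0 : s ∈ 𝓝 (0 : E m) := hs_open.mem_nhds h0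
  have hsc : Convex ℝ s := by
    intro x hx y hy a b ha hb hab
    have := h.convex hx hy ha hb hab
    change c + (a • x + b • y) ∈ B
    convert this using 1
    simp only [hf]
    rw [smul_add, smul_add, add_add_add_comm, ← add_smul, hab, one_smul]
  have hsb : IsBounded s := by
    have : s = (fun p => -c + p) '' B := by
      ext x
      simp only [hs, hf, mem_preimage, mem_image]
      constructor
      · intro hx; exact ⟨c + x, hx, by simp⟩
      · rintro ⟨y, hy, rfl⟩; simpa using hy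
    rw [this]
    exact ((IsometryEquiv.addLeft (-c)).isometry.lipschitz.isBounded_image h.bounded)
  have hcl : f ⁻¹' (closure B) = closure s := by
    rw [hs]
    exact (Homeomorph.addLeft c).preimage_closure B
  refine ⟨gauge s, ⟨?_, ?_, ?_⟩, ?_, ?_⟩
  · exact continuous_gauge hsc hs0
  · intro t p ht
    rw [gauge_smul_of_nonneg ht, smul_eq_mul]
  · intro p hp
    exact (gauge_pos (absorbent_nhds_zero hs0) (NormedSpace.isVonNBounded_of_isBounded _ hsb)).2 hp
  · intro p
    rw [gauge_lt_one_iff_mem_interior hsc hs0, hs_open.interior_eq]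
    rfl
  · intro p
    rw [gauge_le_one_iff_mem_closure hsc hs0, ← hcl]
    rfl

/-- The exterior of a star-shaped set. -/
lemma homeo_exterior {m : ℕ} {G : E m → ℝ} (hG : NormLike G) :
    Nonempty ({p : E m | 1 < G p} ≃ₜ ((closedBall (0 : E m) 1)ᶜ : Set (E m))) := by
  have key : ∀ p : E m, 1 < G p → p ≠ 0 ∧ 0 < G p ∧ 0 < ‖p‖ := by
    intro p hp
    have h1 : p ≠ 0 := hG.ne_zero (by linarith)
    exact ⟨h1, by linarith, norm_pos_iff.2 h1⟩
  have key' : ∀ q ∈ ((closedBall (0 : E m) 1)ᶜ : Set (E m)), 1 < ‖q‖ ∧ q ≠ 0 ∧ 0 < G q := by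
    intro q hq
    rw [mem_compl_iff, mem_closedBall, dist_zero_right, not_le] at hq
    have h1 : q ≠ 0 := norm_pos_iff.1 (by linarith)
    exact ⟨hq, h1, hG.pos q h1⟩
  refine ⟨homeoOn (fun p => (G p / ‖p‖) • p) (fun q => (‖q‖ / G q) • q) ?_ ?_ ?_ ?_ ?_ ?_⟩
  · intro p hp
    obtain ⟨h1, h2, h3⟩ := key p hp
    rw [mem_compl_iff, mem_closedBall, dist_zero_right, not_le, norm_smul,
      Real.norm_of_nonneg (by positivity), div_mul_cancel₀ _ h3.ne']
    exact hp
  · intro q hq
    obtain ⟨h1, h2, h3⟩ := key' q hq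
    change 1 < G ((‖q‖ / G q) • q)
    rw [hG.hom _ _ (by positivity), div_mul_cancel₀ _ h3.ne']
    exact h1
  · intro p hp
    obtain ⟨h1, h2, h3⟩ := key p hp
    rw [hG.hom _ _ (by positivity), norm_smul, Real.norm_of_nonneg (by positivity), smul_smul]
    have : G p / ‖p‖ * ‖p‖ / (G p / ‖p‖ * G p) * (G p / ‖p‖) = 1 := by
      field_simp
    rw [this, one_smul]
  · intro q hq
    obtain ⟨h1, h2, h3⟩ := key' q hq
    have h4 : 0 < ‖q‖ := by linarith
    rw [hG.hom _ _ (by positivity), norm_smul, Real.norm_of_nonneg (by positivity), smul_smul]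
    have : ‖q‖ / G q * G q / (‖q‖ / G q * ‖q‖) * (‖q‖ / G q) = 1 := by
      field_simp
    rw [this, one_smul]
  · refine ContinuousOn.smul (ContinuousOn.div hG.cont.continuousOn
      continuous_norm.continuousOn ?_) continuousOn_id
    intro p hp
    exact (key p hp).2.2.ne'
  · refine ContinuousOn.smul (ContinuousOn.div continuous_norm.continuousOn
      hG.cont.continuousOn ?_) continuousOn_id
    intro p hp
    exact (key' p hp).2.2.ne'

/-- A radial shell over a cone. -/
lemma homeo_shell {m : ℕ} {Gp Gm : E m → ℝ} (hp : NormLike Gp) (hm : NormLike Gm)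
    {K : Set (E m)} (hK : ∀ p ∈ K, ∀ t : ℝ, 0 < t → t • p ∈ K) :
    Nonempty ({p : E m | p ∈ K ∧ Gp p < 1 ∧ 1 < Gm p} ≃ₜ {p : E m | p ∈ K ∧ Gp p < Gm p}) := by
  have key : ∀ p : E m, Gp p < 1 ∧ 1 < Gm p → p ≠ 0 ∧ 0 < ‖p‖ ∧ 0 < 1 - Gp p ∧ 0 < Gm p - 1 ∧
      0 < Gp p := by
    rintro p ⟨h1, h2⟩
    have h3 : p ≠ 0 := hm.ne_zero (by linarith)
    exact ⟨h3, norm_pos_iff.2 h3, by linarith, by linarith, hp.pos p h3⟩
  have key' : ∀ q : E m, Gp q < Gm q → q ≠ 0 ∧ 0 < ‖q‖ ∧ 0 < Gp q ∧ 0 < Gm q ∧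
      0 < Gm q + ‖q‖ * Gp q := by
    intro q h
    have h3 : q ≠ 0 := hm.ne_zero (lt_of_le_of_lt (hp.nonneg q) h)
    have h4 := norm_pos_iff.2 h3
    have h5 := hp.pos q h3
    have h6 := hm.pos q h3
    exact ⟨h3, h4, h5, h6, by positivity⟩
  refine ⟨homeoOn (fun p => ((Gm p - 1) / ((1 - Gp p) * ‖p‖)) • p)
    (fun q => ((1 + ‖q‖) / (Gm q + ‖q‖ * Gp q)) • q) ?_ ?_ ?_ ?_ ?_ ?_⟩
  · rintro p ⟨hpK, h⟩
    obtain ⟨h1, h2, h3, h4, h5⟩ := key p h
    refine ⟨hK p hpK _ (by positivity), ?_⟩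
    rw [hm.hom _ _ (by positivity), hp.hom _ _ (by positivity)]
    have : Gp p < Gm p := by linarith
    have h6 : 0 < (Gm p - 1) / ((1 - Gp p) * ‖p‖) := by positivity
    exact mul_lt_mul_of_pos_left this h6
  · rintro q ⟨hqK, h⟩
    obtain ⟨h1, h2, h3, h4, h5⟩ := key' q h
    refine ⟨hK q hqK _ (by positivity), ?_, ?_⟩
    · rw [hp.hom _ _ (by positivity), div_mul_eq_mul_div, div_lt_one h5]
      nlinarith
    · rw [hm.hom _ _ (by positivity), div_mul_eq_mul_div, one_lt_div h5]
      nlinarith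
  · rintro p ⟨-, h⟩
    obtain ⟨h1, h2, h3, h4, h5⟩ := key p h
    rw [hm.hom _ _ (by positivity), hp.hom _ _ (by positivity), norm_smul,
      Real.norm_of_nonneg (by positivity), smul_smul]
    have e1 : (Gm p - 1) / ((1 - Gp p) * ‖p‖) * ‖p‖ = (Gm p - 1) / (1 - Gp p) := by
      field_simp
    rw [e1]
    have e2 : 1 + (Gm p - 1) / (1 - Gp p) = (Gm p - Gp p) / (1 - Gp p) := by
      field_simp
      ring
    have hne : Gm p - Gp p ≠ 0 := by linarith
    have e3 : (Gm p - 1) / ((1 - Gp p) * ‖p‖) * Gm p + (Gm p - 1) / (1 - Gp p) *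
        ((Gm p - 1) / ((1 - Gp p) * ‖p‖) * Gp p) =
        (Gm p - 1) * (Gm p - Gp p) / ((1 - Gp p) ^ 2 * ‖p‖) := by
      field_simp
      ring
    rw [e2, e3]
    have : (Gm p - Gp p) / (1 - Gp p) / ((Gm p - 1) * (Gm p - Gp p) / ((1 - Gp p) ^ 2 * ‖p‖)) *
        ((Gm p - 1) / ((1 - Gp p) * ‖p‖)) = 1 := by
      field_simp
    rw [this, one_smul]
  · rintro q ⟨-, h⟩
    obtain ⟨h1, h2, h3, h4, h5⟩ := key' q h
    rw [hm.hom _ _ (by positivity), hp.hom _ _ (by positivity), norm_smul,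
      Real.norm_of_nonneg (by positivity), smul_smul]
    have hne : Gm q - Gp q ≠ 0 := by linarith
    have e1 : (1 + ‖q‖) / (Gm q + ‖q‖ * Gp q) * Gm q - 1 =
        ‖q‖ * (Gm q - Gp q) / (Gm q + ‖q‖ * Gp q) := by
      field_simp
      ring
    have e2 : 1 - (1 + ‖q‖) / (Gm q + ‖q‖ * Gp q) * Gp q =
        (Gm q - Gp q) / (Gm q + ‖q‖ * Gp q) := by
      field_simp
      ring
    rw [e1, e2]
    have : ‖q‖ * (Gm q - Gp q) / (Gm q + ‖q‖ * Gp q) /
        ((Gm q - Gp q) / (Gm q + ‖q‖ * Gp q) * ((1 + ‖q‖) / (Gm q + ‖q‖ * Gp q) * ‖q‖)) *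
        ((1 + ‖q‖) / (Gm q + ‖q‖ * Gp q)) = 1 := by
      field_simp
    rw [this, one_smul]
  · refine ContinuousOn.smul (ContinuousOn.div (hm.cont.sub continuous_const).continuousOn
      ((continuous_const.sub hp.cont).mul continuous_norm).continuousOn ?_) continuousOn_id
    rintro p ⟨-, h⟩
    obtain ⟨h1, h2, h3, h4, h5⟩ := key p h
    exact (mul_pos h3 h2).ne'
  · refine ContinuousOn.smul (ContinuousOn.div (continuous_const.add continuous_norm).continuousOn
      (hm.cont.add (continuous_norm.mul hp.cont)).continuousOn ?_) continuousOn_id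
    rintro p ⟨-, h⟩
    exact (key' p h).2.2.2.2.ne'

/-- A set cut out by strict convex inequalities. -/
lemma isBody_of_convex {m : ℕ} {ι : Type*} [Finite ι] (f : ι → E m → ℝ)
    (hc : ∀ i, ConvexOn ℝ univ (f i)) (hcont : ∀ i, Continuous (f i))
    (hne : {p : E m | ∀ i, f i p < 0}.Nonempty) (hb : IsBounded {p : E m | ∀ i, f i p < 0}) :
    IsBody {p : E m | ∀ i, f i p < 0} ∧
      closure {p : E m | ∀ i, f i p < 0} = {p : E m | ∀ i, f i p ≤ 0} := by
  refine ⟨⟨?_, ?_, hne, hb⟩, ?_⟩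
  · have : {p : E m | ∀ i, f i p < 0} = ⋂ i, {p | f i p < 0} := by ext; simp
    rw [this]
    exact isOpen_iInter_of_finite fun i => isOpen_lt (hcont i) continuous_const
  · intro x hx y hy a b ha hb' hab i
    have h1 := (hc i).2 (mem_univ x) (mem_univ y) ha hb' hab
    have hx' := hx i
    have hy' := hy i
    simp only [smul_eq_mul] at h1
    rcases ha.eq_or_lt with rfl | ha'
    · have : b = 1 := by linarith
      subst this
      linarith
    · have : a * f i x < 0 := mul_neg_of_pos_of_neg ha' hx'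
      have : b * f i y ≤ 0 := mul_nonpos_of_nonneg_of_nonpos hb' hy'.le
      linarith
  · apply Subset.antisymm
    · apply closure_minimal
      · intro p hp i
        exact (hp i).le
      · have : {p : E m | ∀ i, f i p ≤ 0} = ⋂ i, {p | f i p ≤ 0} := by ext; simp
        rw [this]
        exact isClosed_iInter fun i => isClosed_le (hcont i) continuous_const
    · intro p hp
      obtain ⟨q, hq⟩ := hne
      have h1 : Filter.Tendsto (fun t : ℝ => (1 - t) • p + t • q) (𝓝[>] 0) (𝓝 p) := by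
        have : Continuous (fun t : ℝ => (1 - t) • p + t • q) := by fun_prop
        have h2 := this.tendsto 0
        simp only [sub_zero, one_smul, zero_smul, add_zero] at h2
        exact h2.mono_left nhdsWithin_le_nhds
      refine mem_closure_of_tendsto h1 ?_
      have h3 : Ioo (0 : ℝ) 1 ∈ 𝓝[>] (0 : ℝ) := Ioo_mem_nhdsGT one_pos
      filter_upwards [h3] with t ht i
      have h4 := (hc i).2 (mem_univ p) (mem_univ q) (by linarith [ht.2] : (0 : ℝ) ≤ 1 - t)
        ht.1.le (by ring)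
      simp only [smul_eq_mul] at h4
      have hp' := hp i
      have hq' := hq i
      have h5 : (1 - t) * f i p ≤ 0 :=
        mul_nonpos_of_nonneg_of_nonpos (by linarith [ht.2]) hp'
      have h6 : t * f i q < 0 := mul_neg_of_pos_of_neg ht.1 hq'
      linarith

end Pool.Agent.H11.Venn
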