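import Pool.Agent.H11.Venn.Count

/-!
# The diagram of four round spheres
-/

open Set Metric Bornology Topology

namespace Pool.Agent.H11.Venn

/-- The positive root of `r^2 - s r - 1`. -/
noncomputable def rt (s : ℝ) : ℝ := (s + Real.sqrt (s ^ 2 + 4)) / 2

lemma continuous_rt : Continuous rt := by unfold rt; fun_prop

lemma rt_pos (s : ℝ) : 0 < rt s := by
  have h : |s| < Real.sqrt (s ^ 2 + 4) := by
    rw [← Real.sqrt_sq_eq_abs]
    exact Real.sqrt_lt_sqrt (sq_nonneg s) (by linarith)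
  have := neg_abs_le s
  unfold rt
  linarith

lemma rt_eq (s : ℝ) : rt s ^ 2 - 1 = rt s * s := by
  have h : Real.sqrt (s ^ 2 + 4) ^ 2 = s ^ 2 + 4 := Real.sq_sqrt (by positivity)
  unfold rt
  nlinarith

lemma rt_unique {r : ℝ} (hr : 0 < r) : rt ((r ^ 2 - 1) / r) = r := by
  have h : ((r ^ 2 - 1) / r) ^ 2 + 4 = ((r ^ 2 + 1) / r) ^ 2 := by
    field_simp
    ring
  unfold rt
  rw [h, Real.sqrt_sq (by positivity)]
  field_simp
  ring

/-- The open balls bounding the round diagram. -/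
def RB (i : Fin 4) : Set (E 4) := {p | ‖p‖ ^ 2 - 1 < p i}

lemma RB_body (i : Fin 4) : IsBody (RB i) ∧ closure (RB i) = {p | ‖p‖ ^ 2 - 1 ≤ p i} := by
  have h := isBody_of_convex (m := 4) (ι := Unit) (fun _ p => ‖p‖ ^ 2 - 1 - p i) ?_ ?_ ?_ ?_
  · have e1 : {p : E 4 | ∀ _ : Unit, ‖p‖ ^ 2 - 1 - p i < 0} = RB i := by
      ext p; simp [RB, sub_neg]
    have e2 : {p : E 4 | ∀ _ : Unit, ‖p‖ ^ 2 - 1 - p i ≤ 0} = {p | ‖p‖ ^ 2 - 1 ≤ p i} := by
      ext p; simp [sub_nonpos]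
    rw [e1, e2] at h
    exact h
  · intro _
    have h1 : ConvexOn ℝ univ (fun p : E 4 => ‖p‖ ^ 2) :=
      (convexOn_norm convex_univ).pow (fun _ _ => norm_nonneg _) 2
    have h2 : ConvexOn ℝ univ (fun p : E 4 => - p i) := by
      refine ⟨convex_univ, fun x _ y _ a b _ _ _ => ?_⟩
      simp only [PiLp.add_apply, PiLp.smul_apply, smul_eq_mul]
      linarith
    have h3 := (h1.add h2).add (convexOn_const (-1 : ℝ) convex_univ)
    refine h3.congr ?_
    intro p _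
    simp only [Pi.add_apply]
    ring
  · intro _
    fun_prop
  · refine ⟨0, fun _ => ?_⟩
    simp
  · rw [isBounded_iff_forall_norm_le]
    refine ⟨2, fun p hp => ?_⟩
    have h1 := hp ()
    have h2 : p i ≤ ‖p‖ := (le_abs_self _).trans (PiLp.norm_apply_le p i)
    by_contra h3
    nlinarith

lemma RB_isBody (i : Fin 4) : IsBody (RB i) := (RB_body i).1

/-- The round spheres `|p|^2 = 1 + p_i`. -/
def RV (i : Fin 4) : Set (E 4) := frontier (RB i)

lemma mem_RV {i : Fin 4} {p : E 4} : p ∈ RV i ↔ ‖p‖ ^ 2 - 1 = p i := by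
  rw [RV, frontier, (RB_isBody i).isOpen.interior_eq, (RB_body i).2]
  simp only [RB, mem_sdiff, mem_ofPred_eq, not_lt]
  constructor
  · rintro ⟨h1, h2⟩; exact le_antisymm h1 h2
  · intro h; exact ⟨h.le, h.ge⟩

lemma mem_side_RV_zero {i : Fin 4} {p : E 4} : p ∈ side (RV i) 0 ↔ ‖p‖ ^ 2 - 1 < p i := by
  rw [RV, side_zero RB_isBody]; rfl

lemma mem_side_RV_one {i : Fin 4} {p : E 4} : p ∈ side (RV i) 1 ↔ p i < ‖p‖ ^ 2 - 1 := by
  rw [RV, side_one RB_isBody, (RB_body i).2, mem_compl_iff, mem_ofPred_eq, not_le]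

/-- Radial homeomorphism from a mixed region onto a cone. -/
lemma homeo_cone {M m : E 4 → ℝ} (hMc : Continuous M) (hmc : Continuous m)
    (hM : ∀ (t : ℝ) (p : E 4), 0 ≤ t → M (t • p) = t * M p)
    (hm : ∀ (t : ℝ) (p : E 4), 0 ≤ t → m (t • p) = t * m p) :
    Nonempty ({p : E 4 | M p < ‖p‖ ^ 2 - 1 ∧ ‖p‖ ^ 2 - 1 < m p} ≃ₜ {q : E 4 | M q < m q}) := by
  have hM0 : M 0 = 0 := by simpa using hM 0 0 le_rfl
  have hm0 : m 0 = 0 := by simpa using hm 0 0 le_rfl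
  have key : ∀ p : E 4, M p < ‖p‖ ^ 2 - 1 ∧ ‖p‖ ^ 2 - 1 < m p →
      p ≠ 0 ∧ 0 < ‖p‖ ∧ 0 < ‖p‖ ^ 2 - 1 - M p ∧ 0 < m p - ‖p‖ ^ 2 + 1 ∧ 0 < m p - M p := by
    rintro p ⟨h1, h2⟩
    have h3 : p ≠ 0 := by
      rintro rfl
      rw [hM0] at h1
      norm_num at h1
    exact ⟨h3, norm_pos_iff.2 h3, by linarith, by linarith, by linarith⟩
  have key' : ∀ q : E 4, M q < m q → q ≠ 0 ∧ 0 < ‖q‖ := by
    intro q h
    have h3 : q ≠ 0 := by
      rintro rfl
      rw [hM0, hm0] at h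
      exact lt_irrefl _ h
    exact ⟨h3, norm_pos_iff.2 h3⟩
  refine ⟨homeoOn
    (fun p => ((‖p‖ ^ 2 - 1 - M p) / ((m p - ‖p‖ ^ 2 + 1) * ‖p‖)) • p)
    (fun q => (rt ((M q + ‖q‖ * m q) / (‖q‖ * (1 + ‖q‖))) / ‖q‖) • q) ?_ ?_ ?_ ?_ ?_ ?_⟩
  · intro p h
    obtain ⟨h1, h2, h3, h4, h5⟩ := key p h
    change M _ < m _
    rw [hM _ _ (by positivity), hm _ _ (by positivity)]
    have h6 : 0 < (‖p‖ ^ 2 - 1 - M p) / ((m p - ‖p‖ ^ 2 + 1) * ‖p‖) := by positivity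
    exact mul_lt_mul_of_pos_left (by linarith) h6
  · intro q h
    obtain ⟨h1, h2⟩ := key' q h
    have h' : M q < m q := h
    set s : ℝ := (M q + ‖q‖ * m q) / (‖q‖ * (1 + ‖q‖)) with hs
    have h3 := rt_pos s
    have h4 := rt_eq s
    have hr : ‖(rt s / ‖q‖) • q‖ = rt s := by
      rw [norm_smul, Real.norm_of_nonneg (by positivity), div_mul_cancel₀ _ h2.ne']
    change M ((rt s / ‖q‖) • q) < ‖(rt s / ‖q‖) • q‖ ^ 2 - 1 ∧
      ‖(rt s / ‖q‖) • q‖ ^ 2 - 1 < m ((rt s / ‖q‖) • q)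
    rw [hr, hM _ _ (by positivity), hm _ _ (by positivity), h4]
    have e1 : M q / ‖q‖ < s := by
      rw [hs, div_lt_div_iff₀ h2 (by positivity)]
      nlinarith [mul_pos h2 h2]
    have e2 : s < m q / ‖q‖ := by
      rw [hs, div_lt_div_iff₀ (by positivity) h2]
      nlinarith [mul_pos h2 h2]
    constructor
    · calc rt s / ‖q‖ * M q = rt s * (M q / ‖q‖) := by ring
        _ < rt s * s := mul_lt_mul_of_pos_left e1 h3
    · calc rt s * s < rt s * (m q / ‖q‖) := mul_lt_mul_of_pos_left e2 h3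
        _ = rt s / ‖q‖ * m q := by ring
  · intro p h
    obtain ⟨h1, h2, h3, h4, h5⟩ := key p h
    set ν : ℝ := (‖p‖ ^ 2 - 1 - M p) / ((m p - ‖p‖ ^ 2 + 1) * ‖p‖) with hν
    have hν0 : 0 < ν := by positivity
    have hn : ‖ν • p‖ = ν * ‖p‖ := by
      rw [norm_smul, Real.norm_of_nonneg hν0.le]
    simp only [hn]
    rw [hM _ _ hν0.le, hm _ _ hν0.le, smul_smul]
    have e0 : ν * ‖p‖ = (‖p‖ ^ 2 - 1 - M p) / (m p - ‖p‖ ^ 2 + 1) := by
      rw [hν]; field_simp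
    have e1 : (ν * M p + ν * ‖p‖ * (ν * m p)) / (ν * ‖p‖ * (1 + ν * ‖p‖)) =
        (‖p‖ ^ 2 - 1) / ‖p‖ := by
      have : (ν * M p + ν * ‖p‖ * (ν * m p)) / (ν * ‖p‖ * (1 + ν * ‖p‖)) =
          (M p + (ν * ‖p‖) * m p) / (‖p‖ * (1 + ν * ‖p‖)) := by
        field_simp
      rw [this, e0]
      have h6 : 1 + (‖p‖ ^ 2 - 1 - M p) / (m p - ‖p‖ ^ 2 + 1) =
          (m p - M p) / (m p - ‖p‖ ^ 2 + 1) := by
        field_simp
        ring
      rw [h6]
      field_simp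
      ring
    rw [e1, rt_unique h2]
    have : ‖p‖ / (ν * ‖p‖) * ν = 1 := by field_simp
    rw [this, one_smul]
  · intro q h
    obtain ⟨h1, h2⟩ := key' q h
    have h' : M q < m q := h
    set s : ℝ := (M q + ‖q‖ * m q) / (‖q‖ * (1 + ‖q‖)) with hs
    have h3 := rt_pos s
    have h4 := rt_eq s
    have hr : ‖(rt s / ‖q‖) • q‖ = rt s := by
      rw [norm_smul, Real.norm_of_nonneg (by positivity), div_mul_cancel₀ _ h2.ne']
    simp only [hr]
    rw [hM _ _ (by positivity), hm _ _ (by positivity), smul_smul]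
    have e1 : rt s ^ 2 - 1 - rt s / ‖q‖ * M q = rt s * ‖q‖ * (m q - M q) /
        (‖q‖ * (1 + ‖q‖)) := by
      rw [h4, hs]; field_simp; ring
    have e2 : rt s / ‖q‖ * m q - rt s ^ 2 + 1 = rt s * (m q - M q) / (‖q‖ * (1 + ‖q‖)) := by
      have : rt s / ‖q‖ * m q - rt s ^ 2 + 1 = rt s / ‖q‖ * m q - (rt s ^ 2 - 1) := by ring
      rw [this, h4, hs]; field_simp; ring
    rw [e1, e2]
    have h7 : m q - M q ≠ 0 := by linarith
    have : rt s * ‖q‖ * (m q - M q) / (‖q‖ * (1 + ‖q‖)) /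
        (rt s * (m q - M q) / (‖q‖ * (1 + ‖q‖)) * rt s) * (rt s / ‖q‖) = 1 := by
      field_simp
    rw [this, one_smul]
  · have c1 : Continuous fun p : E 4 => ‖p‖ ^ 2 - 1 - M p := by fun_prop
    have c2 : Continuous fun p : E 4 => (m p - ‖p‖ ^ 2 + 1) * ‖p‖ := by fun_prop
    refine ContinuousOn.smul (c1.continuousOn.div c2.continuousOn ?_) continuousOn_id
    intro p h
    obtain ⟨h1, h2, h3, h4, h5⟩ := key p h
    exact (mul_pos h4 h2).ne'
  · refine ContinuousOn.smul (ContinuousOn.div ?_ continuous_norm.continuousOn ?_)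
      continuousOn_id
    · have c1 : Continuous fun q : E 4 => M q + ‖q‖ * m q := by fun_prop
      have c2 : Continuous fun q : E 4 => ‖q‖ * (1 + ‖q‖) := by fun_prop
      refine continuous_rt.comp_continuousOn (c1.continuousOn.div c2.continuousOn ?_)
      intro q h
      obtain ⟨h1, h2⟩ := key' q h
      positivity
    · intro q h
      exact (key' q h).2.ne'

end Pool.Agent.H11.Venn
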