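import Pool.Agent.H11.Venn.Round

/-!
# The diagram of four round spheres: regions, edges, intersections
-/

open Set Metric Bornology Topology

namespace Pool.Agent.H11.Venn

section cone

variable (I : Finset (Fin 4)) (hI : I.Nonempty) (hJ : Iᶜ.Nonempty)

/-- minimum of the coordinates in `I` -/
noncomputable def mi (q : E 4) : ℝ := I.inf' hI (fun i => q i)

/-- maximum of the coordinates outside `I` -/
noncomputable def ma (q : E 4) : ℝ := Iᶜ.sup' hJ (fun i => q i)

lemma continuous_mi : Continuous (mi I hI) := by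
  unfold mi
  exact Continuous.finset_inf'_apply hI (fun i _ => by fun_prop)

lemma continuous_ma : Continuous (ma I hJ) := by
  unfold ma
  exact Continuous.finset_sup'_apply hJ (fun i _ => by fun_prop)

lemma mi_smul (t : ℝ) (p : E 4) (ht : 0 ≤ t) : mi I hI (t • p) = t * mi I hI p := by
  unfold mi
  rw [Finset.apply_inf'_eq_inf'_comp hI (fun x => t * x) (fun x y => mul_min_of_nonneg x y ht)]
  rfl

lemma ma_smul (t : ℝ) (p : E 4) (ht : 0 ≤ t) : ma I hJ (t • p) = t * ma I hJ p := by
  unfold ma
  rw [Finset.apply_sup'_eq_sup'_comp hJ (fun x => t * x) (fun x y => mul_max_of_nonneg x y ht)]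
  rfl

/-- indicator vector of `I` -/
noncomputable def ind : E 4 := WithLp.toLp 2 (fun i => if i ∈ I then (1 : ℝ) else 0)

lemma mi_add (q : E 4) (c : ℝ) : mi I hI (q + c • ind I) = mi I hI q + c := by
  unfold mi
  rw [Finset.apply_inf'_eq_inf'_comp hI (fun x => x + c) (fun x y => min_add_add_right x y c |>.symm)]
  apply Finset.inf'_congr hI rfl
  intro i hi
  simp [ind, hi]

lemma ma_add (q : E 4) (c : ℝ) : ma I hJ (q + c • ind I) = ma I hJ q := by
  unfold ma
  apply Finset.sup'_congr hJ rfl
  intro i hi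
  rw [Finset.mem_compl] at hi
  simp [ind, hi]

lemma homeo_cone_full : Nonempty ({q : E 4 | ma I hJ q < mi I hI q} ≃ₜ E 4) := by
  have e : Nonempty ({q : E 4 | ma I hJ q < mi I hI q} ≃ₜ (univ : Set (E 4))) := by
    refine ⟨homeoOn
      (fun q => q + (Real.log (mi I hI q - ma I hJ q) - (mi I hI q - ma I hJ q)) • ind I)
      (fun v => v + (Real.exp (mi I hI v - ma I hJ v) - (mi I hI v - ma I hJ v)) • ind I)
      ?_ ?_ ?_ ?_ ?_ ?_⟩
    · intro q _; exact mem_univ _
    · intro v _
      change ma I hJ _ < mi I hI _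
      rw [ma_add, mi_add]
      have := Real.exp_pos (mi I hI v - ma I hJ v)
      linarith
    · intro q hq
      have hq' : 0 < mi I hI q - ma I hJ q := sub_pos.2 hq
      rw [ma_add, mi_add]
      have h1 : mi I hI q + (Real.log (mi I hI q - ma I hJ q) - (mi I hI q - ma I hJ q)) -
          ma I hJ q = Real.log (mi I hI q - ma I hJ q) := by ring
      rw [h1, Real.exp_log hq', add_assoc, ← add_smul]
      have h2 : Real.log (mi I hI q - ma I hJ q) - (mi I hI q - ma I hJ q) +
        (mi I hI q - ma I hJ q - Real.log (mi I hI q - ma I hJ q)) = 0 := by ring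
      rw [h2, zero_smul, add_zero]
    · intro v _
      rw [ma_add, mi_add]
      have h1 : mi I hI v + (Real.exp (mi I hI v - ma I hJ v) - (mi I hI v - ma I hJ v)) -
          ma I hJ v = Real.exp (mi I hI v - ma I hJ v) := by ring
      rw [h1, Real.log_exp, add_assoc, ← add_smul]
      have h2 : Real.exp (mi I hI v - ma I hJ v) - (mi I hI v - ma I hJ v) +
        (mi I hI v - ma I hJ v - Real.exp (mi I hI v - ma I hJ v)) = 0 := by ring
      rw [h2, zero_smul, add_zero]
    · have c1 := continuous_mi I hI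
      have c2 := continuous_ma I hJ
      refine continuousOn_id.add (ContinuousOn.smul (ContinuousOn.sub
        (ContinuousOn.log (c1.sub c2).continuousOn ?_) (c1.sub c2).continuousOn)
        continuousOn_const)
      intro q hq
      exact (sub_pos.2 hq).ne'
    · have c1 := continuous_mi I hI
      have c2 := continuous_ma I hJ
      fun_prop
  obtain ⟨e⟩ := e
  exact ⟨e.trans (Homeomorph.Set.univ _)⟩

end cone

lemma mem_region_RV {ε : Fin 4 → Fin 2} {p : E 4} : p ∈ region RV ε ↔
    ∀ i, (ε i = 0 → ‖p‖ ^ 2 - 1 < p i) ∧ (ε i = 1 → p i < ‖p‖ ^ 2 - 1) := by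
  rw [region, mem_iInter]
  refine forall_congr' fun i => ?_
  rcases fin2_cases (ε i) with h | h
  · rw [h, mem_side_RV_zero]; simp
  · rw [h, mem_side_RV_one]; simp

lemma region_RV_homeo (ε : Fin 4 → Fin 2) : Nonempty (region RV ε ≃ₜ E 4) ∨
    Nonempty (region RV ε ≃ₜ ((closedBall (0 : E 4) 1)ᶜ : Set (E 4))) := by
  classical
  set I : Finset (Fin 4) := Finset.univ.filter (fun i => ε i = 0) with hIdef
  by_cases hI : I.Nonempty
  · left
    by_cases hJ : Iᶜ.Nonempty
    · obtain ⟨e1⟩ := homeo_cone (continuous_ma I hJ) (continuous_mi I hI) (ma_smul I hJ)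
        (mi_smul I hI)
      obtain ⟨e2⟩ := homeo_cone_full I hI hJ
      have : region RV ε = {p : E 4 | ma I hJ p < ‖p‖ ^ 2 - 1 ∧ ‖p‖ ^ 2 - 1 < mi I hI p} := by
        ext p
        rw [mem_region_RV]
        simp only [ma, mi, mem_ofPred_eq, Finset.sup'_lt_iff, Finset.lt_inf'_iff]
        constructor
        · intro h
          refine ⟨fun i hi => (h i).2 ?_, fun i hi => (h i).1 ?_⟩
          · rw [Finset.mem_compl, hIdef, Finset.mem_filter] at hi
            rcases fin2_cases (ε i) with h' | h'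
            · exact absurd ⟨Finset.mem_univ _, h'⟩ hi
            · exact h'
          · rw [hIdef, Finset.mem_filter] at hi
            exact hi.2
        · rintro ⟨h1, h2⟩ i
          refine ⟨fun h => h2 i ?_, fun h => h1 i ?_⟩
          · rw [hIdef, Finset.mem_filter]; exact ⟨Finset.mem_univ _, h⟩
          · rw [Finset.mem_compl, hIdef, Finset.mem_filter, h]
            simp
      rw [this]
      exact ⟨e1.trans e2⟩
    · have hall : ∀ i, ε i = 0 := by
        intro i
        rw [Finset.not_nonempty_iff_eq_empty, Finset.compl_eq_empty_iff] at hJ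
        have : i ∈ I := by rw [hJ]; exact Finset.mem_univ _
        rw [hIdef, Finset.mem_filter] at this
        exact this.2
      have : region RV ε = ⋂ i, RB i := by
        ext p
        rw [mem_region_RV, mem_iInter]
        refine forall_congr' fun i => ?_
        simp [hall i, RB]
      rw [this]
      refine nonempty_homeo_of_convex ?_ ?_ ?_ ?_
      · exact isOpen_iInter_of_finite fun i => (RB_isBody i).isOpen
      · exact convex_iInter fun i => (RB_isBody i).convex
      · refine ⟨0, mem_iInter.2 fun i => ?_⟩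
        simp [RB]
      · exact (RB_isBody 0).bounded.subset (iInter_subset _ _)
  · right
    have hall : ∀ i, ε i = 1 := by
      intro i
      rcases fin2_cases (ε i) with h' | h'
      · exact absurd ⟨i, by rw [hIdef, Finset.mem_filter]; exact ⟨Finset.mem_univ _, h'⟩⟩ hI
      · exact h'
    have h0 : ∀ i, (0 : E 4) ∈ RB i := fun i => by simp [RB]
    choose g hg1 hg2 hg3 using fun i => (RB_isBody i).exists_normLike (h0 i)
    have hG := ((hg1 0).min (hg1 1)).min ((hg1 2).min (hg1 3))
    have : region RV ε =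
        {p : E 4 | 1 < Min.min (Min.min (g 0 p) (g 1 p)) (Min.min (g 2 p) (g 3 p))} := by
      ext p
      rw [mem_region_RV]
      simp only [mem_ofPred_eq, lt_min_iff]
      have h4 : ∀ i, p i < ‖p‖ ^ 2 - 1 ↔ 1 < g i p := by
        intro i
        have h5 := (hg3 i p).not
        rw [zero_add, (RB_body i).2] at h5
        simp only [mem_ofPred_eq, not_le] at h5
        exact h5
      constructor
      · intro h
        exact ⟨⟨(h4 0).1 ((h 0).2 (hall 0)), (h4 1).1 ((h 1).2 (hall 1))⟩,
          ⟨(h4 2).1 ((h 2).2 (hall 2)), (h4 3).1 ((h 3).2 (hall 3))⟩⟩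
      · rintro ⟨⟨a0, a1⟩, a2, a3⟩ i
        refine ⟨fun h => absurd (h.symm.trans (hall i)) (by decide), fun _ => ?_⟩
        rw [h4]
        fin_cases i
        · exact a0
        · exact a1
        · exact a2
        · exact a3
    rw [this]
    exact homeo_exterior hG

/-! ### Edges -/

lemma mem_piece_RV {i : Fin 4} {ε : Fin 4 → Fin 2} {p : E 4} : p ∈ piece RV i ε ↔
    ‖p‖ ^ 2 - 1 = p i ∧ ∀ j, j ≠ i → (ε j = 0 → p i < p j) ∧ (ε j = 1 → p j < p i) := by
  simp only [piece, mem_ofPred_eq, mem_RV]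
  constructor
  · rintro ⟨h1, h2⟩
    refine ⟨h1, fun j hj => ?_⟩
    have h3 := h2 j hj
    rcases fin2_cases (ε j) with h | h
    · rw [h, mem_side_RV_zero] at h3
      exact ⟨fun _ => h1 ▸ h3, fun h' => absurd (h.symm.trans h') (by decide)⟩
    · rw [h, mem_side_RV_one] at h3
      exact ⟨fun h' => absurd (h.symm.trans h') (by decide), fun _ => h1 ▸ h3⟩
  · rintro ⟨h1, h2⟩
    refine ⟨h1, fun j hj => ?_⟩
    have h3 := h2 j hj
    rcases fin2_cases (ε j) with h | h
    · rw [h, mem_side_RV_zero, h1]; exact h3.1 h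
    · rw [h, mem_side_RV_one, h1]; exact h3.2 h

/-- The cone over a piece. -/
def pcone (i : Fin 4) (ε : Fin 4 → Fin 2) : Set (E 4) :=
  {q | ∀ j, j ≠ i → (ε j = 0 → q i < q j) ∧ (ε j = 1 → q j < q i)}

lemma pcone_ne_zero {i : Fin 4} {ε : Fin 4 → Fin 2} {q : E 4} (hq : q ∈ pcone i ε) : q ≠ 0 := by
  rintro rfl
  obtain ⟨j, hj⟩ : ∃ j : Fin 4, j ≠ i := by
    have : ∀ i : Fin 4, ∃ j : Fin 4, j ≠ i := by decide
    exact this i
  have h := hq j hj
  rcases fin2_cases (ε j) with h' | h'
  · exact absurd (h.1 h') (by simp)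
  · exact absurd (h.2 h') (by simp)

lemma convex_pcone (i : Fin 4) (ε : Fin 4 → Fin 2) : Convex ℝ (pcone i ε) := by
  intro x hx y hy a b ha hb hab j hj
  have h1 := hx j hj
  have h2 := hy j hj
  simp only [PiLp.add_apply, PiLp.smul_apply, smul_eq_mul]
  constructor
  · intro h
    have h3 := h1.1 h
    have h4 := h2.1 h
    rcases ha.eq_or_lt with rfl | ha'
    · have : b = 1 := by linarith
      subst this; linarith
    · nlinarith
  · intro h
    have h3 := h1.2 h
    have h4 := h2.2 h
    rcases ha.eq_or_lt with rfl | ha'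
    · have : b = 1 := by linarith
      subst this; linarith
    · nlinarith

lemma piece_RV_eq (i : Fin 4) (ε : Fin 4 → Fin 2) :
    piece RV i ε = (fun q : E 4 => (rt (q i / ‖q‖) / ‖q‖) • q) '' pcone i ε := by
  ext p
  rw [mem_piece_RV]
  constructor
  · rintro ⟨h1, h2⟩
    have hp : p ≠ 0 := pcone_ne_zero (i := i) (ε := ε) h2
    have hp' := norm_pos_iff.2 hp
    refine ⟨p, h2, ?_⟩
    simp only
    rw [← h1, rt_unique hp', div_self hp'.ne', one_smul]
  · rintro ⟨q, hq, rfl⟩
    have hq0 := pcone_ne_zero hq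
    have hq' := norm_pos_iff.2 hq0
    have h3 := rt_pos (q i / ‖q‖)
    have hc : 0 < rt (q i / ‖q‖) / ‖q‖ := by positivity
    have hn : ‖(rt (q i / ‖q‖) / ‖q‖) • q‖ = rt (q i / ‖q‖) := by
      rw [norm_smul, Real.norm_of_nonneg hc.le, div_mul_cancel₀ _ hq'.ne']
    simp only [hn, PiLp.smul_apply, smul_eq_mul]
    refine ⟨?_, fun j hj => ?_⟩
    · rw [rt_eq]; ring
    · have := hq j hj
      exact ⟨fun h => mul_lt_mul_of_pos_left (this.1 h) hc,
        fun h => mul_lt_mul_of_pos_left (this.2 h) hc⟩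

lemma isPreconnected_piece_RV (i : Fin 4) (ε : Fin 4 → Fin 2) :
    IsPreconnected (piece RV i ε) := by
  rw [piece_RV_eq]
  refine (convex_pcone i ε).isPreconnected.image _ ?_
  have hn : ∀ q ∈ pcone i ε, ‖q‖ ≠ 0 := fun q hq => (norm_pos_iff.2 (pcone_ne_zero hq)).ne'
  have c1 : Continuous fun q : E 4 => q i := by fun_prop
  refine ContinuousOn.smul (ContinuousOn.div ?_ continuous_norm.continuousOn hn) continuousOn_id
  exact continuous_rt.comp_continuousOn
    (c1.continuousOn.div continuous_norm.continuousOn hn)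

lemma nonempty_piece_RV (i : Fin 4) (ε : Fin 4 → Fin 2) : (piece RV i ε).Nonempty := by
  rw [piece_RV_eq]
  refine Set.Nonempty.image _ ⟨WithLp.toLp 2 (fun j => if j = i then 0 else
    if ε j = 0 then 1 else -1), fun j hj => ?_⟩
  simp only [if_pos, if_neg hj]
  constructor
  · intro h; simp [h]
  · intro h; simp [h]

lemma encard_edges_RV : (edges RV).encard = 32 := by
  have h := encard_edges RB_isBody isPreconnected_piece_RV
  have h1 : (edges RV).encard = _ := h
  rw [h1]
  have h2 : {q : Fin 4 × (Fin 4 → Fin 2) | q.2 q.1 = 0 ∧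
        (piece (fun i => frontier (RB i)) q.1 q.2).Nonempty} =
      ((Finset.univ.filter fun q : Fin 4 × (Fin 4 → Fin 2) => q.2 q.1 = 0 :
        Finset (Fin 4 × (Fin 4 → Fin 2))) : Set (Fin 4 × (Fin 4 → Fin 2))) := by
    ext q
    simp only [mem_ofPred_eq, Finset.coe_filter, Finset.mem_univ, true_and]
    exact ⟨fun h => h.1, fun h => ⟨h, nonempty_piece_RV _ _⟩⟩
  rw [h2, Set.encard_coe_eq_coe_finsetCard]
  have : (Finset.univ.filter fun q : Fin 4 × (Fin 4 → Fin 2) => q.2 q.1 = 0).card = 32 := by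
    decide +kernel
  rw [this]
  rfl

end Pool.Agent.H11.Venn
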