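import Pool.Agent.H11.Venn.Round2

/-!
# The diagram of four round spheres: intersections
-/

open Set Metric Bornology Topology

namespace Pool.Agent.H11.Venn

lemma isDisjointSphereUnion_empty {m : ℕ} (j : ℕ) :
    IsDisjointSphereUnion j (∅ : Set (E m)) :=
  ⟨∅, finite_empty, pairwiseDisjoint_empty, fun _ h => absurd h (notMem_empty _), sUnion_empty⟩

lemma IsTopSphere.union {m j : ℕ} {A : Set (E m)} (h : IsTopSphere j A) :
    IsDisjointSphereUnion j A :=
  ⟨{A}, finite_singleton _, pairwiseDisjoint_singleton _ _, by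
    intro S hS; rw [mem_singleton_iff.1 hS]; exact h, sUnion_singleton _⟩

lemma isDisjointSphereUnion_two {m j : ℕ} {A B C : Set (E m)} (hA : IsTopSphere j A)
    (hB : IsTopSphere j B) (hd : Disjoint A B) (hC : C = A ∪ B) :
    IsDisjointSphereUnion j C := by
  refine ⟨{A, B}, by simp, ?_, ?_, by rw [sUnion_pair, hC]⟩
  · intro S hS T hT hne
    simp only [mem_insert_iff, mem_singleton_iff] at hS hT
    rcases hS with rfl | rfl <;> rcases hT with rfl | rfl
    · exact absurd rfl hne
    · exact hd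
    · exact hd.symm
    · exact absurd rfl hne
  · intro S hS
    simp only [mem_insert_iff, mem_singleton_iff] at hS
    rcases hS with rfl | rfl
    · exact hA
    · exact hB

section

variable (I : Finset (Fin 4)) (i0 : Fin 4)

/-- differences of the coordinates in `I` -/
noncomputable def dif : E 4 →ₗ[ℝ] (↥(I.erase i0) → ℝ) where
  toFun p := fun j => p j - p i0
  map_add' p q := by
    funext j
    simp only [PiLp.add_apply, Pi.add_apply]
    ring
  map_smul' c p := by
    funext j
    simp only [PiLp.smul_apply, Pi.smul_apply, smul_eq_mul, RingHom.id_apply]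
    ring

lemma dif_surj : Function.Surjective (dif I i0) := by
  intro w
  refine ⟨WithLp.toLp 2 (fun j => if h : j ∈ I.erase i0 then w ⟨j, h⟩ else 0), ?_⟩
  funext j
  have h1 : i0 ∉ I.erase i0 := by simp
  change (if h : (j : Fin 4) ∈ I.erase i0 then w ⟨j, h⟩ else 0) -
    (if h : i0 ∈ I.erase i0 then w ⟨i0, h⟩ else 0) = w j
  rw [dif_pos j.2, dif_neg h1, sub_zero]

lemma finrank_ker (h0 : i0 ∈ I) : Module.finrank ℝ (LinearMap.ker (dif I i0)) = (4 - I.card) + 1 := by
  have h1 := (dif I i0).finrank_range_add_finrank_ker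
  rw [LinearMap.range_eq_top.2 (dif_surj I i0), finrank_top, Module.finrank_fintype_fun_eq_card,
    finrank_euclideanSpace_fin, Fintype.card_coe, Finset.card_erase_of_mem h0] at h1
  have h2 : 0 < I.card := Finset.card_pos.2 ⟨i0, h0⟩
  have h3 : I.card ≤ 4 := by simpa using Finset.card_le_univ I
  omega

lemma mem_ker {p : E 4} : p ∈ LinearMap.ker (dif I i0) ↔ ∀ j ∈ I, p j = p i0 := by
  rw [LinearMap.mem_ker]
  constructor
  · intro h j hj
    by_cases hji : j = i0
    · rw [hji]
    · have := congrFun h ⟨j, Finset.mem_erase.2 ⟨hji, hj⟩⟩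
      exact sub_eq_zero.1 this
  · intro h
    funext j
    exact sub_eq_zero.2 (h j (Finset.mem_of_mem_erase j.2))

lemma norm_sub_ind (h0 : i0 ∈ I) {p : E 4} (hp : ∀ j ∈ I, p j = p i0) :
    ‖p - (1 / (2 * (I.card : ℝ))) • ind I‖ ^ 2 = ‖p‖ ^ 2 - p i0 + 1 / (4 * (I.card : ℝ)) := by
  have hk : (0 : ℝ) < I.card := by exact_mod_cast Finset.card_pos.2 ⟨i0, h0⟩
  set a : ℝ := 1 / (2 * (I.card : ℝ)) with ha
  rw [EuclideanSpace.norm_sq_eq, EuclideanSpace.norm_sq_eq]
  have h1 : ∀ j : Fin 4, ‖(p - a • ind I) j‖ ^ 2 =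
      ‖p j‖ ^ 2 + (if j ∈ I then (- 2 * a * p i0 + a ^ 2) else 0) := by
    intro j
    rw [PiLp.sub_apply, PiLp.smul_apply, Real.norm_eq_abs, sq_abs, Real.norm_eq_abs, sq_abs]
    by_cases hj : j ∈ I
    · have : (ind I) j = 1 := by simp [ind, hj]
      rw [this, if_pos hj, hp j hj, smul_eq_mul]
      ring
    · have : (ind I) j = 0 := by simp [ind, hj]
      rw [this, if_neg hj, smul_eq_mul]
      ring
  rw [Finset.sum_congr rfl (fun j _ => h1 j), Finset.sum_add_distrib, ← Finset.sum_filter]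
  simp only [Finset.sum_const, nsmul_eq_mul]
  have h2 : (Finset.univ.filter fun j => j ∈ I) = I := by ext; simp
  rw [h2, ha]
  field_simp
  ring

end

lemma inter_RV (I : Finset (Fin 4)) (hI : 2 ≤ I.card) :
    IsTopSphere (4 - I.card) (⋂ i ∈ I, RV i) := by
  obtain ⟨i0, h0⟩ : I.Nonempty := Finset.card_pos.1 (by omega)
  have hk : (0 : ℝ) < I.card := by exact_mod_cast Finset.card_pos.2 ⟨i0, h0⟩
  set W : Submodule ℝ (E 4) := LinearMap.ker (dif I i0) with hW
  have hfr := finrank_ker I i0 h0
  let b := (stdOrthonormalBasis ℝ W).reindex (finCongr hfr)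
  let L : W ≃ₗᵢ[ℝ] E ((4 - I.card) + 1) := b.repr
  set c : E 4 := (1 / (2 * (I.card : ℝ))) • ind I with hc
  have hcW : c ∈ W := by
    rw [mem_ker]
    intro j hj
    simp [hc, ind, hj, h0]
  set R : ℝ := Real.sqrt (1 + 1 / (4 * (I.card : ℝ))) with hR
  have hR2 : R ^ 2 = 1 + 1 / (4 * (I.card : ℝ)) := Real.sq_sqrt (by positivity)
  have hRpos : 0 < R := Real.sqrt_pos.2 (by positivity)
  have key : (⋂ i ∈ I, RV i) =
      (fun q => c + R • ((L.symm q : W) : E 4)) '' sphere (0 : E ((4 - I.card) + 1)) 1 := by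
    ext p
    rw [mem_iInter₂]
    constructor
    · intro h
      have hp : ∀ j ∈ I, p j = p i0 := by
        intro j hj
        have h1 := (mem_RV).1 (h j hj)
        have h2 := (mem_RV).1 (h i0 h0)
        rw [← h1, ← h2]
      have h2 := (mem_RV).1 (h i0 h0)
      have hpW : p ∈ W := (mem_ker I i0).2 hp
      have h3 := norm_sub_ind I i0 h0 hp
      rw [← hc] at h3
      have h4 : ‖p - c‖ ^ 2 = R ^ 2 := by rw [h3, hR2]; linarith
      have h5 : ‖p - c‖ = R := (sq_eq_sq₀ (norm_nonneg _) hRpos.le).1 h4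
      refine ⟨L (R⁻¹ • ⟨p - c, W.sub_mem hpW hcW⟩), ?_, ?_⟩
      · rw [mem_sphere_zero_iff_norm, L.norm_map, norm_smul, norm_inv,
          Real.norm_of_nonneg hRpos.le]
        change R⁻¹ * ‖p - c‖ = 1
        rw [h5, inv_mul_cancel₀ hRpos.ne']
      · simp only [L.symm_apply_apply]
        change c + R • (R⁻¹ • (p - c)) = p
        rw [smul_smul, mul_inv_cancel₀ hRpos.ne', one_smul]
        abel
    · rintro ⟨q, hq, rfl⟩ i hi
      rw [mem_sphere_zero_iff_norm] at hq
      set w : W := L.symm q with hw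
      have hwn : ‖(w : E 4)‖ = 1 := by
        rw [← hq, ← L.symm.norm_map q]
        rfl
      set p : E 4 := c + R • (w : E 4) with hpdef
      have hpW : p ∈ W := W.add_mem hcW (W.smul_mem _ w.2)
      have hp := (mem_ker I i0).1 hpW
      have h3 := norm_sub_ind I i0 h0 hp
      rw [← hc] at h3
      have h4 : p - c = R • (w : E 4) := by rw [hpdef]; abel
      rw [h4, norm_smul, hwn, mul_one, Real.norm_of_nonneg hRpos.le, hR2] at h3
      change p ∈ RV i
      rw [mem_RV, hp i hi]
      linarith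
  rw [key]
  refine (isTopSphere_unit (4 - I.card)).image ?_ ?_
  · apply Continuous.continuousOn
    exact continuous_const.add ((continuous_subtype_val.comp L.symm.continuous).const_smul R)
  · intro q _ q' _ h
    simp only at h
    have h1 : R • ((L.symm q : W) : E 4) = R • ((L.symm q' : W) : E 4) := add_left_cancel h
    have h2 : ((L.symm q : W) : E 4) = ((L.symm q' : W) : E 4) :=
      (smul_right_injective (E 4) hRpos.ne') h1
    exact L.symm.injective (Subtype.ext h2)

/-- The four round spheres form a simple Venn diagram. -/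
lemma venn_RV : IsVenn RV ∧ IsSimple RV :=
  venn_of le_rfl RB_isBody region_RV_homeo (fun I hI => (inter_RV I hI).union)

lemma inter_RV' : ∀ I : Finset (Fin 4), 2 ≤ I.card →
    IsDisjointSphereUnion (4 - I.card) (⋂ i ∈ I, RV i) :=
  fun I hI => (inter_RV I hI).union

end Pool.Agent.H11.Venn
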